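import Mathlib

/-!
Riemannian metrics on 4-manifolds, the Einstein condition, compact Einstein 4-orbifolds with
isolated singular points, and orbifold singular Einstein metrics on 4-manifolds.

The Euclidean space `ℝ⁴` is the space `ℍ[ℝ]` of the real quaternions with its usual norm, which is
the Euclidean norm of the four real coordinates.
-/

open Set Metric Topology
open scoped Manifold ContDiff Quaternion

noncomputable section

namespace Pool.Agent.H78.Orb

/-- The standard orthonormal basis `1, i, j, k` of `ℝ⁴ = ℍ[ℝ]`. -/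
def bv (i : Fin 4) : ℍ[ℝ] :=
  ![(⟨1, 0, 0, 0⟩ : ℍ[ℝ]), (⟨0, 1, 0, 0⟩ : ℍ[ℝ]), (⟨0, 0, 1, 0⟩ : ℍ[ℝ]), (⟨0, 0, 0, 1⟩ : ℍ[ℝ])] i

/-- The derivative of a function on `ℝ⁴` in the direction of the `i`-th basis vector. -/
def pd (i : Fin 4) (f : ℍ[ℝ] → ℝ) (x : ℍ[ℝ]) : ℝ := fderiv ℝ f x (bv i)

/-- The Christoffel symbols `Γ^k_{ij}` of the metric with component matrix `G`:
`Γ^k_{ij} = (1/2) ∑ l, G^{kl} (∂_i G_{jl} + ∂_j G_{il} - ∂_l G_{ij})`. -/
def christoffel (G : ℍ[ℝ] → Matrix (Fin 4) (Fin 4) ℝ) (k i j : Fin 4) (x : ℍ[ℝ]) : ℝ :=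
  (1 / 2) * ∑ l, (G x)⁻¹ k l *
    (pd i (fun y => G y j l) x + pd j (fun y => G y i l) x - pd l (fun y => G y i j) x)

/-- The Ricci tensor of the metric with component matrix `G`:
`Ric_{ij} = ∑ k, ∂_k Γ^k_{ij} - ∑ k, ∂_j Γ^k_{ik} + ∑ k l, (Γ^k_{kl} Γ^l_{ij} - Γ^k_{jl} Γ^l_{ik})`.
-/
def ricci (G : ℍ[ℝ] → Matrix (Fin 4) (Fin 4) ℝ) (i j : Fin 4) (x : ℍ[ℝ]) : ℝ :=
  ∑ k, pd k (christoffel G k i j) x - ∑ k, pd j (christoffel G k i k) x
    + ∑ k, ∑ l, (christoffel G k k l x * christoffel G l i j x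
      - christoffel G k j l x * christoffel G l i k x)

section metric

variable (N : Type) [TopologicalSpace N] [ChartedSpace ℍ[ℝ] N]

/-- A choice of a bilinear form on each tangent space of a 4-manifold `N`. -/
abbrev BilinField : Type :=
  ∀ x : N, TangentSpace 𝓘(ℝ, ℍ[ℝ]) x →L[ℝ] TangentSpace 𝓘(ℝ, ℍ[ℝ]) x →L[ℝ] ℝ

variable {N}

/-- The matrix of components, in the chart `e`, of a field of bilinear forms, as a function on the
target of the chart. -/
def components (b : BilinField N) (e : OpenPartialHomeomorph N ℍ[ℝ]) (y : ℍ[ℝ]) :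
    Matrix (Fin 4) (Fin 4) ℝ :=
  Matrix.of fun i j => b (e.symm y) (mfderiv 𝓘(ℝ, ℍ[ℝ]) 𝓘(ℝ, ℍ[ℝ]) e.symm y (bv i))
    (mfderiv 𝓘(ℝ, ℍ[ℝ]) 𝓘(ℝ, ℍ[ℝ]) e.symm y (bv j))

variable (N)

/-- A smooth Riemannian metric on a 4-manifold `N`: a field of inner products on the tangent
spaces whose components in every chart of the atlas are smooth functions. -/
structure RiemMetric where
  /-- the inner product on each tangent space -/
  inner : BilinField N
  symm : ∀ (x : N) (u v : TangentSpace 𝓘(ℝ, ℍ[ℝ]) x), inner x u v = inner x v u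
  pos : ∀ (x : N) (u : TangentSpace 𝓘(ℝ, ℍ[ℝ]) x), u ≠ 0 → 0 < inner x u u
  smooth : ∀ e ∈ atlas ℍ[ℝ] N, ∀ i j : Fin 4,
    ContDiffOn ℝ ∞ (fun y => components inner e y i j) e.target

variable {N}

/-- The metric `g` is Einstein with constant `c`: in every chart of the atlas `Ric = c g`. -/
def RiemMetric.IsEinstein (g : RiemMetric N) (c : ℝ) : Prop :=
  ∀ e ∈ atlas ℍ[ℝ] N, ∀ y ∈ e.target, ∀ i j : Fin 4,
    ricci (components g.inner e) i j y = c * components g.inner e y i j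

/-- The pullback of the metric `g` by the map `φ`, defined on the punctured ball of radius `ρ`
around `0` in `ℝ⁴`, extends to a smooth Riemannian metric `h` on the whole ball. -/
def RiemMetric.ExtendsSmoothly (g : RiemMetric N) (ρ : ℝ) (φ : ℍ[ℝ] → N) : Prop :=
  ∃ h : ℍ[ℝ] → Matrix (Fin 4) (Fin 4) ℝ,
    (∀ i j, ContDiffOn ℝ ∞ (fun x => h x i j) (ball 0 ρ)) ∧
    (∀ x ∈ ball (0 : ℍ[ℝ]) ρ, (h x).PosDef) ∧
    ∀ x ∈ ball (0 : ℍ[ℝ]) ρ, x ≠ 0 → ∀ i j, h x i j =
      g.inner (φ x) (mfderiv 𝓘(ℝ, ℍ[ℝ]) 𝓘(ℝ, ℍ[ℝ]) φ x (bv i))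
        (mfderiv 𝓘(ℝ, ℍ[ℝ]) 𝓘(ℝ, ℍ[ℝ]) φ x (bv j))

end metric

/-- `Γ` is a nontrivial finite group of linear isometries of `ℝ⁴` (a finite subgroup of `O(4)`)
acting freely on the unit sphere `S³`. -/
def IsSphericalGroup (Γ : Subgroup (ℍ[ℝ] ≃ₗᵢ[ℝ] ℍ[ℝ])) : Prop :=
  (Γ : Set (ℍ[ℝ] ≃ₗᵢ[ℝ] ℍ[ℝ])).Finite ∧ Γ ≠ ⊥ ∧
    ∀ γ ∈ Γ, γ ≠ 1 → ∀ x ∈ sphere (0 : ℍ[ℝ]) 1, γ x ≠ x

/-- `ψ` maps the ball of radius `ρ` around `0` in `ℝ⁴` onto an open neighbourhood of `q = ψ 0` in
`V`, and induces a homeomorphism of the quotient of the ball by `Γ` (an open cone on `S³ / Γ`)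
with this neighbourhood. -/
def IsConeChart {V : Type} [TopologicalSpace V] (Γ : Subgroup (ℍ[ℝ] ≃ₗᵢ[ℝ] ℍ[ℝ])) (ρ : ℝ)
    (ψ : ℍ[ℝ] → V) (q : V) : Prop :=
  0 < ρ ∧ ψ 0 = q ∧ ContinuousOn ψ (ball 0 ρ) ∧
    (∀ U ⊆ ball (0 : ℍ[ℝ]) ρ, IsOpen U → IsOpen (ψ '' U)) ∧
    ∀ x ∈ ball (0 : ℍ[ℝ]) ρ, ∀ y ∈ ball (0 : ℍ[ℝ]) ρ, ψ x = ψ y ↔ ∃ γ ∈ Γ, γ x = y

/-- An Einstein 4-orbifold with finitely many singular points. Here `V` is the underlying
topological space, and `N` is its regular part: a smooth 4-manifold with an open embedding into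
`V` whose image is the complement of the finite set of singular points, carrying an Einstein
metric. Each singular point `q` is a genuine orbifold point: it has a neighbourhood modelled on
the cone on `S³ / Γ` for a nontrivial finite group `Γ` of linear isometries acting freely on `S³`,
by a map `ψ` from a ball in `ℝ⁴` which away from `0` is the composition of a local diffeomorphism
`φ` to `N` with the inclusion, and the pullback of the metric by `φ` extends smoothly across `0`.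
-/
structure EinsteinOrbifold (V N : Type) [TopologicalSpace V] [TopologicalSpace N]
    [ChartedSpace ℍ[ℝ] N] where
  /-- the singular points -/
  sing : Set V
  sing_finite : sing.Finite
  /-- the inclusion of the regular part -/
  incl : N → V
  incl_openEmbedding : IsOpenEmbedding incl
  range_incl : range incl = singᶜ
  /-- the metric on the regular part -/
  metric : RiemMetric N
  einstein : ∃ c : ℝ, metric.IsEinstein c
  local_model : ∀ q ∈ sing, ∃ (Γ : Subgroup (ℍ[ℝ] ≃ₗᵢ[ℝ] ℍ[ℝ])) (ρ : ℝ) (ψ : ℍ[ℝ] → V)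
    (φ : ℍ[ℝ] → N), IsSphericalGroup Γ ∧ IsConeChart Γ ρ ψ q ∧
      (∀ x ∈ ball (0 : ℍ[ℝ]) ρ, x ≠ 0 → incl (φ x) = ψ x) ∧
      IsLocalDiffeomorphOn 𝓘(ℝ, ℍ[ℝ]) 𝓘(ℝ, ℍ[ℝ]) ∞ φ (ball 0 ρ \ {0}) ∧
      metric.ExtendsSmoothly ρ φ

/-- A resolution of the orbifold `O` by a smooth manifold `M` modelled on the normed space `E`: a
continuous surjection `π` from `M` onto `V` such that the preimage of every singular point is
compact and connected and `π` restricts to a diffeomorphism from the complement of these preimages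
onto the regular part of `V` (the inverse diffeomorphism is the map `j`, an injective local
diffeomorphism of the regular part onto the set of points not mapped to singular points). -/
def IsResolution {V N : Type} [TopologicalSpace V] [TopologicalSpace N] [ChartedSpace ℍ[ℝ] N]
    {E : Type*} [NormedAddCommGroup E] [NormedSpace ℝ E] {M : Type*} [TopologicalSpace M]
    [ChartedSpace E M] (O : EinsteinOrbifold V N) (π : M → V) : Prop :=
  Continuous π ∧ Function.Surjective π ∧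
  (∀ q ∈ O.sing, IsCompact (π ⁻¹' {q}) ∧ IsConnected (π ⁻¹' {q})) ∧
  ∃ j : N → M, IsLocalDiffeomorph 𝓘(ℝ, ℍ[ℝ]) 𝓘(ℝ, E) ∞ j ∧ Function.Injective j ∧
    range j = (π ⁻¹' O.sing)ᶜ ∧ ∀ x : N, π (j x) = O.incl x

/-- The smooth manifold `M`, modelled on the normed space `E`, admits an orbifold singular
Einstein metric: there are an Einstein orbifold `(V, g)` (Hausdorff and second countable) and a
resolution `π : M → V`. The orbifold singular Einstein metric is the pullback of `g` by `π`. -/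
def HasOrbifoldSingularEinsteinMetric (E : Type*) [NormedAddCommGroup E] [NormedSpace ℝ E]
    (M : Type*) [TopologicalSpace M] [ChartedSpace E M] : Prop :=
  ∃ (V N : Type) (_ : TopologicalSpace V) (_ : TopologicalSpace N) (_ : ChartedSpace ℍ[ℝ] N)
    (_ : IsManifold 𝓘(ℝ, ℍ[ℝ]) ∞ N) (O : EinsteinOrbifold V N) (π : M → V),
    T2Space V ∧ SecondCountableTopology V ∧ IsResolution (E := E) O π

end Pool.Agent.H78.Orb
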