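import Mathlib
import Pool.Agent.H78.Orb.Defs

/-!
The round metric `4 |dx|² / (1 + |x|²)²` is Einstein with constant `3`.
-/

open Set Metric Topology
open scoped Manifold ContDiff Quaternion

noncomputable section

namespace Pool.Agent.H78.Orb

/-- The space `ℝ⁴` of quaternions. -/
abbrev E4 : Type := ℍ[ℝ]

/-- The coordinates of a point of `ℝ⁴`. -/
def co (i : Fin 4) (x : E4) : ℝ := ![x.re, x.imI, x.imJ, x.imK] i

/-- The coordinates as continuous linear forms. -/
def prj (i : Fin 4) : E4 →L[ℝ] ℝ :=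
  (EuclideanSpace.proj i : EuclideanSpace ℝ (Fin 4) →L[ℝ] ℝ).comp
    (Quaternion.linearIsometryEquivTuple.toContinuousLinearEquiv :
      ℍ[ℝ] →L[ℝ] EuclideanSpace ℝ (Fin 4))

lemma prj_apply (i : Fin 4) (x : E4) : prj i x = co i x := by
  fin_cases i <;> rfl

lemma co_bv (a m : Fin 4) : co a (bv m) = if a = m then 1 else 0 := by
  fin_cases a <;> fin_cases m <;> simp [co, bv]

/-- `1 + |x|²`. -/
def sfun (x : E4) : ℝ := 1 + (co 0 x ^ 2 + co 1 x ^ 2 + co 2 x ^ 2 + co 3 x ^ 2)

lemma sfun_pos (x : E4) : 0 < sfun x := by unfold sfun; positivity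

lemma sfun_eq (x : E4) : sfun x = 1 + ‖x‖ ^ 2 := by
  rw [sq ‖x‖, ← Quaternion.normSq_eq_norm_mul_self, Quaternion.normSq_def']
  rfl

/-- The round metric in stereographic coordinates. -/
def G0 (x : E4) : Matrix (Fin 4) (Fin 4) ℝ := (4 / sfun x ^ 2) • (1 : Matrix (Fin 4) (Fin 4) ℝ)

lemma hasFDerivAt_coord (i : Fin 4) (x : E4) :
    HasFDerivAt (fun y : E4 => co i y) (prj i) x := by
  have h : (fun y : E4 => co i y) = prj i := by
    funext y
    exact (prj_apply i y).symm
  rw [h]
  exact (prj i).hasFDerivAt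

/-- The derivative of `sfun`. -/
def dsfun (x : E4) : E4 →L[ℝ] ℝ :=
  (2 * co 0 x) • prj 0 + (2 * co 1 x) • prj 1 + (2 * co 2 x) • prj 2 + (2 * co 3 x) • prj 3

lemma hasFDerivAt_sfun (x : E4) : HasFDerivAt sfun (dsfun x) x := by
  have h := fun i => (hasFDerivAt_coord i x).pow 2
  have := ((((h 0).add (h 1)).add (h 2)).add (h 3)).const_add 1
  refine this.congr_fderiv ?_
  ext v
  simp [dsfun]

lemma proj_bv (a m : Fin 4) : prj a (bv m) = if a = m then 1 else 0 := by
  rw [prj_apply, co_bv]

lemma pd_sfun (m : Fin 4) (x : E4) : pd m sfun x = 2 * co m x := by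
  unfold pd
  rw [(hasFDerivAt_sfun x).fderiv]
  unfold dsfun
  simp only [add_apply, smul_apply, proj_bv, smul_eq_mul]
  fin_cases m <;> simp

lemma pd_coord (m i : Fin 4) (x : E4) : pd m (fun y => co i y) x = if i = m then 1 else 0 := by
  unfold pd
  rw [(hasFDerivAt_coord i x).fderiv, proj_bv]

lemma G0_apply (x : E4) (i j : Fin 4) : G0 x i j = if i = j then 4 / sfun x ^ 2 else 0 := by
  simp [G0, Matrix.one_apply]

lemma G0_inv (x : E4) : (G0 x)⁻¹ = (sfun x ^ 2 / 4) • (1 : Matrix (Fin 4) (Fin 4) ℝ) := by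
  have h := sfun_pos x
  apply Matrix.inv_eq_right_inv
  simp only [G0, smul_mul_assoc, one_mul, smul_smul]
  have : 4 / sfun x ^ 2 * (sfun x ^ 2 / 4) = 1 := by field_simp
  rw [this, one_smul]

lemma differentiableAt_sfun (x : E4) : DifferentiableAt ℝ sfun x :=
  (hasFDerivAt_sfun x).differentiableAt

lemma dsfun_bv (m : Fin 4) (x : E4) : dsfun x (bv m) = 2 * co m x := by
  have := pd_sfun m x
  unfold pd at this
  rwa [(hasFDerivAt_sfun x).fderiv] at this

lemma pd_G0 (m i j : Fin 4) (x : E4) :
    pd m (fun y => G0 y i j) x = if i = j then -16 * co m x / sfun x ^ 3 else 0 := by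
  have hs := sfun_pos x
  by_cases hij : i = j
  · have : (fun y => G0 y i j) = fun y => 4 * (sfun y ^ 2)⁻¹ := by
      funext y; rw [G0_apply, if_pos hij, div_eq_mul_inv]
    rw [this, if_pos hij]
    have h1 := (hasDerivAt_inv (show sfun x ^ 2 ≠ 0 by positivity)).comp_hasFDerivAt x
      ((hasFDerivAt_sfun x).pow 2)
    have h2 := h1.const_mul 4
    unfold pd
    rw [show (fun y => 4 * (sfun y ^ 2)⁻¹) = fun y => 4 * (Inv.inv ∘ fun x => sfun x ^ 2) y from rfl,
      h2.fderiv]
    simp only [smul_apply, smul_eq_mul, dsfun_bv]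
    simp
    field_simp
    ring
  · have : (fun y => G0 y i j) = fun _ => 0 := by
      funext y; rw [G0_apply, if_neg hij]
    rw [this, if_neg hij]
    simp [pd]

lemma christoffel_G0 (k i j : Fin 4) : christoffel G0 k i j = fun x =>
    (-2 / sfun x) * ((if j = k then co i x else 0) + (if i = k then co j x else 0)
      - (if i = j then co k x else 0)) := by
  funext x
  have hs := sfun_pos x
  unfold christoffel
  simp only [pd_G0, G0_inv, Matrix.smul_apply, Matrix.one_apply, smul_eq_mul, mul_ite, mul_one,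
    mul_zero, ite_mul, zero_mul, Finset.sum_ite_eq, Finset.mem_univ, if_true]
  split_ifs <;> field_simp <;> ring

lemma pd_christoffel_G0 (m k i j : Fin 4) (x : E4) : pd m (christoffel G0 k i j) x =
    (4 * co m x / sfun x ^ 2) * ((if j = k then co i x else 0) + (if i = k then co j x else 0)
      - (if i = j then co k x else 0)) +
    (-2 / sfun x) * ((if j = k then 1 else 0) * (if i = m then 1 else 0)
      + (if i = k then 1 else 0) * (if j = m then 1 else 0)
      - (if i = j then 1 else 0) * (if k = m then 1 else 0)) := by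
  have hs := sfun_pos x
  rw [christoffel_G0]
  have hx := fun i => hasFDerivAt_coord i x
  have hcoord : ∀ (P : Prop) [Decidable P] (a : Fin 4),
      HasFDerivAt (fun y : E4 => if P then co a y else 0)
        ((if P then (1 : ℝ) else 0) • prj a) x := by
    intro P _ a
    by_cases hP : P
    · simpa [hP] using hx a
    · simpa [hP] using (hasFDerivAt_const (0 : ℝ) x)
  have h1 := (hasDerivAt_inv hs.ne').comp_hasFDerivAt x (hasFDerivAt_sfun x)
  have h2 := h1.const_mul (-2)
  have h3 := ((hcoord (j = k) i).add (hcoord (i = k) j)).sub (hcoord (i = j) k)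
  have h4 := h2.mul h3
  have h5 := h4.congr_of_eventuallyEq (f₁ := fun x : E4 => (-2 / sfun x) *
    ((if j = k then co i x else 0) + (if i = k then co j x else 0) - (if i = j then co k x else 0)))
    (Filter.Eventually.of_forall fun y => by
      simp only [Pi.mul_apply, Pi.add_apply, Pi.sub_apply, div_eq_mul_inv, Function.comp])
  unfold pd
  rw [h5.fderiv]
  rw [add_apply, smul_apply, smul_apply, smul_apply, smul_apply, dsfun_bv, sub_apply, add_apply,
    smul_apply, smul_apply, smul_apply, proj_bv, proj_bv, proj_bv]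
  simp only [smul_eq_mul, Pi.add_apply, Pi.sub_apply, Function.comp]
  field_simp
  ring

theorem ricci_G0 (i j : Fin 4) (x : E4) : ricci G0 i j x = 3 * G0 x i j := by
  have hs := sfun_pos x
  unfold ricci
  simp only [pd_christoffel_G0, G0_apply]
  simp only [christoffel_G0, Fin.sum_univ_four]
  fin_cases i <;> fin_cases j <;> simp <;> field_simp <;> unfold sfun <;> ring

end Pool.Agent.H78.Orb
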