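import Mathlib
import Pool.Agent.H78.Orb.Defs
import Pool.Agent.H78.Orb.Ricci

/-!
The quaternion group of order eight, acting on `ℝ⁴` by right multiplications.
-/

open Set Metric Topology
open scoped Manifold ContDiff Quaternion

noncomputable section

namespace Pool.Agent.H78.Orb

/-- The identification of the quaternions with `ℝ⁴`. -/
def Th : ℍ[ℝ] ≃ₗᵢ[ℝ] E4 := LinearIsometryEquiv.refl ℝ ℍ[ℝ]

/-- `p` is one of the eight quaternions `±1, ±i, ±j, ±k`. -/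
def IsQ (p : ℍ[ℝ]) : Prop :=
  (p.re ^ 2 = 1 ∧ p.imI = 0 ∧ p.imJ = 0 ∧ p.imK = 0) ∨
  (p.re = 0 ∧ p.imI ^ 2 = 1 ∧ p.imJ = 0 ∧ p.imK = 0) ∨
  (p.re = 0 ∧ p.imI = 0 ∧ p.imJ ^ 2 = 1 ∧ p.imK = 0) ∨
  (p.re = 0 ∧ p.imI = 0 ∧ p.imJ = 0 ∧ p.imK ^ 2 = 1)

lemma sq_one_cases {x : ℝ} (h : x ^ 2 = 1) : x = 1 ∨ x = -1 := by
  have h1 : (x - 1) * (x + 1) = 0 := by nlinarith
  rcases mul_eq_zero.1 h1 with h2 | h2
  · left; linarith
  · right; linarith

lemma IsQ.one : IsQ 1 := Or.inl (by simp)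

lemma IsQ.neg_one : IsQ (-1) := Or.inl (by simp)

lemma IsQ.normSq {p : ℍ[ℝ]} (h : IsQ p) : Quaternion.normSq p = 1 := by
  rw [Quaternion.normSq_def']
  rcases h with ⟨h1, h2, h3, h4⟩ | ⟨h1, h2, h3, h4⟩ | ⟨h1, h2, h3, h4⟩ | ⟨h1, h2, h3, h4⟩ <;>
    simp [h1, h2, h3, h4]

lemma IsQ.norm {p : ℍ[ℝ]} (h : IsQ p) : ‖p‖ = 1 := by
  have h1 := Quaternion.normSq_eq_norm_mul_self p
  rw [h.normSq] at h1
  have h2 : 0 ≤ ‖p‖ := norm_nonneg p
  nlinarith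

lemma IsQ.mul {p q : ℍ[ℝ]} (hp : IsQ p) (hq : IsQ q) : IsQ (p * q) := by
  unfold IsQ at *
  simp only [Quaternion.re_mul, Quaternion.imI_mul, Quaternion.imJ_mul, Quaternion.imK_mul]
  rcases hp with ⟨h1, h2, h3, h4⟩ | ⟨h1, h2, h3, h4⟩ | ⟨h1, h2, h3, h4⟩ | ⟨h1, h2, h3, h4⟩ <;>
    rcases hq with ⟨k1, k2, k3, k4⟩ | ⟨k1, k2, k3, k4⟩ | ⟨k1, k2, k3, k4⟩ | ⟨k1, k2, k3, k4⟩ <;>
    simp only [h1, h2, h3, h4, k1, k2, k3, k4, mul_zero, zero_mul, sub_zero, add_zero, zero_add,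
      zero_sub, mul_pow, neg_sq, mul_one, and_self, true_or, or_true, ne_eq, OfNat.ofNat_ne_zero,
      not_false_eq_true, zero_pow]

lemma IsQ.starQ {p : ℍ[ℝ]} (hp : IsQ p) : IsQ (star p) := by
  unfold IsQ at *
  simpa using hp

lemma IsQ.mul_star {p : ℍ[ℝ]} (hp : IsQ p) : p * star p = 1 := by
  rw [Quaternion.self_mul_star, hp.normSq]; rfl

lemma IsQ.star_mul {p : ℍ[ℝ]} (hp : IsQ p) : star p * p = 1 := by
  rw [Quaternion.star_mul_self, hp.normSq]; rfl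

lemma IsQ.norm_sub_one {p : ℍ[ℝ]} (hp : IsQ p) (h1 : p ≠ 1) : 1 ≤ ‖p - 1‖ := by
  have h2 := Quaternion.normSq_eq_norm_mul_self (p - 1)
  rw [Quaternion.normSq_def'] at h2
  have hn : 0 ≤ ‖p - 1‖ := norm_nonneg _
  simp only [Quaternion.re_sub, Quaternion.re_one, Quaternion.imI_sub, Quaternion.imI_one,
    Quaternion.imJ_sub, Quaternion.imJ_one, Quaternion.imK_sub, Quaternion.imK_one, sub_zero] at h2
  rcases hp with ⟨k1, k2, k3, k4⟩ | ⟨k1, k2, k3, k4⟩ | ⟨k1, k2, k3, k4⟩ | ⟨k1, k2, k3, k4⟩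
  · rcases sq_one_cases k1 with h | h
    · exact absurd (by ext <;> simp [h, k2, k3, k4]) h1
    · rw [h, k2, k3, k4] at h2
      nlinarith
  · rw [k1, k2, k3, k4] at h2
    nlinarith
  · rw [k1, k2, k3, k4] at h2
    nlinarith
  · rw [k1, k2, k3, k4] at h2
    nlinarith

lemma finite_isQ : {p : ℍ[ℝ] | IsQ p}.Finite := by
  let f : ℍ[ℝ] → ℝ × ℝ × ℝ × ℝ := fun p => (p.re, p.imI, p.imJ, p.imK)
  have hf : Function.Injective f := by
    intro p q h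
    simp only [f, Prod.mk.injEq] at h
    obtain ⟨h1, h2, h3, h4⟩ := h
    ext <;> assumption
  let T : Set ℝ := {1, -1, 0}
  have hT : T.Finite := Set.toFinite _
  have hTT : (T ×ˢ T ×ˢ T ×ˢ T).Finite := hT.prod (hT.prod (hT.prod hT))
  refine (hTT.preimage hf.injOn).subset ?_
  have h0 : (0 : ℝ) ∈ T := by simp [T]
  have h1 : ∀ x : ℝ, x ^ 2 = 1 → x ∈ T := by
    intro x hx
    rcases sq_one_cases hx with h | h <;> simp [T, h]
  intro p hp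
  simp only [mem_preimage, f, mem_prod]
  rcases hp with ⟨k1, k2, k3, k4⟩ | ⟨k1, k2, k3, k4⟩ | ⟨k1, k2, k3, k4⟩ | ⟨k1, k2, k3, k4⟩
  · exact ⟨h1 _ k1, by rw [k2]; exact h0, by rw [k3]; exact h0, by rw [k4]; exact h0⟩
  · exact ⟨by rw [k1]; exact h0, h1 _ k2, by rw [k3]; exact h0, by rw [k4]; exact h0⟩
  · exact ⟨by rw [k1]; exact h0, by rw [k2]; exact h0, h1 _ k3, by rw [k4]; exact h0⟩
  · exact ⟨by rw [k1]; exact h0, by rw [k2]; exact h0, by rw [k3]; exact h0, h1 _ k4⟩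

/-- The quaternion group of order eight, as a group of linear isometries of `ℝ⁴`. -/
def Q8 : Subgroup (E4 ≃ₗᵢ[ℝ] E4) where
  carrier := {γ | ∃ p, IsQ p ∧ ∀ x, γ x = Th (Th.symm x * p)}
  mul_mem' := by
    rintro γ γ' ⟨p, hp, h⟩ ⟨p', hp', h'⟩
    refine ⟨p' * p, hp'.mul hp, fun x => ?_⟩
    rw [LinearIsometryEquiv.coe_mul, Function.comp, h, h', LinearIsometryEquiv.symm_apply_apply,
      mul_assoc]
  one_mem' := ⟨1, IsQ.one, fun x => by
    rw [mul_one, LinearIsometryEquiv.apply_symm_apply]; rfl⟩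
  inv_mem' := by
    rintro γ ⟨p, hp, h⟩
    refine ⟨star p, hp.starQ, fun x => ?_⟩
    have h1 := h (γ⁻¹ x)
    have h2 : γ (γ⁻¹ x) = x := LinearIsometryEquiv.apply_symm_apply γ x
    rw [h2] at h1
    have h3 : Th.symm x = Th.symm (γ⁻¹ x) * p := by
      have := congrArg Th.symm h1
      rwa [LinearIsometryEquiv.symm_apply_apply] at this
    rw [h3, mul_assoc, hp.mul_star, mul_one, LinearIsometryEquiv.apply_symm_apply]

/-- Right multiplication by a unit quaternion, as a linear isometry of `ℝ⁴`. -/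
def rmul (p : ℍ[ℝ]) (hp : IsQ p) : E4 ≃ₗᵢ[ℝ] E4 :=
  (Th.symm.trans
    { toFun := fun x => x * p
      invFun := fun x => x * star p
      map_add' := fun x y => add_mul x y p
      map_smul' := fun c x => smul_mul_assoc c x p
      left_inv := fun x => by simp only [mul_assoc, hp.mul_star, mul_one]
      right_inv := fun x => by simp only [mul_assoc, hp.star_mul, mul_one]
      norm_map' := fun x => by
        change ‖x * p‖ = ‖x‖
        rw [norm_mul, hp.norm, mul_one] }).trans Th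

lemma rmul_apply (p : ℍ[ℝ]) (hp : IsQ p) (x : E4) : rmul p hp x = Th (Th.symm x * p) := rfl

lemma rmul_mem (p : ℍ[ℝ]) (hp : IsQ p) : rmul p hp ∈ Q8 := ⟨p, hp, fun _ => rfl⟩

lemma exists_mem_Q8_iff (x y : E4) :
    (∃ γ ∈ Q8, γ x = y) ↔ ∃ p, IsQ p ∧ Th.symm y = Th.symm x * p := by
  constructor
  · rintro ⟨γ, ⟨p, hp, h⟩, rfl⟩
    exact ⟨p, hp, by rw [h, LinearIsometryEquiv.symm_apply_apply]⟩
  · rintro ⟨p, hp, h⟩
    exact ⟨rmul p hp, rmul_mem p hp, by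
      rw [rmul_apply, ← h, LinearIsometryEquiv.apply_symm_apply]⟩

lemma finite_Q8 : (Q8 : Set (E4 ≃ₗᵢ[ℝ] E4)).Finite := by
  refine Set.Finite.of_injOn (f := fun γ : E4 ≃ₗᵢ[ℝ] E4 => Th.symm (γ (Th 1))) ?_ ?_ finite_isQ
  · rintro γ ⟨p, hp, h⟩
    simp only [h, LinearIsometryEquiv.symm_apply_apply, one_mul]
    exact hp
  · rintro γ ⟨p, hp, h⟩ γ' ⟨p', hp', h'⟩ heq
    simp only [h, h', LinearIsometryEquiv.symm_apply_apply, one_mul] at heq
    ext1 x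
    rw [h, h', heq]

lemma Q8_ne_bot : Q8 ≠ ⊥ := by
  intro h
  have h1 : rmul (-1) IsQ.neg_one ∈ Q8 := rmul_mem _ _
  rw [h, Subgroup.mem_bot] at h1
  have h2 := DFunLike.congr_fun h1 (Th 1)
  rw [rmul_apply, LinearIsometryEquiv.symm_apply_apply, one_mul] at h2
  have h3 : (-1 : ℍ[ℝ]) = 1 := Th.injective h2
  have h4 := congrArg (fun q : ℍ[ℝ] => q.re) h3
  norm_num at h4

/-- A nontrivial element of the group moves every point `x` by at least `‖x‖`. -/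
lemma Q8_move {γ : E4 ≃ₗᵢ[ℝ] E4} (hγ : γ ∈ Q8) (h1 : γ ≠ 1) (x : E4) : ‖x‖ ≤ ‖γ x - x‖ := by
  obtain ⟨p, hp, h⟩ := hγ
  have hp1 : p ≠ 1 := by
    rintro rfl
    apply h1
    ext1 x
    rw [h, mul_one, LinearIsometryEquiv.apply_symm_apply]
    rfl
  have h2 : γ x - x = Th (Th.symm x * (p - 1)) := by
    rw [h, mul_sub, mul_one, map_sub, LinearIsometryEquiv.apply_symm_apply]
  rw [h2, LinearIsometryEquiv.norm_map, norm_mul, LinearIsometryEquiv.norm_map]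
  have := hp.norm_sub_one hp1
  nlinarith [norm_nonneg x]

lemma Q8_free : ∀ γ ∈ Q8, γ ≠ 1 → ∀ x ∈ sphere (0 : E4) 1, γ x ≠ x := by
  intro γ hγ h1 x hx h2
  have := Q8_move hγ h1 x
  rw [h2, sub_self, norm_zero] at this
  rw [mem_sphere_zero_iff_norm] at hx
  linarith

end Pool.Agent.H78.Orb
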