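import Mathlib
import Pool.Agent.H78.Orb.Defs
import Pool.Agent.H78.Orb.Group

/-!
Symmetric `3 × 3` matrices modulo positive scalars and multiples of the identity: this is a
four-sphere, and `sig` is a stereographic projection of it, defined away from one point.
-/

open Set Metric Topology Matrix
open scoped Manifold ContDiff Quaternion

noncomputable section

namespace Pool.Agent.H78.Orb

/-- The target space `ℝ⁴`. -/
abbrev F4 : Type := EuclideanSpace ℝ (Fin 4)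

/-- `3 × 3` real matrices. -/
abbrev M3 : Type := Matrix (Fin 3) (Fin 3) ℝ

/-- The four coordinates transverse to the pole. -/
def Pv (B : M3) : F4 := !₂[B 0 0 - B 1 1, 2 * B 0 1, 2 * B 0 2, 2 * B 1 2]

/-- The coordinate in the direction of the pole. -/
def wv (B : M3) : ℝ := (B 0 0 + B 1 1 + B 2 2) / 3 - B 2 2

/-- Square of the norm of `Pv`. -/
def Pn (B : M3) : ℝ :=
  (B 0 0 - B 1 1) ^ 2 + (2 * B 0 1) ^ 2 + (2 * B 0 2) ^ 2 + (2 * B 1 2) ^ 2

lemma norm_Pv_sq (B : M3) : ‖Pv B‖ ^ 2 = Pn B := by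
  rw [EuclideanSpace.real_norm_sq_eq, Fin.sum_univ_four]
  rfl

lemma Pn_nonneg (B : M3) : 0 ≤ Pn B := by unfold Pn; positivity

/-- The denominator of the stereographic projection. -/
def dn (B : M3) : ℝ := √((3 / 4) * (3 * wv B ^ 2 + Pn B)) - (3 / 2) * wv B

/-- The stereographic projection. -/
def sig (B : M3) : F4 := (dn B)⁻¹ • Pv B

/-- The inverse of the stereographic projection. -/
def Ah (z : F4) : M3 :=
  !![((3 * (z 0 ^ 2 + z 1 ^ 2 + z 2 ^ 2 + z 3 ^ 2) - 4) + 12 * z 0) / 2, 6 * z 1, 6 * z 2;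
     6 * z 1, ((3 * (z 0 ^ 2 + z 1 ^ 2 + z 2 ^ 2 + z 3 ^ 2) - 4) - 12 * z 0) / 2, 6 * z 3;
     6 * z 2, 6 * z 3, -(3 * (z 0 ^ 2 + z 1 ^ 2 + z 2 ^ 2 + z 3 ^ 2) - 4)]

lemma dn_sq (B : M3) : (dn B + (3 / 2) * wv B) ^ 2 = (3 / 4) * (3 * wv B ^ 2 + Pn B) := by
  have h : 0 ≤ (3 / 4) * (3 * wv B ^ 2 + Pn B) := by
    have := Pn_nonneg B
    positivity
  unfold dn
  rw [sub_add_cancel, Real.sq_sqrt h]

lemma dn_rel (B : M3) : dn B ^ 2 + 3 * wv B * dn B = (3 / 4) * Pn B := by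
  have := dn_sq B
  nlinarith

lemma dn_nonneg (B : M3) : 0 ≤ dn B := by
  unfold dn
  have h1 : |(3 / 2) * wv B| ≤ √((3 / 4) * (3 * wv B ^ 2 + Pn B)) := by
    apply Real.abs_le_sqrt
    have := Pn_nonneg B
    nlinarith
  have := le_abs_self ((3 / 2) * wv B)
  linarith

/-- The traceless part. -/
def tl (B : M3) : M3 := B - ((B 0 0 + B 1 1 + B 2 2) / 3) • (1 : M3)

lemma sig_apply (B : M3) (i : Fin 4) : sig B i = (dn B)⁻¹ * Pv B i := rfl

lemma Pv_apply0 (B : M3) : Pv B 0 = B 0 0 - B 1 1 := rfl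
lemma Pv_apply1 (B : M3) : Pv B 1 = 2 * B 0 1 := rfl
lemma Pv_apply2 (B : M3) : Pv B 2 = 2 * B 0 2 := rfl
lemma Pv_apply3 (B : M3) : Pv B 3 = 2 * B 1 2 := rfl

lemma tl_eq (B : M3) (hB : Bᵀ = B) (h : dn B ≠ 0) : (12 : ℝ) • tl B = dn B • Ah (sig B) := by
  have hs : ∀ i j, B i j = B j i := fun i j => by
    conv_lhs => rw [← hB]
    rfl
  have hrel := dn_rel B
  have h0 : sig B 0 = (dn B)⁻¹ * (B 0 0 - B 1 1) := rfl
  have h1 : sig B 1 = (dn B)⁻¹ * (2 * B 0 1) := rfl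
  have h2 : sig B 2 = (dn B)⁻¹ * (2 * B 0 2) := rfl
  have h3 : sig B 3 = (dn B)⁻¹ * (2 * B 1 2) := rfl
  have hsum : dn B * (3 * (sig B 0 ^ 2 + sig B 1 ^ 2 + sig B 2 ^ 2 + sig B 3 ^ 2) - 4)
      = 12 * wv B := by
    have : sig B 0 ^ 2 + sig B 1 ^ 2 + sig B 2 ^ 2 + sig B 3 ^ 2 = (dn B)⁻¹ ^ 2 * Pn B := by
      rw [h0, h1, h2, h3]; unfold Pn; ring
    rw [this]
    field_simp
    nlinarith
  have hw : wv B = (B 0 0 + B 1 1 + B 2 2) / 3 - B 2 2 := rfl
  rw [hw] at hsum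
  unfold tl Ah
  ext i j
  fin_cases i <;> fin_cases j <;>
    simp only [Matrix.smul_apply, Matrix.sub_apply, Matrix.one_apply, smul_eq_mul, Fin.mk_zero,
      Fin.mk_one, Fin.isValue, Fin.reduceFinMk, if_true, Matrix.of_apply, Matrix.cons_val',
      Matrix.cons_val_zero, Matrix.cons_val_one, Matrix.cons_val, Matrix.cons_val_fin_one]
  · have e : dn B * sig B 0 = B 0 0 - B 1 1 := by rw [h0]; field_simp
    linear_combination (1 / 2) * (-hsum) - 6 * e
  · have e : dn B * sig B 1 = 2 * B 0 1 := by rw [h1]; field_simp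
    simp
    linear_combination - 6 * e
  · have e : dn B * sig B 2 = 2 * B 0 2 := by rw [h2]; field_simp
    simp
    linear_combination - 6 * e
  · have e : dn B * sig B 1 = 2 * B 0 1 := by rw [h1]; field_simp
    simp
    rw [hs 1 0]
    linear_combination - 6 * e
  · have e : dn B * sig B 0 = B 0 0 - B 1 1 := by rw [h0]; field_simp
    linear_combination (1 / 2) * (-hsum) + 6 * e
  · have e : dn B * sig B 3 = 2 * B 1 2 := by rw [h3]; field_simp
    simp
    linear_combination - 6 * e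
  · have e : dn B * sig B 2 = 2 * B 0 2 := by rw [h2]; field_simp
    simp
    rw [hs 2 0]
    linear_combination - 6 * e
  · have e : dn B * sig B 3 = 2 * B 1 2 := by rw [h3]; field_simp
    simp
    rw [hs 2 1]
    linear_combination - 6 * e
  · linear_combination hsum

lemma Ah_symm (z : F4) : (Ah z)ᵀ = Ah z := by
  ext i j
  fin_cases i <;> fin_cases j <;> rfl

lemma wv_smul_add (c m : ℝ) (B : M3) : wv (c • B + m • 1) = c * wv B := by
  unfold wv
  simp [Matrix.add_apply, Matrix.smul_apply]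
  ring

lemma Pn_smul_add (c m : ℝ) (B : M3) : Pn (c • B + m • 1) = c ^ 2 * Pn B := by
  unfold Pn
  simp [Matrix.add_apply, Matrix.smul_apply]
  ring

lemma Pv_smul_add (c m : ℝ) (B : M3) : Pv (c • B + m • 1) = c • Pv B := by
  unfold Pv
  ext i
  fin_cases i <;> simp [Matrix.add_apply, Matrix.smul_apply] <;> ring

lemma dn_smul_add {c : ℝ} (hc : 0 ≤ c) (m : ℝ) (B : M3) : dn (c • B + m • 1) = c * dn B := by
  unfold dn
  rw [wv_smul_add, Pn_smul_add]
  have : 3 / 4 * (3 * (c * wv B) ^ 2 + c ^ 2 * Pn B)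
      = c ^ 2 * (3 / 4 * (3 * wv B ^ 2 + Pn B)) := by ring
  rw [this, Real.sqrt_mul (sq_nonneg c), Real.sqrt_sq hc]
  ring

lemma sig_smul_add {c : ℝ} (hc : 0 < c) (m : ℝ) (B : M3) : sig (c • B + m • 1) = sig B := by
  unfold sig
  rw [dn_smul_add hc.le, Pv_smul_add, smul_smul]
  congr 1
  by_cases h : dn B = 0
  · rw [h]; simp
  · field_simp

lemma dn_Ah (z : F4) : dn (Ah z) = 12 := by
  have h1 : wv (Ah z) = 3 * (z 0 ^ 2 + z 1 ^ 2 + z 2 ^ 2 + z 3 ^ 2) - 4 := by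
    unfold wv Ah
    simp
    ring
  have h2 : Pn (Ah z) = 144 * (z 0 ^ 2 + z 1 ^ 2 + z 2 ^ 2 + z 3 ^ 2) := by
    unfold Pn Ah
    simp
    ring
  unfold dn
  rw [h1, h2]
  set r := z 0 ^ 2 + z 1 ^ 2 + z 2 ^ 2 + z 3 ^ 2 with hr
  have hr0 : 0 ≤ r := by positivity
  have : 3 / 4 * (3 * (3 * r - 4) ^ 2 + 144 * r) = ((3 / 2) * (3 * r + 4)) ^ 2 := by ring
  rw [this, Real.sqrt_sq (by positivity)]
  ring

lemma sig_Ah (z : F4) : sig (Ah z) = z := by
  unfold sig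
  rw [dn_Ah]
  unfold Pv Ah
  ext i
  fin_cases i <;> simp <;> ring

lemma tl_Ah (z : F4) : tl (Ah z) = Ah z := by
  unfold tl
  have : (Ah z 0 0 + Ah z 1 1 + Ah z 2 2) / 3 = 0 := by
    unfold Ah
    simp
    ring
  rw [this, zero_smul, sub_zero]

lemma eq_tl_add (B : M3) : B = tl B + ((B 0 0 + B 1 1 + B 2 2) / 3) • (1 : M3) := by
  unfold tl; abel

lemma dn_tl (B : M3) : dn (tl B) = dn B := by
  have h := dn_smul_add zero_le_one (-((B 0 0 + B 1 1 + B 2 2) / 3)) B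
  rw [one_smul, one_mul, neg_smul, ← sub_eq_add_neg] at h
  exact h

lemma sig_tl (B : M3) : sig (tl B) = sig B := by
  have h := sig_smul_add one_pos (-((B 0 0 + B 1 1 + B 2 2) / 3)) B
  rw [one_smul, neg_smul, ← sub_eq_add_neg] at h
  exact h

/-- The projection is determined by the ray of the traceless part. -/
lemma sig_eq_of_rel {B : M3} {z : F4} (h0 : tl B ≠ 0) (h : (12 : ℝ) • tl B = dn B • Ah z) :
    sig B = z ∧ 0 < dn B := by
  have hd : dn B ≠ 0 := by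
    intro hd
    rw [hd, zero_smul] at h
    exact h0 ((smul_eq_zero.1 h).resolve_left (by norm_num))
  have hpos : 0 < dn B := lt_of_le_of_ne (dn_nonneg B) (Ne.symm hd)
  refine ⟨?_, hpos⟩
  have h1 : tl B = (dn B / 12) • Ah z := by
    rw [div_eq_inv_mul, mul_smul, ← h, smul_smul]
    norm_num
  have h2 := sig_smul_add (show 0 < dn B / 12 by positivity) 0 (Ah z)
  rw [zero_smul, add_zero, ← h1, sig_tl, sig_Ah] at h2
  exact h2

end Pool.Agent.H78.Orb
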