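import Mathlib
import Pool.Agent.H78.Orb.Defs
import Pool.Agent.H78.Orb.Group
import Pool.Agent.H78.Orb.Sym

/-!
Rotation matrices of quaternions and the family of symmetric matrices
`R diag (1 - t, 0, -t) Rᵀ`.
-/

open Set Metric Topology Matrix
open scoped Manifold ContDiff Quaternion

noncomputable section

namespace Pool.Agent.H78.Orb

/-- The (scaled) rotation matrix of a quaternion. -/
def Rm (x : ℍ[ℝ]) : M3 :=
  !![x.re ^ 2 + x.imI ^ 2 - x.imJ ^ 2 - x.imK ^ 2, 2 * (x.imI * x.imJ - x.re * x.imK),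
      2 * (x.imI * x.imK + x.re * x.imJ);
    2 * (x.imI * x.imJ + x.re * x.imK), x.re ^ 2 - x.imI ^ 2 + x.imJ ^ 2 - x.imK ^ 2,
      2 * (x.imJ * x.imK - x.re * x.imI);
    2 * (x.imI * x.imK - x.re * x.imJ), 2 * (x.imJ * x.imK + x.re * x.imI),
      x.re ^ 2 - x.imI ^ 2 - x.imJ ^ 2 + x.imK ^ 2]

lemma Rm_mul (x y : ℍ[ℝ]) : Rm (x * y) = Rm x * Rm y := by
  unfold Rm
  ext i j
  fin_cases i <;> fin_cases j <;>
    simp [Matrix.mul_apply, Fin.sum_univ_three] <;> ring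

lemma Rm_mul_transpose (x : ℍ[ℝ]) :
    Rm x * (Rm x)ᵀ = (Quaternion.normSq x ^ 2) • (1 : M3) := by
  rw [Quaternion.normSq_def']
  unfold Rm
  ext i j
  fin_cases i <;> fin_cases j <;>
    simp [Matrix.mul_apply, Fin.sum_univ_three] <;> ring

lemma Rm_transpose_mul (x : ℍ[ℝ]) :
    (Rm x)ᵀ * Rm x = (Quaternion.normSq x ^ 2) • (1 : M3) := by
  rw [Quaternion.normSq_def']
  unfold Rm
  ext i j
  fin_cases i <;> fin_cases j <;>
    simp [Matrix.mul_apply, Fin.sum_univ_three] <;> ring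

/-- The diagonal matrix `diag (α, 0, -β)`. -/
def Dg (α β : ℝ) : M3 := Matrix.diagonal ![α, 0, -β]

/-- The conjugated diagonal matrix. -/
def Bm (x : ℍ[ℝ]) (α β : ℝ) : M3 := Rm x * Dg α β * (Rm x)ᵀ

lemma Bm_apply (x : ℍ[ℝ]) (α β : ℝ) (i j : Fin 3) :
    Bm x α β i j = α * (Rm x i 0 * Rm x j 0) - β * (Rm x i 2 * Rm x j 2) := by
  unfold Bm Dg
  rw [Matrix.mul_apply, Fin.sum_univ_three]
  simp [Matrix.mul_diagonal]
  ring

lemma Bm_symm (x : ℍ[ℝ]) (α β : ℝ) : (Bm x α β)ᵀ = Bm x α β := by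
  ext i j
  rw [Matrix.transpose_apply, Bm_apply, Bm_apply]
  ring

/-- Orthogonality relations, entrywise. -/
lemma Rm_col (x : ℍ[ℝ]) (i j : Fin 3) :
    Rm x 0 i * Rm x 0 j + Rm x 1 i * Rm x 1 j + Rm x 2 i * Rm x 2 j =
      if i = j then Quaternion.normSq x ^ 2 else 0 := by
  have h := congrFun (congrFun (Rm_transpose_mul x) i) j
  rw [Matrix.mul_apply, Fin.sum_univ_three] at h
  simpa [Matrix.one_apply] using h

lemma Rm_row (x : ℍ[ℝ]) (i j : Fin 3) :
    Rm x i 0 * Rm x j 0 + Rm x i 1 * Rm x j 1 + Rm x i 2 * Rm x j 2 =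
      if i = j then Quaternion.normSq x ^ 2 else 0 := by
  have h := congrFun (congrFun (Rm_mul_transpose x) i) j
  rw [Matrix.mul_apply, Fin.sum_univ_three] at h
  simpa [Matrix.one_apply] using h

/-- The square of the norm of the traceless part. -/
lemma norm_rel (u0 u1 u2 v0 v1 v2 α β : ℝ) :
    3 * ((α * (u0 * u0) - β * (v0 * v0) + (α * (u1 * u1) - β * (v1 * v1)) +
      (α * (u2 * u2) - β * (v2 * v2))) / 3 - (α * (u2 * u2) - β * (v2 * v2))) ^ 2 +
    (((α * (u0 * u0) - β * (v0 * v0)) - (α * (u1 * u1) - β * (v1 * v1))) ^ 2 +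
      (2 * (α * (u0 * u1) - β * (v0 * v1))) ^ 2 + (2 * (α * (u0 * u2) - β * (v0 * v2))) ^ 2 +
      (2 * (α * (u1 * u2) - β * (v1 * v2))) ^ 2) =
    2 * (α ^ 2 * (u0 * u0 + u1 * u1 + u2 * u2) ^ 2
      - 2 * α * β * (u0 * v0 + u1 * v1 + u2 * v2) ^ 2 + β ^ 2 * (v0 * v0 + v1 * v1 + v2 * v2) ^ 2)
    - (2 / 3) * (α * (u0 * u0 + u1 * u1 + u2 * u2) - β * (v0 * v0 + v1 * v1 + v2 * v2)) ^ 2 := by
  ring

lemma norm_Bm (x : ℍ[ℝ]) (α β : ℝ) :
    (3 / 4) * (3 * wv (Bm x α β) ^ 2 + Pn (Bm x α β)) =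
      Quaternion.normSq x ^ 4 * (α ^ 2 + α * β + β ^ 2) := by
  unfold wv Pn
  simp only [Bm_apply]
  rw [norm_rel]
  have h1 := Rm_col x 0 0
  have h2 := Rm_col x 0 2
  have h3 := Rm_col x 2 2
  simp only [if_true] at h1 h3
  rw [if_neg (by decide)] at h2
  rw [h1, h2, h3]
  ring

/-- The symmetric matrices `Bm x α β` are not scalar. -/
lemma tl_Bm_ne_zero {x : ℍ[ℝ]} (hx : x ≠ 0) {α β : ℝ} (hα : 0 ≤ α) (hβ : 0 ≤ β)
    (h : 0 < α + β) : tl (Bm x α β) ≠ 0 := by
  intro h0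
  have h1 := norm_Bm x α β
  have hw : wv (Bm x α β) = 0 := by
    have := congrFun (congrFun h0 2) 2
    unfold tl at this
    simp [Matrix.sub_apply] at this
    unfold wv
    linarith
  have e00 := congrFun (congrFun h0 0) 0
  have e11 := congrFun (congrFun h0 1) 1
  have e01 := congrFun (congrFun h0 0) 1
  have e02 := congrFun (congrFun h0 0) 2
  have e12 := congrFun (congrFun h0 1) 2
  unfold tl at e00 e11 e01 e02 e12
  simp [Matrix.sub_apply, Matrix.one_apply] at e00 e11 e01 e02 e12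
  have hP : Pn (Bm x α β) = 0 := by
    unfold Pn
    rw [e01, e02, e12]
    have : Bm x α β 0 0 - Bm x α β 1 1 = 0 := by linarith
    rw [this]; ring
  rw [hw, hP] at h1
  have hn : 0 < Quaternion.normSq x := by
    rcases (Quaternion.normSq_nonneg (a := x)).lt_or_eq with h | h
    · exact h
    · exact absurd (Quaternion.normSq_eq_zero.1 h.symm) hx
  have : 0 < Quaternion.normSq x ^ 4 * (α ^ 2 + α * β + β ^ 2) := by
    have : 0 < α ^ 2 + α * β + β ^ 2 := by nlinarith [mul_nonneg hα hβ]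
    positivity
  linarith

/-- Scaling. -/
lemma Bm_scale (x : ℍ[ℝ]) (c α β : ℝ) : Bm x (c * α) (c * β) = c • Bm x α β := by
  ext i j
  rw [Matrix.smul_apply, Bm_apply, Bm_apply, smul_eq_mul]
  ring

lemma Rm_smul (r : ℝ) (x : ℍ[ℝ]) : Rm (r • x) = r ^ 2 • Rm x := by
  unfold Rm
  ext i j
  fin_cases i <;> fin_cases j <;> simp <;> ring

lemma Bm_smul (r : ℝ) (x : ℍ[ℝ]) (α β : ℝ) : Bm (r • x) α β = r ^ 4 • Bm x α β := by
  ext i j
  rw [Matrix.smul_apply, Bm_apply, Bm_apply, Rm_smul]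
  simp only [Matrix.smul_apply, smul_eq_mul]
  ring

/-- Invariance under the quaternion group. -/
lemma Bm_mul_isQ (x : ℍ[ℝ]) {p : ℍ[ℝ]} (hp : IsQ p) (α β : ℝ) : Bm (x * p) α β = Bm x α β := by
  have key : ∀ i j : Fin 3, (Rm (x * p) i 0 * Rm (x * p) j 0 = Rm x i 0 * Rm x j 0) ∧
      (Rm (x * p) i 2 * Rm (x * p) j 2 = Rm x i 2 * Rm x j 2) := by
    intro i j
    rw [Rm_mul]
    simp only [Matrix.mul_apply, Fin.sum_univ_three]
    unfold Rm
    rcases hp with ⟨k1, k2, k3, k4⟩ | ⟨k1, k2, k3, k4⟩ | ⟨k1, k2, k3, k4⟩ | ⟨k1, k2, k3, k4⟩ <;>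
      simp [k1, k2, k3, k4]
  ext i j
  rw [Bm_apply, Bm_apply, (key i j).1, (key i j).2]

/-- The rigidity lemma, scalar form. -/
lemma rigid_aux {x0 x1 x2 y0 y2 z0 z1 z2 n c m α β a b : ℝ} (hn : 0 < n) (hc : 0 < c)
    (hα : 0 ≤ α) (hβ : 0 ≤ β) (ha : 0 ≤ a) (hb : 0 ≤ b)
    (r00 : x0 * x0 + y0 * y0 + z0 * z0 = n) (r22 : x2 * x2 + y2 * y2 + z2 * z2 = n)
    (c00 : x0 * x0 + x1 * x1 + x2 * x2 = n) (c22 : z0 * z0 + z1 * z1 + z2 * z2 = n)
    (c02 : x0 * z0 + x1 * z1 + x2 * z2 = 0)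
    (h00 : α = c * (a * (x0 * x0) - b * (z0 * z0)) + m)
    (h11 : 0 = c * (a * (x1 * x1) - b * (z1 * z1)) + m)
    (h22 : -β = c * (a * (x2 * x2) - b * (z2 * z2)) + m)
    (g01 : a * (x0 * x1) - b * (z0 * z1) = 0)
    (g02 : a * (x0 * x2) - b * (z0 * z2) = 0)
    (g12 : a * (x1 * x2) - b * (z1 * z2) = 0) :
    m = 0 ∧ α = c * n * a ∧ β = c * n * b ∧
      (0 < α → 0 < β → y0 = 0 ∧ z0 = 0 ∧ x1 = 0 ∧ z1 = 0 ∧ x2 = 0 ∧ y2 = 0) := by
  have rev0 : α * x0 ^ 2 - β * x2 ^ 2 = c * n ^ 2 * a + m * n := by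
    have e : α * x0 ^ 2 - β * x2 ^ 2 = c * a * (x0 * x0 + x1 * x1 + x2 * x2) ^ 2
        - c * b * (x0 * z0 + x1 * z1 + x2 * z2) ^ 2 + m * (x0 * x0 + x1 * x1 + x2 * x2) := by
      linear_combination x0 ^ 2 * h00 + x2 ^ 2 * h22 + x1 ^ 2 * h11 - 2 * c * x0 * x1 * g01
        - 2 * c * x0 * x2 * g02 - 2 * c * x1 * x2 * g12
    rw [e, c00, c02]; ring
  have rev2 : α * z0 ^ 2 - β * z2 ^ 2 = -(c * n ^ 2 * b) + m * n := by
    have e : α * z0 ^ 2 - β * z2 ^ 2 = c * a * (x0 * z0 + x1 * z1 + x2 * z2) ^ 2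
        - c * b * (z0 * z0 + z1 * z1 + z2 * z2) ^ 2 + m * (z0 * z0 + z1 * z1 + z2 * z2) := by
      linear_combination z0 ^ 2 * h00 + z2 ^ 2 * h22 + z1 ^ 2 * h11 - 2 * c * z0 * z1 * g01
        - 2 * c * z0 * z2 * g02 - 2 * c * z1 * z2 * g12
    rw [e, c22, c02]; ring
  have bx0 : x0 ^ 2 ≤ n := by nlinarith [mul_self_nonneg y0, mul_self_nonneg z0]
  have bz2 : z2 ^ 2 ≤ n := by nlinarith [mul_self_nonneg y2, mul_self_nonneg x2]
  -- first equality
  have u1 : α - m ≤ c * n * a := by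
    have : α - m = c * (a * x0 ^ 2 - b * z0 ^ 2) := by linear_combination h00
    rw [this]
    have h1 : a * x0 ^ 2 - b * z0 ^ 2 ≤ n * a := by
      have := mul_le_mul_of_nonneg_left bx0 ha
      have := mul_nonneg hb (sq_nonneg z0)
      linarith
    calc c * (a * x0 ^ 2 - b * z0 ^ 2) ≤ c * (n * a) := mul_le_mul_of_nonneg_left h1 hc.le
      _ = c * n * a := by ring
  have u2 : c * n * a ≤ α - m := by
    have h1 : n * (c * n * a + m) ≤ n * α := by
      have e1 : n * (c * n * a + m) = α * x0 ^ 2 - β * x2 ^ 2 := by rw [rev0]; ring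
      rw [e1]
      have := mul_le_mul_of_nonneg_left bx0 hα
      have := mul_nonneg hβ (sq_nonneg x2)
      linarith
    have := le_of_mul_le_mul_left h1 hn
    linarith
  have u3 : β + m ≤ c * n * b := by
    have : β + m = c * (b * z2 ^ 2 - a * x2 ^ 2) := by linear_combination -h22
    rw [this]
    have h1 : b * z2 ^ 2 - a * x2 ^ 2 ≤ n * b := by
      have := mul_le_mul_of_nonneg_left bz2 hb
      have := mul_nonneg ha (sq_nonneg x2)
      linarith
    calc c * (b * z2 ^ 2 - a * x2 ^ 2) ≤ c * (n * b) := mul_le_mul_of_nonneg_left h1 hc.le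
      _ = c * n * b := by ring
  have u4 : c * n * b ≤ β + m := by
    have h1 : n * (c * n * b - m) ≤ n * β := by
      have e1 : n * (c * n * b - m) = -(α * z0 ^ 2 - β * z2 ^ 2) := by rw [rev2]; ring
      rw [e1]
      have := mul_le_mul_of_nonneg_left bz2 hβ
      have := mul_nonneg hα (sq_nonneg z0)
      linarith
    have := le_of_mul_le_mul_left h1 hn
    linarith
  have tr : α - β = c * n * (a - b) + 3 * m := by
    have : α - β = c * (a * (x0 * x0 + x1 * x1 + x2 * x2) - b * (z0 * z0 + z1 * z1 + z2 * z2))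
        + 3 * m := by
      linear_combination h00 + h11 + h22
    rw [this, c00, c22]; ring
  have e1 : α - m = c * n * a := le_antisymm u1 u2
  have e2 : β + m = c * n * b := le_antisymm u3 u4
  have hm : m = 0 := by linarith
  subst hm
  refine ⟨rfl, by linarith, by linarith, fun hαp hβp => ?_⟩
  have hap : 0 < a := by
    rcases ha.lt_or_eq with h | h
    · exact h
    · rw [← h, mul_zero] at e1; linarith
  have hbp : 0 < b := by
    rcases hb.lt_or_eq with h | h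
    · exact h
    · rw [← h, mul_zero] at e2; linarith
  have f1 : a * (n - x0 ^ 2) + b * z0 ^ 2 = 0 := by
    have : c * (a * (n - x0 ^ 2) + b * z0 ^ 2) = 0 := by linear_combination -e1 + h00
    exact (mul_eq_zero.1 this).resolve_left hc.ne'
  have f2 : b * (n - z2 ^ 2) + a * x2 ^ 2 = 0 := by
    have : c * (b * (n - z2 ^ 2) + a * x2 ^ 2) = 0 := by linear_combination -e2 - h22
    exact (mul_eq_zero.1 this).resolve_left hc.ne'
  have p1 : 0 ≤ a * (n - x0 ^ 2) := mul_nonneg ha (by linarith)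
  have p2 : 0 ≤ b * z0 ^ 2 := mul_nonneg hb (sq_nonneg _)
  have p3 : 0 ≤ b * (n - z2 ^ 2) := mul_nonneg hb (by linarith)
  have p4 : 0 ≤ a * x2 ^ 2 := mul_nonneg ha (sq_nonneg _)
  have k1 : n - x0 ^ 2 = 0 := (mul_eq_zero.1 (by linarith : a * (n - x0 ^ 2) = 0)).resolve_left
    hap.ne'
  have k2 : z0 = 0 := pow_eq_zero_iff (two_ne_zero) |>.1
    ((mul_eq_zero.1 (by linarith : b * z0 ^ 2 = 0)).resolve_left hbp.ne')
  have k3 : n - z2 ^ 2 = 0 := (mul_eq_zero.1 (by linarith : b * (n - z2 ^ 2) = 0)).resolve_left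
    hbp.ne'
  have k4 : x2 = 0 := pow_eq_zero_iff (two_ne_zero) |>.1
    ((mul_eq_zero.1 (by linarith : a * x2 ^ 2 = 0)).resolve_left hap.ne')
  have k5 : y0 = 0 := mul_self_eq_zero.1 (by nlinarith [mul_self_nonneg y0, mul_self_nonneg z0])
  have k6 : y2 = 0 := mul_self_eq_zero.1 (by nlinarith [mul_self_nonneg y2, mul_self_nonneg x2])
  have k7 : x1 = 0 := mul_self_eq_zero.1 (by nlinarith [mul_self_nonneg x1, mul_self_nonneg x2])
  have k8 : z1 = 0 := mul_self_eq_zero.1 (by nlinarith [mul_self_nonneg z1, mul_self_nonneg z0])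
  exact ⟨k5, k2, k7, k8, k4, k6⟩

/-- The rigidity lemma. -/
lemma rigid (O : Fin 3 → Fin 3 → ℝ) (n c m α β a b : ℝ) (hn : 0 < n) (hc : 0 < c)
    (hα : 0 ≤ α) (hβ : 0 ≤ β) (ha : 0 ≤ a) (hb : 0 ≤ b)
    (row : ∀ i j, O i 0 * O j 0 + O i 1 * O j 1 + O i 2 * O j 2 = if i = j then n else 0)
    (col : ∀ i j, O 0 i * O 0 j + O 1 i * O 1 j + O 2 i * O 2 j = if i = j then n else 0)
    (h : ∀ i j, Dg α β i j = c * (a * (O i 0 * O j 0) - b * (O i 2 * O j 2)) +
      if i = j then m else 0) :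
    m = 0 ∧ α = c * n * a ∧ β = c * n * b ∧
      (0 < α → 0 < β → ∀ i j, i ≠ j → O i j = 0) := by
  have r00 := row 0 0
  have r22 := row 2 2
  have c00 := col 0 0
  have c22 := col 2 2
  have c02 := col 0 2
  rw [if_pos rfl] at r00 r22 c00 c22
  rw [if_neg (by decide)] at c02
  have h00 := h 0 0
  have h11 := h 1 1
  have h22 := h 2 2
  have h01 := h 0 1
  have h02 := h 0 2
  have h12 := h 1 2
  rw [if_pos rfl] at h00 h11 h22
  rw [if_neg (by decide), add_zero] at h01 h02 h12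
  have d00 : Dg α β 0 0 = α := by simp [Dg]
  have d11 : Dg α β 1 1 = 0 := by simp [Dg]
  have d22 : Dg α β 2 2 = -β := by simp [Dg]
  have d01 : Dg α β 0 1 = 0 := by simp [Dg]
  have d02 : Dg α β 0 2 = 0 := by simp [Dg]
  have d12 : Dg α β 1 2 = 0 := by simp [Dg]
  rw [d00] at h00
  rw [d11] at h11
  rw [d22] at h22
  rw [d01] at h01
  rw [d02] at h02
  rw [d12] at h12
  have g01 := (mul_eq_zero.1 h01.symm).resolve_left hc.ne'
  have g02 := (mul_eq_zero.1 h02.symm).resolve_left hc.ne'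
  have g12 := (mul_eq_zero.1 h12.symm).resolve_left hc.ne'
  obtain ⟨m0, e1, e2, key⟩ := rigid_aux hn hc hα hβ ha hb r00 r22 c00 c22 c02 h00 h11 h22
    g01 g02 g12
  refine ⟨m0, e1, e2, fun hαp hβp => ?_⟩
  obtain ⟨k5, k2, k7, k8, k4, k6⟩ := key hαp hβp
  intro i j hij
  fin_cases i <;> fin_cases j <;> first | exact absurd rfl hij | assumption

/-- A unit quaternion with diagonal rotation matrix belongs to the quaternion group. -/
lemma isQ_of_diagonal {p : ℍ[ℝ]} (hp : Quaternion.normSq p = 1)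
    (h : ∀ i j : Fin 3, i ≠ j → Rm p i j = 0) : IsQ p := by
  have h01 := h 0 1 (by decide)
  have h10 := h 1 0 (by decide)
  have h02 := h 0 2 (by decide)
  have h20 := h 2 0 (by decide)
  have h12 := h 1 2 (by decide)
  have h21 := h 2 1 (by decide)
  unfold Rm at h01 h10 h02 h20 h12 h21
  simp at h01 h10 h02 h20 h12 h21
  rw [Quaternion.normSq_def'] at hp
  have a1 : p.imI * p.imJ = 0 := by linarith
  have a2 : p.re * p.imK = 0 := by linarith
  have a3 : p.imI * p.imK = 0 := by linarith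
  have a4 : p.re * p.imJ = 0 := by linarith
  have a5 : p.imJ * p.imK = 0 := by linarith
  have a6 : p.re * p.imI = 0 := by linarith
  by_cases hr : p.re = 0
  · by_cases hi : p.imI = 0
    · by_cases hj : p.imJ = 0
      · right; right; right
        rw [hr, hi, hj] at hp
        exact ⟨hr, hi, hj, by linarith⟩
      · have hk : p.imK = 0 := (mul_eq_zero.1 a5).resolve_left hj
        right; right; left
        rw [hr, hi, hk] at hp
        exact ⟨hr, hi, by linarith, hk⟩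
    · have hj : p.imJ = 0 := (mul_eq_zero.1 a1).resolve_left hi
      have hk : p.imK = 0 := (mul_eq_zero.1 a3).resolve_left hi
      right; left
      rw [hr, hj, hk] at hp
      exact ⟨hr, by linarith, hj, hk⟩
  · have hi : p.imI = 0 := (mul_eq_zero.1 a6).resolve_left hr
    have hj : p.imJ = 0 := (mul_eq_zero.1 a4).resolve_left hr
    have hk : p.imK = 0 := (mul_eq_zero.1 a2).resolve_left hr
    left
    rw [hi, hj, hk] at hp
    exact ⟨by linarith, hi, hj, hk⟩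

/-- Two matrices `Bm` on the same ray modulo scalars. -/
theorem Bm_eq_imp {x y : ℍ[ℝ]} (hx : x ≠ 0) (hy : y ≠ 0) {α β a b c m : ℝ} (hα : 0 ≤ α)
    (hβ : 0 ≤ β) (ha : 0 ≤ a) (hb : 0 ≤ b) (hc : 0 < c)
    (h : Bm x α β = c • Bm y a b + m • (1 : M3)) :
    m = 0 ∧ Quaternion.normSq x ^ 2 * α = c * Quaternion.normSq y ^ 2 * a ∧
      Quaternion.normSq x ^ 2 * β = c * Quaternion.normSq y ^ 2 * b ∧
      (0 < α → 0 < β → ∀ i j, i ≠ j → Rm (x⁻¹ * y) i j = 0) := by
  have hnx : 0 < Quaternion.normSq x := by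
    rcases (Quaternion.normSq_nonneg (a := x)).lt_or_eq with h | h
    · exact h
    · exact absurd (Quaternion.normSq_eq_zero.1 h.symm) hx
  have hny : 0 < Quaternion.normSq y := by
    rcases (Quaternion.normSq_nonneg (a := y)).lt_or_eq with h | h
    · exact h
    · exact absurd (Quaternion.normSq_eq_zero.1 h.symm) hy
  set p := x⁻¹ * y with hp
  have hxy : y = x * p := by rw [hp, ← mul_assoc, mul_inv_cancel₀ hx, one_mul]
  have hnp : Quaternion.normSq y = Quaternion.normSq x * Quaternion.normSq p := by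
    rw [hxy, map_mul]
  set nx := Quaternion.normSq x with hnxd
  set np := Quaternion.normSq p with hnpd
  have hnpp : 0 < np := by
    by_contra hcon
    push Not at hcon
    have : nx * np ≤ 0 := mul_nonpos_of_nonneg_of_nonpos hnx.le hcon
    linarith
  -- conjugate by `Rm x`
  have h1 : (Rm x)ᵀ * Bm x α β * Rm x = (nx ^ 4) • Dg α β := by
    unfold Bm
    calc (Rm x)ᵀ * (Rm x * Dg α β * (Rm x)ᵀ) * Rm x
        = ((Rm x)ᵀ * Rm x) * Dg α β * ((Rm x)ᵀ * Rm x) := by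
          simp only [Matrix.mul_assoc]
      _ = (nx ^ 4) • Dg α β := by
          rw [Rm_transpose_mul, smul_mul_assoc, Matrix.one_mul, mul_smul_comm, Matrix.mul_one,
            smul_smul]
          congr 1; ring
  have h2 : (Rm x)ᵀ * Bm y a b * Rm x = (nx ^ 4) • Bm p a b := by
    have : Rm y = Rm x * Rm p := by rw [hxy, Rm_mul]
    unfold Bm
    rw [this, Matrix.transpose_mul]
    calc (Rm x)ᵀ * (Rm x * Rm p * Dg a b * ((Rm p)ᵀ * (Rm x)ᵀ)) * Rm x
        = ((Rm x)ᵀ * Rm x) * (Rm p * Dg a b * (Rm p)ᵀ) * ((Rm x)ᵀ * Rm x) := by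
          simp only [Matrix.mul_assoc]
      _ = (nx ^ 4) • (Rm p * Dg a b * (Rm p)ᵀ) := by
          rw [Rm_transpose_mul, smul_mul_assoc, Matrix.one_mul, mul_smul_comm, Matrix.mul_one,
            smul_smul]
          congr 1; ring
  have h3 : (nx ^ 4) • Dg α β = c • ((nx ^ 4) • Bm p a b) + (m * nx ^ 2) • (1 : M3) := by
    rw [← h1, h, Matrix.mul_add, Matrix.add_mul, mul_smul_comm, smul_mul_assoc, h2,
      mul_smul_comm, Matrix.mul_one, smul_mul_assoc, Rm_transpose_mul, smul_smul m]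
  have h4 : ∀ i j, Dg α β i j = c * (a * (Rm p i 0 * Rm p j 0) - b * (Rm p i 2 * Rm p j 2)) +
      if i = j then m / nx ^ 2 else 0 := by
    intro i j
    have := congrFun (congrFun h3 i) j
    rw [Matrix.add_apply, Matrix.smul_apply, Matrix.smul_apply, Matrix.smul_apply,
      Matrix.smul_apply, Bm_apply, Matrix.one_apply] at this
    simp only [smul_eq_mul] at this
    split_ifs at this ⊢ with hij
    · field_simp
      apply mul_left_cancel₀ (show nx ^ 2 ≠ 0 by positivity)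
      linear_combination this
    · apply mul_left_cancel₀ (show nx ^ 4 ≠ 0 by positivity)
      linear_combination this
  obtain ⟨k1, k2, k3, k4⟩ := rigid (fun i j => Rm p i j) (np ^ 2) c (m / nx ^ 2) α β a b
    (by positivity) hc hα hβ ha hb (fun i j => Rm_row p i j) (fun i j => Rm_col p i j) h4
  refine ⟨?_, ?_, ?_, k4⟩
  · have := (div_eq_zero_iff.1 k1).resolve_right (by positivity)
    exact this
  · rw [k2, hnp]; ring
  · rw [k3, hnp]; ring

end Pool.Agent.H78.Orb
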