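import Mathlib
import Pool.Agent.H78.Orb.Defs
import Pool.Agent.H78.Orb.Group
import Pool.Agent.H78.Orb.Sym
import Pool.Agent.H78.Orb.Rot

/-!
The map `Fm` from the punctured `ℝ⁴` to `ℝ⁴`: it is constant on the orbits of the quaternion
group, separates them, and is a local diffeomorphism.
-/

open Set Metric Topology Matrix
open scoped Manifold ContDiff Quaternion

noncomputable section

namespace Pool.Agent.H78.Orb

/-- The square of the norm of a vector of `ℝ⁴`, as a quaternion. -/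
def nq (x : E4) : ℝ := Quaternion.normSq (Th.symm x)

/-- The symmetric matrix attached to a vector of `ℝ⁴`. -/
def Bx (x : E4) : M3 := Bm (Th.symm x) 1 (nq x)

/-- The map from `ℝ⁴` minus the origin to `ℝ⁴`. -/
def Fm (x : E4) : F4 := sig (Bx x)

lemma Ths_ne_zero {x : E4} (hx : x ≠ 0) : Th.symm x ≠ 0 := by
  intro h
  exact hx ((LinearIsometryEquiv.map_eq_zero_iff Th.symm).1 h)

lemma normSq_pos {x : ℍ[ℝ]} (hx : x ≠ 0) : 0 < Quaternion.normSq x := by
  rcases (Quaternion.normSq_nonneg (a := x)).lt_or_eq with h | h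
  · exact h
  · exact absurd (Quaternion.normSq_eq_zero.1 h.symm) hx

lemma nq_pos {x : E4} (hx : x ≠ 0) : 0 < nq x := normSq_pos (Ths_ne_zero hx)

/-- The denominator is positive. -/
lemma dn_Bm_pos {x : ℍ[ℝ]} (hx : x ≠ 0) {α β : ℝ} (hα : 0 < α) (hβ : 0 ≤ β) :
    0 < dn (Bm x α β) := by
  have hn := normSq_pos hx
  set n := Quaternion.normSq x with hnd
  unfold dn
  rw [norm_Bm, ← hnd]
  have hw : wv (Bm x α β) = n ^ 2 * (α - β) / 3 - (α * (Rm x 2 0) ^ 2 - β * (Rm x 2 2) ^ 2) := by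
    unfold wv
    simp only [Bm_apply]
    have h1 := Rm_col x 0 0
    have h3 := Rm_col x 2 2
    rw [if_pos rfl] at h1 h3
    linear_combination (α / 3) * h1 - (β / 3) * h3
  have hr := Rm_row x 2 2
  rw [if_pos rfl, ← hnd] at hr
  have hle : (Rm x 2 2) ^ 2 ≤ n ^ 2 := by
    nlinarith [mul_self_nonneg (Rm x 2 0), mul_self_nonneg (Rm x 2 1)]
  have h1 : (3 / 2) * wv (Bm x α β) ≤ n ^ 2 * (α + 2 * β) / 2 := by
    rw [hw]
    have h2 : β * (Rm x 2 2) ^ 2 ≤ β * n ^ 2 := mul_le_mul_of_nonneg_left hle hβ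
    have h3 : 0 ≤ α * (Rm x 2 0) ^ 2 := mul_nonneg hα.le (sq_nonneg _)
    linarith
  have h2 : n ^ 2 * (α + 2 * β) / 2 < √(n ^ 4 * (α ^ 2 + α * β + β ^ 2)) := by
    apply Real.lt_sqrt_of_sq_lt
    have h3 : (n ^ 2 * (α + 2 * β) / 2) ^ 2 = n ^ 4 * ((α + 2 * β) ^ 2 / 4) := by ring
    rw [h3]
    apply mul_lt_mul_of_pos_left _ (by positivity)
    nlinarith [mul_pos hα hα]
  linarith

lemma dn_Bx_pos {x : E4} (hx : x ≠ 0) : 0 < dn (Bx x) :=
  dn_Bm_pos (Ths_ne_zero hx) one_pos (nq_pos hx).le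

lemma Bx_rel {x : E4} (hx : x ≠ 0) : (12 : ℝ) • tl (Bx x) = dn (Bx x) • Ah (Fm x) :=
  tl_eq _ (Bm_symm _ _ _) (dn_Bx_pos hx).ne'

/-- Two matrices with proportional traceless parts. -/
lemma eq_of_tl {A B : M3} {c : ℝ} (h : tl A = c • tl B) :
    A = c • B + ((A 0 0 + A 1 1 + A 2 2) / 3 - c * ((B 0 0 + B 1 1 + B 2 2) / 3)) • (1 : M3) := by
  have h1 := eq_tl_add A
  have h2 : tl B = B - ((B 0 0 + B 1 1 + B 2 2) / 3) • (1 : M3) := rfl
  rw [h, h2] at h1
  conv_lhs => rw [h1]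
  rw [smul_sub, smul_smul, sub_smul]
  abel

/-- The map separates the orbits of the quaternion group, and is constant on them. -/
theorem Fm_eq_iff {x y : E4} (hx : x ≠ 0) (hy : y ≠ 0) :
    Fm x = Fm y ↔ ∃ γ ∈ Q8, γ x = y := by
  rw [exists_mem_Q8_iff]
  constructor
  · intro h
    have h1 := Bx_rel hx
    have h2 := Bx_rel hy
    rw [← h] at h2
    have hdx := dn_Bx_pos hx
    have hdy := dn_Bx_pos hy
    have h3 : tl (Bx x) = (dn (Bx x) / dn (Bx y)) • tl (Bx y) := by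
      have h4 : tl (Bx x) = (dn (Bx x) / 12) • Ah (Fm x) := by
        rw [div_eq_inv_mul, mul_smul, ← h1, smul_smul]; norm_num
      have h5 : tl (Bx y) = (dn (Bx y) / 12) • Ah (Fm x) := by
        rw [div_eq_inv_mul, mul_smul, ← h2, smul_smul]; norm_num
      rw [h4, h5, smul_smul]
      congr 1
      field_simp
    have h4 := eq_of_tl h3
    have hxn := nq_pos hx
    have hyn := nq_pos hy
    obtain ⟨-, k1, k2, k3⟩ := Bm_eq_imp (Ths_ne_zero hx) (Ths_ne_zero hy) zero_le_one hxn.le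
      zero_le_one hyn.le (div_pos hdx hdy) h4
    have k3' := k3 one_pos hxn
    change nq x ^ 2 * 1 = dn (Bx x) / dn (Bx y) * nq y ^ 2 * 1 at k1
    change nq x ^ 2 * nq x = dn (Bx x) / dn (Bx y) * nq y ^ 2 * nq y at k2
    have hn : nq x = nq y := by
      have h5 : nq x ^ 2 * nq x = nq x ^ 2 * nq y := by
        rw [k2]; linear_combination (-nq y) * k1
      exact mul_left_cancel₀ (by positivity) h5
    refine ⟨(Th.symm x)⁻¹ * Th.symm y, isQ_of_diagonal ?_ k3', ?_⟩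
    · rw [map_mul, map_inv₀]
      change (nq x)⁻¹ * nq y = 1
      rw [← hn]
      exact inv_mul_cancel₀ hxn.ne'
    · rw [← mul_assoc, mul_inv_cancel₀ (Ths_ne_zero hx), one_mul]
  · rintro ⟨p, hp, h⟩
    unfold Fm Bx nq
    rw [h, Bm_mul_isQ _ hp, map_mul, hp.normSq, mul_one]

/-! ### Smoothness -/

lemma contDiff_re : ContDiff ℝ ∞ (fun x : E4 => (Th.symm x).re) := by
  have h : (fun x : E4 => (Th.symm x).re) = prj 0 := by
    funext x
    rw [prj_apply]
    rfl
  rw [h]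
  exact (prj 0).contDiff

lemma contDiff_imI : ContDiff ℝ ∞ (fun x : E4 => (Th.symm x).imI) := by
  have h : (fun x : E4 => (Th.symm x).imI) = prj 1 := by
    funext x
    rw [prj_apply]
    rfl
  rw [h]
  exact (prj 1).contDiff

lemma contDiff_imJ : ContDiff ℝ ∞ (fun x : E4 => (Th.symm x).imJ) := by
  have h : (fun x : E4 => (Th.symm x).imJ) = prj 2 := by
    funext x
    rw [prj_apply]
    rfl
  rw [h]
  exact (prj 2).contDiff

lemma contDiff_imK : ContDiff ℝ ∞ (fun x : E4 => (Th.symm x).imK) := by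
  have h : (fun x : E4 => (Th.symm x).imK) = prj 3 := by
    funext x
    rw [prj_apply]
    rfl
  rw [h]
  exact (prj 3).contDiff

lemma contDiff_Rm (i j : Fin 3) : ContDiff ℝ ∞ (fun x : E4 => Rm (Th.symm x) i j) := by
  have h1 := contDiff_re
  have h2 := contDiff_imI
  have h3 := contDiff_imJ
  have h4 := contDiff_imK
  fin_cases i <;> fin_cases j <;> simp only [Rm, Fin.mk_zero, Fin.mk_one, Fin.isValue,
      Fin.reduceFinMk, Matrix.of_apply, Matrix.cons_val',
      Matrix.cons_val_zero, Matrix.cons_val_one, Matrix.cons_val, Matrix.cons_val_fin_one] <;>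
    fun_prop

lemma contDiff_nq : ContDiff ℝ ∞ nq := by
  have h1 := contDiff_re
  have h2 := contDiff_imI
  have h3 := contDiff_imJ
  have h4 := contDiff_imK
  unfold nq
  simp only [Quaternion.normSq_def']
  fun_prop

lemma contDiff_Bx (i j : Fin 3) : ContDiff ℝ ∞ (fun x : E4 => Bx x i j) := by
  unfold Bx
  simp only [Bm_apply]
  have h1 := contDiff_Rm i 0
  have h2 := contDiff_Rm j 0
  have h3 := contDiff_Rm i 2
  have h4 := contDiff_Rm j 2
  have h5 := contDiff_nq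
  fun_prop

lemma contDiffAt_dn {x : E4} (hx : x ≠ 0) : ContDiffAt ℝ ∞ (fun x => dn (Bx x)) x := by
  have hb : ∀ i j, ContDiffAt ℝ ∞ (fun x : E4 => Bx x i j) x := fun i j =>
    (contDiff_Bx i j).contDiffAt
  have hw : ContDiffAt ℝ ∞ (fun x : E4 => wv (Bx x)) x := by
    unfold wv
    exact ((((hb 0 0).add (hb 1 1)).add (hb 2 2)).div_const 3).sub (hb 2 2)
  have hr : ContDiffAt ℝ ∞ (fun x : E4 => nq x ^ 4 * (1 ^ 2 + 1 * nq x + nq x ^ 2)) x := by
    have h5 := contDiff_nq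
    fun_prop
  have hpos : nq x ^ 4 * (1 ^ 2 + 1 * nq x + nq x ^ 2) ≠ 0 := by
    have := nq_pos hx
    positivity
  have hs := hr.sqrt hpos
  have heq : (fun x : E4 => dn (Bx x)) =
      fun x => √(nq x ^ 4 * (1 ^ 2 + 1 * nq x + nq x ^ 2)) - (3 / 2) * wv (Bx x) := by
    funext y
    unfold dn
    unfold Bx
    rw [norm_Bm]
    rfl
  rw [heq]
  exact hs.sub (contDiffAt_const.mul hw)

lemma contDiffAt_Fm {x : E4} (hx : x ≠ 0) : ContDiffAt ℝ ∞ Fm x := by
  have hb : ∀ i j, ContDiffAt ℝ ∞ (fun x : E4 => Bx x i j) x := fun i j =>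
    (contDiff_Bx i j).contDiffAt
  have hP : ContDiffAt ℝ ∞ (fun x : E4 => Pv (Bx x)) x := by
    rw [contDiffAt_piLp]
    intro i
    fin_cases i
    · exact (hb 0 0).sub (hb 1 1)
    · exact contDiffAt_const.mul (hb 0 1)
    · exact contDiffAt_const.mul (hb 0 2)
    · exact contDiffAt_const.mul (hb 1 2)
  exact ((contDiffAt_dn hx).inv (dn_Bx_pos hx).ne').smul hP

end Pool.Agent.H78.Orb
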