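import Mathlib
import Pool.Agent.H78.Orb.Defs
import Pool.Agent.H78.Orb.Group
import Pool.Agent.H78.Orb.Sym
import Pool.Agent.H78.Orb.Rot
import Pool.Agent.H78.Orb.Fmap

/-!
The derivative of the map `Fm` is injective, hence it is a local diffeomorphism away from `0`.
-/

open Set Metric Topology Matrix Filter
open scoped Manifold ContDiff Quaternion

noncomputable section

namespace Pool.Agent.H78.Orb

/-- Quadratic polynomials in one variable. -/
lemma hasDerivAt_quad {f : ℝ → ℝ} {a b c : ℝ} (h : ∀ t, f t = a + b * t + c * t ^ 2) :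
    HasDerivAt f b 0 := by
  have h1 : HasDerivAt (fun t : ℝ => a + b * t + c * t ^ 2) (0 + b * 1 + c * (2 * 0 ^ 1 * 1)) 0 := by
    exact (((hasDerivAt_const (0 : ℝ) a).add ((hasDerivAt_id (0 : ℝ)).const_mul b))).add
      (((hasDerivAt_id (0 : ℝ)).pow 2).const_mul c)
  have h2 : f = fun t : ℝ => a + b * t + c * t ^ 2 := funext h
  rw [h2]
  simpa using h1

/-- The entries of the matrix `Bm (1 + t m) 1 (s |1 + t m|²)`. -/
def Kf (m : ℍ[ℝ]) (s : ℝ) (t : ℝ) : M3 :=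
  Bm (1 + t • m) 1 (s * Quaternion.normSq (1 + t • m))

lemma Kf_apply (m : ℍ[ℝ]) (s t : ℝ) (i j : Fin 3) :
    Kf m s t i j = 1 * (Rm (1 + t • m) i 0 * Rm (1 + t • m) j 0)
      - s * Quaternion.normSq (1 + t • m) * (Rm (1 + t • m) i 2 * Rm (1 + t • m) j 2) := by
  unfold Kf
  rw [Bm_apply]

lemma hasDerivAt_normSq (m : ℍ[ℝ]) :
    HasDerivAt (fun t : ℝ => Quaternion.normSq (1 + t • m)) (2 * m.re) 0 := by
  apply hasDerivAt_quad (a := 1) (c := m.re ^ 2 + m.imI ^ 2 + m.imJ ^ 2 + m.imK ^ 2)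
  intro t
  rw [Quaternion.normSq_def']
  simp
  ring

lemma hasDerivAt_R00 (m : ℍ[ℝ]) :
    HasDerivAt (fun t : ℝ => Rm (1 + t • m) 0 0) (2 * m.re) 0 := by
  apply hasDerivAt_quad (a := 1) (c := m.re ^ 2 + m.imI ^ 2 - m.imJ ^ 2 - m.imK ^ 2)
  intro t
  simp [Rm]
  ring

lemma hasDerivAt_R10 (m : ℍ[ℝ]) :
    HasDerivAt (fun t : ℝ => Rm (1 + t • m) 1 0) (2 * m.imK) 0 := by
  apply hasDerivAt_quad (a := 0) (c := 2 * (m.imI * m.imJ + m.re * m.imK))
  intro t
  simp [Rm]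
  ring

lemma hasDerivAt_R20 (m : ℍ[ℝ]) :
    HasDerivAt (fun t : ℝ => Rm (1 + t • m) 2 0) (-2 * m.imJ) 0 := by
  apply hasDerivAt_quad (a := 0) (c := 2 * (m.imI * m.imK - m.re * m.imJ))
  intro t
  simp [Rm]
  ring

lemma hasDerivAt_R02 (m : ℍ[ℝ]) :
    HasDerivAt (fun t : ℝ => Rm (1 + t • m) 0 2) (2 * m.imJ) 0 := by
  apply hasDerivAt_quad (a := 0) (c := 2 * (m.imI * m.imK + m.re * m.imJ))
  intro t
  simp [Rm]
  ring

lemma hasDerivAt_R12 (m : ℍ[ℝ]) :
    HasDerivAt (fun t : ℝ => Rm (1 + t • m) 1 2) (-2 * m.imI) 0 := by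
  apply hasDerivAt_quad (a := 0) (c := 2 * (m.imJ * m.imK - m.re * m.imI))
  intro t
  simp [Rm]
  ring

lemma hasDerivAt_R22 (m : ℍ[ℝ]) :
    HasDerivAt (fun t : ℝ => Rm (1 + t • m) 2 2) (2 * m.re) 0 := by
  apply hasDerivAt_quad (a := 1) (c := m.re ^ 2 - m.imI ^ 2 - m.imJ ^ 2 + m.imK ^ 2)
  intro t
  simp [Rm]
  ring

lemma Rm_one_apply (m : ℍ[ℝ]) (i j : Fin 3) :
    Rm (1 + (0 : ℝ) • m) i j = if i = j then 1 else 0 := by
  rw [zero_smul, add_zero]
  fin_cases i <;> fin_cases j <;> simp [Rm]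

lemma hasDerivAt_Kf {m : ℍ[ℝ]} {s : ℝ} {i j : Fin 3} {ai aj bi bj : ℝ}
    (h1 : HasDerivAt (fun t : ℝ => Rm (1 + t • m) i 0) ai 0)
    (h2 : HasDerivAt (fun t : ℝ => Rm (1 + t • m) j 0) aj 0)
    (h3 : HasDerivAt (fun t : ℝ => Rm (1 + t • m) i 2) bi 0)
    (h4 : HasDerivAt (fun t : ℝ => Rm (1 + t • m) j 2) bj 0) :
    HasDerivAt (fun t : ℝ => Kf m s t i j)
      (ai * (if j = 0 then 1 else 0) + (if i = 0 then 1 else 0) * aj
        - (s * (2 * m.re) * ((if i = 2 then 1 else 0) * (if j = 2 then 1 else 0)) +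
          s * (bi * (if j = 2 then 1 else 0) + (if i = 2 then 1 else 0) * bj))) 0 := by
  have h5 := hasDerivAt_normSq m
  have h6 := ((h1.mul h2).const_mul 1).sub (((h5.const_mul s).mul (h3.mul h4)))
  have h7 : (fun t : ℝ => Kf m s t i j) = _ := funext fun t => Kf_apply m s t i j
  rw [h7]
  refine h6.congr_deriv ?_
  have e1 : ∀ i j : Fin 3, Rm (1 + (0 : ℝ) • m) i j = if i = j then 1 else 0 := fun i j =>
    Rm_one_apply m i j
  have e2 : Quaternion.normSq (1 + (0 : ℝ) • m) = 1 := by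
    rw [zero_smul, add_zero, map_one]
  simp only [Pi.mul_apply, e1, e2, one_mul, mul_one]

/-- The curve `x + t v`, multiplicatively. -/
lemma Bx_curve {x : E4} (hx : x ≠ 0) (v : E4) (t : ℝ) :
    Bx (x + t • v) = Rm (Th.symm x) *
      Kf ((Th.symm x)⁻¹ * Th.symm v) (nq x) t * (Rm (Th.symm x))ᵀ := by
  have h1 : Th.symm (x + t • v) = Th.symm x * (1 + t • ((Th.symm x)⁻¹ * Th.symm v)) := by
    rw [map_add, map_smul, mul_add, mul_one, mul_smul_comm, ← mul_assoc,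
      mul_inv_cancel₀ (Ths_ne_zero hx), one_mul]
  have h2 : nq (x + t • v) = nq x * Quaternion.normSq (1 + t • ((Th.symm x)⁻¹ * Th.symm v)) := by
    unfold nq
    rw [h1, map_mul]
  unfold Bx Kf
  rw [h2, h1]
  unfold Bm
  rw [Rm_mul, Matrix.transpose_mul]
  simp only [Matrix.mul_assoc]

/-- Differentiating a proportionality relation. -/
lemma deriv_rel {k a d : ℝ → ℝ} {k' d' N : ℝ} (hN : N ≠ 0) (hk : HasDerivAt k k' 0)
    (ha : HasDerivAt a 0 0) (hd : HasDerivAt d d' 0)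
    (h : ∀ᶠ t in 𝓝 (0 : ℝ), N * k t = d t * a t) : d 0 * k' = d' * k 0 := by
  have h1 : HasDerivAt (fun t => N * k t) (N * k') 0 := hk.const_mul N
  have h2 : HasDerivAt (fun t => d t * a t) (d' * a 0 + d 0 * 0) 0 := hd.mul ha
  have h3 := h1.unique (h2.congr_of_eventuallyEq h)
  have h4 := h.self_of_nhds
  apply mul_left_cancel₀ hN
  linear_combination d 0 * h3 - d' * h4

/-- The matrix of the projected point, conjugated. -/
def Af (x v : E4) (t : ℝ) : M3 :=
  (Rm (Th.symm x))ᵀ * Ah (Fm (x + t • v)) * Rm (Th.symm x)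

lemma contDiff_Ah (i j : Fin 3) : ContDiff ℝ ∞ (fun z : F4 => Ah z i j) := by
  fin_cases i <;> fin_cases j <;> simp only [Ah, Fin.mk_zero, Fin.mk_one, Fin.isValue,
      Fin.reduceFinMk, Matrix.of_apply, Matrix.cons_val',
      Matrix.cons_val_zero, Matrix.cons_val_one, Matrix.cons_val, Matrix.cons_val_fin_one] <;>
    fun_prop

lemma hasDerivAt_curve (x v : E4) : HasDerivAt (fun t : ℝ => x + t • v) v 0 := by
  have h := ((hasDerivAt_id (0 : ℝ)).smul_const v).const_add x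
  simpa using h

lemma hasDerivAt_Fm {x : E4} (hx : x ≠ 0) {v : E4} (hv : fderiv ℝ Fm x v = 0) :
    HasDerivAt (fun t : ℝ => Fm (x + t • v)) 0 0 := by
  have h1 : HasFDerivAt Fm (fderiv ℝ Fm x) (x + (0 : ℝ) • v) := by
    rw [zero_smul, add_zero]
    exact ((contDiffAt_Fm hx).differentiableAt (by simp)).hasFDerivAt
  have h2 := h1.comp_hasDerivAt (0 : ℝ) (hasDerivAt_curve x v)
  rw [hv] at h2
  exact h2

lemma hasDerivAt_Ah {x : E4} (hx : x ≠ 0) {v : E4} (hv : fderiv ℝ Fm x v = 0) (i j : Fin 3) :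
    HasDerivAt (fun t : ℝ => Ah (Fm (x + t • v)) i j) 0 0 := by
  have h1 := ((contDiff_Ah i j).differentiable (by simp) (Fm (x + (0 : ℝ) • v))).hasFDerivAt
  have h2 := h1.comp_hasDerivAt (0 : ℝ) (hasDerivAt_Fm hx hv)
  rw [map_zero] at h2
  exact h2

lemma hasDerivAt_Af {x : E4} (hx : x ≠ 0) {v : E4} (hv : fderiv ℝ Fm x v = 0) (i j : Fin 3) :
    HasDerivAt (fun t : ℝ => Af x v t i j) 0 0 := by
  unfold Af
  simp only [Matrix.mul_apply, Matrix.transpose_apply]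
  have h : HasDerivAt (fun t : ℝ => ∑ l, (∑ k, Rm (Th.symm x) k i * Ah (Fm (x + t • v)) k l) *
      Rm (Th.symm x) l j) (∑ l : Fin 3, (∑ k : Fin 3, Rm (Th.symm x) k i * 0) *
        Rm (Th.symm x) l j) 0 := by
    apply HasDerivAt.fun_sum
    intro l _
    apply HasDerivAt.mul_const
    apply HasDerivAt.fun_sum
    intro k _
    exact (hasDerivAt_Ah hx hv k l).const_mul _
  simpa using h

/-- The relation between the two conjugated matrices. -/
lemma conj_rel {x : E4} (hx : x ≠ 0) (v : E4) {t : ℝ} (ht : x + t • v ≠ 0) :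
    ∃ μ : ℝ, ∀ i j : Fin 3, 12 * nq x ^ 4 * Kf ((Th.symm x)⁻¹ * Th.symm v) (nq x) t i j
      - (if i = j then μ else 0) = dn (Bx (x + t • v)) * Af x v t i j := by
  set X := Th.symm x with hX
  set K := Kf (X⁻¹ * Th.symm v) (nq x) t with hK
  set B := Bx (x + t • v) with hB
  have h1 := Bx_rel ht
  rw [← hB] at h1
  have h2 : B = Rm X * K * (Rm X)ᵀ := Bx_curve hx v t
  have h3 : (Rm X)ᵀ * B * Rm X = (nq x ^ 4) • K := by
    rw [h2]
    calc (Rm X)ᵀ * (Rm X * K * (Rm X)ᵀ) * Rm X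
        = ((Rm X)ᵀ * Rm X) * K * ((Rm X)ᵀ * Rm X) := by simp only [Matrix.mul_assoc]
      _ = (nq x ^ 4) • K := by
          rw [Rm_transpose_mul, smul_mul_assoc, Matrix.one_mul, mul_smul_comm, Matrix.mul_one,
            smul_smul]
          congr 1
          change nq x ^ 2 * nq x ^ 2 = _
          ring
  refine ⟨12 * ((B 0 0 + B 1 1 + B 2 2) / 3) * nq x ^ 2, ?_⟩
  intro i j
  have h4 : (Rm X)ᵀ * ((12 : ℝ) • tl B) * Rm X = dn B • Af x v t := by
    rw [h1, mul_smul_comm, smul_mul_assoc]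
    rfl
  have h5 : (Rm X)ᵀ * ((12 : ℝ) • tl B) * Rm X =
      (12 * nq x ^ 4) • K - (12 * ((B 0 0 + B 1 1 + B 2 2) / 3) * nq x ^ 2) • (1 : M3) := by
    unfold tl
    rw [smul_sub, Matrix.mul_sub, Matrix.sub_mul, mul_smul_comm, smul_mul_assoc, h3, smul_smul,
      smul_smul, mul_smul_comm, Matrix.mul_one, smul_mul_assoc, Rm_transpose_mul, smul_smul]
    rfl
  rw [h5] at h4
  have h6 := congrFun (congrFun h4 i) j
  rw [Matrix.sub_apply, Matrix.smul_apply, Matrix.smul_apply, Matrix.smul_apply,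
    Matrix.one_apply, smul_eq_mul, smul_eq_mul, smul_eq_mul] at h6
  rw [← h6]
  split_ifs <;> ring

/-- The derivative of `Fm` is injective. -/
theorem fderiv_Fm_inj {x : E4} (hx : x ≠ 0) {v : E4} (hv : fderiv ℝ Fm x v = 0) : v = 0 := by
  set m := (Th.symm x)⁻¹ * Th.symm v with hm
  set s := nq x with hs
  have hs0 : 0 < s := nq_pos hx
  have hN : 12 * s ^ 4 ≠ 0 := by positivity
  have hd : HasDerivAt (fun t : ℝ => dn (Bx (x + t • v)))
      (fderiv ℝ (fun y => dn (Bx y)) x v) 0 := by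
    have h1 : HasFDerivAt (fun y => dn (Bx y)) (fderiv ℝ (fun y => dn (Bx y)) x)
        (x + (0 : ℝ) • v) := by
      rw [zero_smul, add_zero]
      exact ((contDiffAt_dn hx).differentiableAt (by simp)).hasFDerivAt
    exact h1.comp_hasDerivAt (0 : ℝ) (hasDerivAt_curve x v)
  set κ := fderiv ℝ (fun y => dn (Bx y)) x v with hκ
  have hd0 : 0 < dn (Bx (x + (0 : ℝ) • v)) := by
    rw [zero_smul, add_zero]; exact dn_Bx_pos hx
  have hev : ∀ᶠ t in 𝓝 (0 : ℝ), x + t • v ≠ 0 := by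
    have hc : ContinuousAt (fun t : ℝ => x + t • v) 0 := (hasDerivAt_curve x v).continuousAt
    apply hc.eventually_ne
    rw [zero_smul, add_zero]; exact hx
  -- off-diagonal relations
  have hoff : ∀ i j : Fin 3, i ≠ j → ∀ k' : ℝ, HasDerivAt (fun t => Kf m s t i j) k' 0 →
      dn (Bx (x + (0 : ℝ) • v)) * k' = κ * Kf m s 0 i j := by
    intro i j hij k' hk
    refine deriv_rel hN hk (hasDerivAt_Af hx hv i j) hd ?_
    filter_upwards [hev] with t ht
    obtain ⟨μ, hμ⟩ := conj_rel hx v ht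
    have := hμ i j
    rw [if_neg hij, sub_zero] at this
    exact this
  have hdiag : ∀ i j : Fin 3, ∀ k' l' : ℝ, HasDerivAt (fun t => Kf m s t i i) k' 0 →
      HasDerivAt (fun t => Kf m s t j j) l' 0 →
      dn (Bx (x + (0 : ℝ) • v)) * (k' - l') = κ * (Kf m s 0 i i - Kf m s 0 j j) := by
    intro i j k' l' hk hl
    have ha : HasDerivAt (fun t => Af x v t i i - Af x v t j j) 0 0 := by
      exact ((hasDerivAt_Af hx hv i i).sub (hasDerivAt_Af hx hv j j)).congr_deriv (sub_zero 0)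
    refine deriv_rel (k := fun t => Kf m s t i i - Kf m s t j j) hN (hk.sub hl) ha hd ?_
    filter_upwards [hev] with t ht
    obtain ⟨μ, hμ⟩ := conj_rel hx v ht
    have h1 := hμ i i
    have h2 := hμ j j
    rw [if_pos rfl] at h1 h2
    linear_combination h1 - h2
  -- values at zero
  have hK0 : ∀ i j : Fin 3, Kf m s 0 i j = (if i = 0 then 1 else 0) * (if j = 0 then 1 else 0)
      - s * ((if i = 2 then 1 else 0) * (if j = 2 then 1 else 0)) := by
    intro i j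
    rw [Kf_apply, Rm_one_apply, Rm_one_apply, Rm_one_apply, Rm_one_apply, zero_smul, add_zero,
      map_one, mul_one, one_mul]
  have d01 := hoff 0 1 (by decide) _ (hasDerivAt_Kf (hasDerivAt_R00 m) (hasDerivAt_R10 m)
    (hasDerivAt_R02 m) (hasDerivAt_R12 m))
  have d02 := hoff 0 2 (by decide) _ (hasDerivAt_Kf (hasDerivAt_R00 m) (hasDerivAt_R20 m)
    (hasDerivAt_R02 m) (hasDerivAt_R22 m))
  have d12 := hoff 1 2 (by decide) _ (hasDerivAt_Kf (hasDerivAt_R10 m) (hasDerivAt_R20 m)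
    (hasDerivAt_R12 m) (hasDerivAt_R22 m))
  have e0 := hdiag 0 1 _ _ (hasDerivAt_Kf (hasDerivAt_R00 m) (hasDerivAt_R00 m)
    (hasDerivAt_R02 m) (hasDerivAt_R02 m)) (hasDerivAt_Kf (hasDerivAt_R10 m) (hasDerivAt_R10 m)
    (hasDerivAt_R12 m) (hasDerivAt_R12 m))
  have e2 := hdiag 2 1 _ _ (hasDerivAt_Kf (hasDerivAt_R20 m) (hasDerivAt_R20 m)
    (hasDerivAt_R22 m) (hasDerivAt_R22 m)) (hasDerivAt_Kf (hasDerivAt_R10 m) (hasDerivAt_R10 m)
    (hasDerivAt_R12 m) (hasDerivAt_R12 m))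
  rw [hK0] at d01 d02 d12
  rw [hK0, hK0] at e0 e2
  simp at d01 d02 d12 e0 e2
  have hd0' := hd0.ne'
  rw [zero_smul, add_zero] at hd0'
  set D := dn (Bx x) with hD
  have f1 : m.imK = 0 := by
    rcases d01 with h | h
    · exact absurd h hd0'
    · exact h
  have f2 : m.imJ = 0 := by
    rcases d02 with h | h
    · exact absurd h hd0'
    · nlinarith
  have f3 : m.imI = 0 := by
    rcases d12 with h | h
    · exact absurd h hd0'
    · rcases h with h | h
      · exact absurd h hs0.ne'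
      · exact h
  have f0 : m.re = 0 := by
    have h1 : D * (2 * s * m.re) = 0 := by
      linear_combination (-1) * e2 - s * e0
    rcases mul_eq_zero.1 h1 with h | h
    · exact absurd h hd0'
    · have : 2 * s ≠ 0 := by positivity
      exact (mul_eq_zero.1 h).resolve_left this
  have hm0 : m = 0 := by
    ext <;> assumption
  have hv0 : Th.symm v = 0 := by
    have : Th.symm v = Th.symm x * m := by
      rw [hm, ← mul_assoc, mul_inv_cancel₀ (Ths_ne_zero hx), one_mul]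
    rw [this, hm0, mul_zero]
  exact (LinearIsometryEquiv.map_eq_zero_iff Th.symm).1 hv0

end Pool.Agent.H78.Orb
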