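import Mathlib
import Pool.Agent.H78.Orb.Defs
import Pool.Agent.H78.Orb.Group
import Pool.Agent.H78.Orb.Sym
import Pool.Agent.H78.Orb.Rot
import Pool.Agent.H78.Orb.Fmap

/-!
Diagonalisation of symmetric `3 × 3` matrices by unit quaternions.
-/

open Set Metric Topology Matrix
open scoped Manifold ContDiff Quaternion

noncomputable section

namespace Pool.Agent.H78.Orb

/-- An elementary inequality. -/
lemma quad_ineq {a b : ℝ} (h : ∀ t : ℝ, 0 ≤ a * t ^ 2 + b * (t * (1 - t ^ 2))) :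
    0 ≤ a ∧ b = 0 := by
  have ha : 0 ≤ a := by
    have := h 1
    norm_num at this
    exact this
  have key : ∀ c : ℝ, 0 < c → ∃ δ : ℝ, 0 < δ ∧ δ ≤ 1 / 2 ∧ a * δ ≤ c / 2 := by
    intro c hc
    refine ⟨c / (2 * (a + c)), by positivity, ?_, ?_⟩
    · rw [div_le_div_iff₀ (by positivity) (by norm_num)]
      nlinarith
    · rw [mul_div_assoc', div_le_div_iff₀ (by positivity) (by norm_num)]
      nlinarith [mul_pos hc hc]
  have hle : ∀ c : ℝ, 0 < c → ∀ δ : ℝ, 0 < δ → δ ≤ 1 / 2 → a * δ ≤ c / 2 →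
      a * δ ^ 2 - c * (δ * (1 - δ ^ 2)) < 0 := by
    intro c hc δ h1 h2 h3
    have h4 : a * δ ^ 2 ≤ c / 2 * δ := by nlinarith
    have h5 : δ ^ 2 ≤ 1 / 4 := by nlinarith
    have h6 : c * δ * (3 / 4) ≤ c * (δ * (1 - δ ^ 2)) := by
      have : 0 < c * δ := mul_pos hc h1
      nlinarith
    have : 0 < c * δ := mul_pos hc h1
    nlinarith
  refine ⟨ha, ?_⟩
  rcases lt_trichotomy b 0 with hb | hb | hb
  · obtain ⟨δ, h1, h2, h3⟩ := key (-b) (by linarith)
    have h4 := hle (-b) (by linarith) δ h1 h2 h3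
    have h5 := h δ
    nlinarith
  · exact hb
  · obtain ⟨δ, h1, h2, h3⟩ := key b hb
    have h4 := hle b hb δ h1 h2 h3
    have h5 := h (-δ)
    have h6 : a * (-δ) ^ 2 + b * (-δ * (1 - (-δ) ^ 2)) = a * δ ^ 2 - b * (δ * (1 - δ ^ 2)) := by
      ring
    rw [h6] at h5
    linarith

/-- The functional to be maximised. -/
def ff (A : M3) (x : ℍ[ℝ]) : ℝ :=
  ∑ i, ∑ j, A i j * (Rm x i 0 * Rm x j 0 - Rm x i 2 * Rm x j 2)

lemma ff_eq_trace (A : M3) (x : ℍ[ℝ]) :
    ff A x = ((Rm x)ᵀ * A * Rm x) 0 0 - ((Rm x)ᵀ * A * Rm x) 2 2 := by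
  unfold ff
  simp only [Matrix.mul_apply, Matrix.transpose_apply, Fin.sum_univ_three]
  ring

lemma ff_mul (A : M3) (q p : ℍ[ℝ]) : ff A (q * p) = ff ((Rm q)ᵀ * A * Rm q) p := by
  rw [ff_eq_trace, ff_eq_trace, Rm_mul, Matrix.transpose_mul]
  simp only [Matrix.mul_assoc]

lemma ff_smul (A : M3) (r : ℝ) (x : ℍ[ℝ]) : ff A (r • x) = r ^ 4 * ff A x := by
  unfold ff
  rw [Rm_smul]
  simp only [Matrix.smul_apply, smul_eq_mul, Fin.sum_univ_three]
  ring

lemma continuous_re' : Continuous (fun x : ℍ[ℝ] => x.re) := Quaternion.continuous_re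
lemma continuous_imI' : Continuous (fun x : ℍ[ℝ] => x.imI) := Quaternion.continuous_imI
lemma continuous_imJ' : Continuous (fun x : ℍ[ℝ] => x.imJ) := Quaternion.continuous_imJ
lemma continuous_imK' : Continuous (fun x : ℍ[ℝ] => x.imK) := Quaternion.continuous_imK

lemma continuous_Rm (i j : Fin 3) : Continuous (fun x : ℍ[ℝ] => Rm x i j) := by
  have h1 := continuous_re'
  have h2 := continuous_imI'
  have h3 := continuous_imJ'
  have h4 := continuous_imK'
  fin_cases i <;> fin_cases j <;> simp only [Rm, Fin.mk_zero, Fin.mk_one, Fin.isValue,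
      Fin.reduceFinMk, Matrix.of_apply, Matrix.cons_val',
      Matrix.cons_val_zero, Matrix.cons_val_one, Matrix.cons_val, Matrix.cons_val_fin_one] <;>
    fun_prop

lemma continuous_ff (A : M3) : Continuous (ff A) := by
  unfold ff
  refine continuous_finset_sum _ fun i _ => continuous_finset_sum _ fun j _ => ?_
  exact continuous_const.mul (((continuous_Rm i 0).mul (continuous_Rm j 0)).sub
    ((continuous_Rm i 2).mul (continuous_Rm j 2)))

lemma normSq_eq_norm_sq (x : ℍ[ℝ]) : Quaternion.normSq x = ‖x‖ ^ 2 := by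
  rw [Quaternion.normSq_eq_norm_mul_self, sq]

/-- A maximiser on the unit sphere. -/
lemma exists_max (A : M3) : ∃ q : ℍ[ℝ], Quaternion.normSq q = 1 ∧
    ∀ x : ℍ[ℝ], ff A x ≤ ff A q * Quaternion.normSq x ^ 2 := by
  have hne : (sphere (0 : ℍ[ℝ]) 1).Nonempty := ⟨1, by simp⟩
  haveI : ProperSpace ℍ[ℝ] := FiniteDimensional.proper ℝ _
  obtain ⟨q, hq, hmax⟩ := (isCompact_sphere (0 : ℍ[ℝ]) 1).exists_isMaxOn hne
    (continuous_ff A).continuousOn
  rw [mem_sphere_zero_iff_norm] at hq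
  refine ⟨q, by rw [normSq_eq_norm_sq, hq]; norm_num, fun x => ?_⟩
  by_cases hx : x = 0
  · subst hx
    have : ff A 0 = 0 := by
      have := ff_smul A 0 0
      rw [smul_zero] at this
      rw [this]; ring
    rw [this, map_zero]
    norm_num
  · have hx' : 0 < ‖x‖ := norm_pos_iff.2 hx
    have h1 : ‖x‖⁻¹ • x ∈ sphere (0 : ℍ[ℝ]) 1 := by
      rw [mem_sphere_zero_iff_norm, norm_smul, norm_inv, norm_norm, inv_mul_cancel₀ hx'.ne']
    have h2 : ff A (‖x‖⁻¹ • x) ≤ ff A q := hmax h1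
    rw [ff_smul] at h2
    rw [normSq_eq_norm_sq]
    have h3 := mul_le_mul_of_nonneg_right h2 (show 0 ≤ ‖x‖ ^ 4 by positivity)
    have h4 : ‖x‖⁻¹ ^ 4 * ff A x * ‖x‖ ^ 4 = ff A x := by
      field_simp
    rw [h4] at h3
    calc ff A x ≤ ff A q * ‖x‖ ^ 4 := h3
      _ = ff A q * (‖x‖ ^ 2) ^ 2 := by ring

/-- Symmetric matrices are diagonalised by unit quaternions, with ordered eigenvalues. -/
theorem exists_diag (A : M3) (hA : Aᵀ = A) : ∃ q : ℍ[ℝ], Quaternion.normSq q = 1 ∧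
    ∃ α β μ : ℝ, 0 ≤ α ∧ 0 ≤ β ∧ A = Bm q α β + μ • (1 : M3) := by
  obtain ⟨q, hq, hmax⟩ := exists_max A
  set C := (Rm q)ᵀ * A * Rm q with hC
  have hCs : Cᵀ = C := by
    rw [hC, Matrix.transpose_mul, Matrix.transpose_mul, hA, Matrix.transpose_transpose,
      Matrix.mul_assoc]
  have hsym : ∀ i j, C i j = C j i := fun i j => by
    conv_lhs => rw [← hCs]
    rfl
  have hineq : ∀ p : ℍ[ℝ], ff C p ≤ ff C 1 * Quaternion.normSq p ^ 2 := by
    intro p
    have h1 := hmax (q * p)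
    have h2 : ff A q = ff C 1 := by
      rw [hC, ← ff_mul, mul_one]
    rw [ff_mul, map_mul, hq, one_mul, h2] at h1
    exact h1
  have h1 : ∀ t : ℝ, 0 ≤ (C 1 1 - C 2 2) * t ^ 2 + (-C 1 2) * (t * (1 - t ^ 2)) := by
    intro t
    have h := hineq ⟨1, t, 0, 0⟩
    rw [Quaternion.normSq_def'] at h
    unfold ff Rm at h
    simp [Fin.sum_univ_three] at h
    rw [hsym 2 1] at h
    nlinarith
  have h2 : ∀ t : ℝ, 0 ≤ (C 0 0 - C 1 1) * t ^ 2 + (-C 0 1) * (t * (1 - t ^ 2)) := by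
    intro t
    have h := hineq ⟨1, 0, 0, t⟩
    rw [Quaternion.normSq_def'] at h
    unfold ff Rm at h
    simp [Fin.sum_univ_three] at h
    rw [hsym 1 0] at h
    nlinarith
  have h3 : ∀ t : ℝ, 0 ≤ (C 0 0 - C 2 2) * t ^ 2 + (C 0 2) * (t * (1 - t ^ 2)) := by
    intro t
    have h := hineq ⟨1, 0, t, 0⟩
    rw [Quaternion.normSq_def'] at h
    unfold ff Rm at h
    simp [Fin.sum_univ_three] at h
    rw [hsym 2 0] at h
    nlinarith
  obtain ⟨k1, k2⟩ := quad_ineq h1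
  obtain ⟨k3, k4⟩ := quad_ineq h2
  obtain ⟨k5, k6⟩ := quad_ineq h3
  have c12 : C 1 2 = 0 := by linarith
  have c01 : C 0 1 = 0 := by linarith
  have c21 : C 2 1 = 0 := by rw [hsym]; exact c12
  have c10 : C 1 0 = 0 := by rw [hsym]; exact c01
  have c20 : C 2 0 = 0 := by rw [hsym]; exact k6
  have hCd : C = Dg (C 0 0 - C 1 1) (C 1 1 - C 2 2) + C 1 1 • (1 : M3) := by
    unfold Dg
    ext i j
    fin_cases i <;> fin_cases j <;> simp [c12, c01, c21, c10, c20, k6]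
  refine ⟨q, hq, C 0 0 - C 1 1, C 1 1 - C 2 2, C 1 1, k3, k1, ?_⟩
  have hRR : Rm q * (Rm q)ᵀ = 1 := by rw [Rm_mul_transpose, hq]; simp
  have hA' : A = Rm q * C * (Rm q)ᵀ := by
    rw [hC]
    calc A = (Rm q * (Rm q)ᵀ) * A * (Rm q * (Rm q)ᵀ) := by rw [hRR]; simp
      _ = _ := by simp only [Matrix.mul_assoc]
  unfold Bm
  conv_lhs => rw [hA', hCd]
  rw [Matrix.mul_add, Matrix.add_mul, mul_smul_comm, Matrix.mul_one, smul_mul_assoc, hRR]

end Pool.Agent.H78.Orb
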