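import Mathlib
import Pool.Agent.H78.Orb.Defs
import Pool.Agent.H78.Orb.Ricci
import Pool.Agent.H78.Orb.Group

/-!
The spherical orbifold `S⁴ / Q8`, as the quotient of the one-point compactification of `ℝ⁴`.
-/

open Set Metric Topology
open scoped Manifold ContDiff Quaternion

noncomputable section

namespace Pool.Agent.H78.Orb

instance : MulAction Q8 (OnePoint E4) where
  smul γ x := OnePoint.map (γ : E4 ≃ₗᵢ[ℝ] E4) x
  one_smul x := by
    change OnePoint.map (id : E4 → E4) x = x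
    rw [OnePoint.map_id]; rfl
  mul_smul γ γ' x := by
    change OnePoint.map ((γ : E4 ≃ₗᵢ[ℝ] E4) ∘ (γ' : E4 ≃ₗᵢ[ℝ] E4)) x = _
    rw [OnePoint.map_comp]; rfl

lemma smul_coe (γ : Q8) (x : E4) : γ • (x : OnePoint E4) = ((γ : E4 ≃ₗᵢ[ℝ] E4) x : E4) := rfl

lemma smul_infty (γ : Q8) : γ • (OnePoint.infty : OnePoint E4) = OnePoint.infty := rfl

instance : ContinuousConstSMul Q8 (OnePoint E4) where
  continuous_const_smul γ := ((γ : E4 ≃ₗᵢ[ℝ] E4).toHomeomorph.onePointCongr).continuous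

instance : Finite Q8 := finite_Q8.to_subtype

instance : SecondCountableTopology (OnePoint E4) := by
  have h : Module.finrank ℝ E4 + 1 = Fintype.card (Fin 5) := by
    rw [Quaternion.finrank_eq_four, Fintype.card_fin]
  exact (onePointEquivSphereOfFinrankEq (V := E4) h).secondCountableTopology

/-- The underlying space of the orbifold. -/
abbrev V4 : Type := Quotient (MulAction.orbitRel Q8 (OnePoint E4))

instance : T2Space V4 := inferInstance

instance : SecondCountableTopology V4 := ContinuousConstSMul.secondCountableTopology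

/-- The quotient map. -/
def mkV (x : OnePoint E4) : V4 := Quotient.mk _ x

lemma continuous_mkV : Continuous mkV := continuous_quot_mk

lemma isOpenMap_mkV : IsOpenMap mkV := isOpenMap_quotient_mk'_mul

lemma surjective_mkV : Function.Surjective mkV := Quot.mk_surjective

lemma mkV_coe_eq_iff (x y : E4) : mkV x = mkV y ↔ ∃ γ ∈ Q8, γ x = y := by
  unfold mkV
  rw [Quotient.eq, MulAction.orbitRel_apply, MulAction.mem_orbit_iff]
  constructor
  · rintro ⟨γ, h⟩
    rw [smul_coe, OnePoint.coe_eq_coe] at h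
    refine ⟨(γ : E4 ≃ₗᵢ[ℝ] E4)⁻¹, Q8.inv_mem γ.2, ?_⟩
    rw [← h]
    exact LinearIsometryEquiv.symm_apply_apply _ _
  · rintro ⟨γ, hγ, h⟩
    refine ⟨⟨γ⁻¹, Q8.inv_mem hγ⟩, ?_⟩
    rw [smul_coe, OnePoint.coe_eq_coe, ← h]
    exact LinearIsometryEquiv.symm_apply_apply _ _

lemma mkV_coe_ne_infty (x : E4) : mkV x ≠ mkV OnePoint.infty := by
  unfold mkV
  rw [Ne, Quotient.eq, MulAction.orbitRel_apply, MulAction.mem_orbit_iff]
  rintro ⟨γ, h⟩
  rw [smul_infty] at h
  exact OnePoint.infty_ne_coe _ h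

lemma mkV_coe_eq_zero_iff (x : E4) : mkV x = mkV (0 : E4) ↔ x = 0 := by
  rw [mkV_coe_eq_iff]
  constructor
  · rintro ⟨γ, -, h⟩
    exact (LinearIsometryEquiv.map_eq_zero_iff γ).1 h
  · rintro rfl
    exact ⟨1, Q8.one_mem, rfl⟩

/-- The first singular point. -/
def q1 : V4 := mkV (0 : E4)

/-- The second singular point. -/
def q2 : V4 := mkV OnePoint.infty

/-- The regular part. -/
def Nset : TopologicalSpace.Opens V4 := ⟨{q1, q2}ᶜ, (Set.toFinite _).isClosed.isOpen_compl⟩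

/-- The regular part, as a type. -/
abbrev N4 : Type := Nset

lemma mkV_mem_Nset {x : E4} (hx : x ≠ 0) : mkV x ∈ Nset := by
  change mkV x ∈ ({q1, q2} : Set V4)ᶜ
  simp only [mem_compl_iff, mem_insert_iff, mem_singleton_iff, not_or]
  exact ⟨fun h => hx ((mkV_coe_eq_zero_iff x).1 h), mkV_coe_ne_infty x⟩

lemma bv_ne_zero : bv 0 ≠ 0 := by
  intro h
  have h1 := co_bv 0 0
  rw [h] at h1
  simp [co] at h1

/-- The covering map from the punctured `ℝ⁴` to the regular part. -/
def QN (x : E4) : N4 :=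
  open Classical in
  if h : x ≠ 0 then ⟨mkV x, mkV_mem_Nset h⟩ else ⟨mkV (bv 0), mkV_mem_Nset bv_ne_zero⟩

lemma QN_val {x : E4} (hx : x ≠ 0) : ((QN x : N4) : V4) = mkV x := by
  unfold QN
  rw [dif_pos hx]

lemma QN_eq_iff {x y : E4} (hx : x ≠ 0) (hy : y ≠ 0) : QN x = QN y ↔ ∃ γ ∈ Q8, γ x = y := by
  rw [← mkV_coe_eq_iff, Subtype.ext_iff, QN_val hx, QN_val hy]

lemma exists_QN (n : N4) : ∃ x : E4, x ≠ 0 ∧ QN x = n := by
  obtain ⟨v, hv⟩ := n
  obtain ⟨a, rfl⟩ := surjective_mkV v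
  have hv' : mkV a ∈ ({q1, q2} : Set V4)ᶜ := hv
  simp only [mem_compl_iff, mem_insert_iff, mem_singleton_iff, not_or] at hv'
  induction a using OnePoint.rec with
  | infty => exact absurd rfl hv'.2
  | coe x =>
    have hx : x ≠ 0 := by
      rintro rfl
      exact hv'.1 rfl
    exact ⟨x, hx, Subtype.ext (QN_val hx)⟩

lemma continuousAt_QN {x : E4} (hx : x ≠ 0) : ContinuousAt QN x := by
  rw [Topology.IsInducing.subtypeVal.continuousAt_iff]
  have h : (Subtype.val ∘ QN) =ᶠ[𝓝 x] fun y => mkV y := by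
    filter_upwards [isOpen_ne.mem_nhds hx] with y hy
    exact QN_val hy
  exact (continuous_mkV.comp OnePoint.continuous_coe).continuousAt.congr h.symm

lemma isOpen_image_QN {U : Set E4} (hU : IsOpen U) (h0 : ∀ x ∈ U, x ≠ 0) : IsOpen (QN '' U) := by
  have h : QN '' U = Subtype.val ⁻¹' (mkV '' ((↑) '' U)) := by
    ext n
    constructor
    · rintro ⟨x, hx, rfl⟩
      exact ⟨x, ⟨x, hx, rfl⟩, (QN_val (h0 x hx)).symm⟩
    · rintro ⟨_, ⟨x, hx, rfl⟩, h⟩
      refine ⟨x, hx, Subtype.ext ?_⟩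
      rw [QN_val (h0 x hx), h]
  rw [h]
  exact (isOpenMap_mkV _ (OnePoint.isOpenMap_coe _ hU)).preimage continuous_subtype_val

/-! ### Charts -/

lemma ne_zero_of_mem_ball {a x : E4} (hx : x ∈ ball a (‖a‖ / 4)) : x ≠ 0 := by
  rintro rfl
  rw [mem_ball, dist_zero_left] at hx
  have := norm_nonneg a
  linarith

lemma injOn_QN (a : E4) : InjOn QN (ball a (‖a‖ / 4)) := by
  intro x hx y hy h
  rw [QN_eq_iff (ne_zero_of_mem_ball hx) (ne_zero_of_mem_ball hy)] at h
  obtain ⟨γ, hγ, h⟩ := h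
  by_cases h1 : γ = 1
  · rw [h1] at h; exact h
  · exfalso
    have h2 := Q8_move hγ h1 x
    rw [h] at h2
    rw [mem_ball, dist_eq_norm] at hx hy
    have h3 : ‖y - x‖ ≤ ‖y - a‖ + ‖x - a‖ := by
      have : y - x = (y - a) - (x - a) := by abel
      rw [this]; exact norm_sub_le _ _
    have h4 : ‖a‖ ≤ ‖x‖ + ‖x - a‖ := by
      have : a = x - (x - a) := by abel
      conv_lhs => rw [this]
      exact norm_sub_le _ _
    have := norm_nonneg a
    linarith

/-- The chart inverse: `QN` restricted to a small ball around `a`. -/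
def eNinv (a : E4) : OpenPartialHomeomorph E4 N4 :=
  OpenPartialHomeomorph.ofContinuousOpenRestrict
    ((injOn_QN a).bijOn_image.toPartialEquiv QN _ _)
    (fun x hx => (continuousAt_QN (ne_zero_of_mem_ball hx)).continuousWithinAt)
    (by
      intro U hU
      obtain ⟨W, hW, rfl⟩ := isOpen_induced_iff.1 hU
      have h : (ball a (‖a‖ / 4)).domRestrict QN '' (Subtype.val ⁻¹' W) =
          QN '' (ball a (‖a‖ / 4) ∩ W) := by
        ext n
        constructor
        · rintro ⟨⟨x, hx⟩, hxW, rfl⟩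
          exact ⟨x, ⟨hx, hxW⟩, rfl⟩
        · rintro ⟨x, ⟨hx, hxW⟩, rfl⟩
          exact ⟨⟨x, hx⟩, hxW, rfl⟩
      change IsOpen ((ball a (‖a‖ / 4)).domRestrict QN '' (Subtype.val ⁻¹' W))
      rw [h]
      exact isOpen_image_QN (isOpen_ball.inter hW) (fun x hx => ne_zero_of_mem_ball hx.1))
    isOpen_ball

/-- The chart. -/
def eN (a : E4) : OpenPartialHomeomorph N4 E4 := (eNinv a).symm

lemma eN_target (a : E4) : (eN a).target = ball a (‖a‖ / 4) := rfl

lemma eN_source (a : E4) : (eN a).source = QN '' ball a (‖a‖ / 4) := rfl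

lemma eN_symm_coe (a : E4) : ((eN a).symm : E4 → N4) = QN := rfl

instance : ChartedSpace E4 N4 where
  atlas := {e | ∃ a : E4, a ≠ 0 ∧ e = eN a}
  chartAt n := eN (Classical.choose (exists_QN n))
  mem_chart_source n := by
    obtain ⟨h1, h2⟩ := Classical.choose_spec (exists_QN n)
    refine ⟨Classical.choose (exists_QN n), ?_, h2⟩
    rw [mem_ball, dist_self]
    have := norm_pos_iff.2 h1
    linarith
  chart_mem_atlas n := ⟨_, (Classical.choose_spec (exists_QN n)).1, rfl⟩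

/-- In a chart, the covering map is locally an element of the group. -/
lemma eN_QN (b y : E4) (hy : y ≠ 0) (h : QN y ∈ (eN b).source) :
    ∃ γ ∈ Q8, eN b (QN y) = γ y ∧ ∀ᶠ y' in 𝓝 y, eN b (QN y') = γ y' := by
  set z := eN b (QN y) with hz
  have hzb : z ∈ ball b (‖b‖ / 4) := (eN b).map_source h
  have hQz : QN z = QN y := (eN b).left_inv h
  obtain ⟨γ, hγ, h1⟩ := (QN_eq_iff hy (ne_zero_of_mem_ball hzb)).1 hQz.symm
  refine ⟨γ, hγ, h1.symm, ?_⟩
  have h2 : ∀ᶠ y' in 𝓝 y, γ y' ∈ ball b (‖b‖ / 4) := by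
    have : ContinuousAt γ y := γ.continuous.continuousAt
    apply this
    rw [h1]
    exact isOpen_ball.mem_nhds hzb
  filter_upwards [h2, isOpen_ne.mem_nhds hy] with y' h3 h4
  have h5 : QN (γ y') = QN y' :=
    ((QN_eq_iff h4 (ne_zero_of_mem_ball h3)).2 ⟨γ, hγ, rfl⟩).symm
  rw [← h5]
  exact (eN b).right_inv h3

instance : IsManifold 𝓘(ℝ, E4) ∞ N4 := by
  apply isManifold_of_contDiffOn
  rintro e e' ⟨a, ha, rfl⟩ ⟨b, hb, rfl⟩
  intro y hy
  have hy1 : y ∈ (eN a).target := by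
    have := hy.1
    simp only [modelWithCornersSelf_coe_symm, preimage_id, OpenPartialHomeomorph.trans_source,
      OpenPartialHomeomorph.symm_source, mem_inter_iff] at this
    exact this.1
  have hy2 : QN y ∈ (eN b).source := by
    have := hy.1
    simp only [modelWithCornersSelf_coe_symm, preimage_id, OpenPartialHomeomorph.trans_source,
      OpenPartialHomeomorph.symm_source, mem_inter_iff] at this
    exact this.2
  obtain ⟨γ, hγ, h1, h2⟩ := eN_QN b y (ne_zero_of_mem_ball hy1) hy2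
  apply ContDiffAt.contDiffWithinAt
  have h3 : (𝓘(ℝ, E4) ∘ ((eN a).symm ≫ₕ eN b) ∘ 𝓘(ℝ, E4).symm : E4 → E4) =ᶠ[𝓝 y] γ := by
    filter_upwards [h2] with y' h
    exact h
  exact (γ.contDiff.contDiffAt).congr_of_eventuallyEq h3

end Pool.Agent.H78.Orb
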