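import Mathlib
import Pool.Agent.H78.Orb.Defs
import Pool.Agent.H78.Orb.Ricci
import Pool.Agent.H78.Orb.Group
import Pool.Agent.H78.Orb.Space

/-!
The round metric on the regular part of the spherical orbifold `S⁴ / Q8`.
-/

open Set Metric Topology
open scoped Manifold ContDiff Quaternion

noncomputable section

namespace Pool.Agent.H78.Orb

/-- The round metric at a point, as a bilinear form. -/
def g0 (x : E4) : E4 →L[ℝ] E4 →L[ℝ] ℝ := (4 / sfun x ^ 2) • (innerSL ℝ : E4 →L[ℝ] E4 →L[ℝ] ℝ)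

lemma g0_apply (x u v : E4) : g0 x u v = 4 / sfun x ^ 2 * inner ℝ u v := rfl

lemma g0_bv (x : E4) (i j : Fin 4) : g0 x (bv i) (bv j) = G0 x i j := by
  have h : inner ℝ (bv i) (bv j) = if i = j then (1 : ℝ) else 0 := by
    rw [Quaternion.inner_def]
    fin_cases i <;> fin_cases j <;> simp [bv]
  rw [g0_apply, G0_apply, h]
  by_cases h : i = j <;> simp [h]

lemma sfun_isometry (γ : E4 ≃ₗᵢ[ℝ] E4) (x : E4) : sfun (γ x) = sfun x := by
  rw [sfun_eq, sfun_eq, γ.norm_map]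

lemma g0_isometry (γ : E4 ≃ₗᵢ[ℝ] E4) (x u v : E4) : g0 (γ x) (γ u) (γ v) = g0 x u v := by
  rw [g0_apply, g0_apply, sfun_isometry, γ.inner_map_map]

/-- The field of inner products on the regular part. -/
def innerN : BilinField N4 := fun n => g0 (chartAt E4 n n)

lemma exists_chart_QN (x : E4) (hx : x ≠ 0) : ∃ γ ∈ Q8,
    chartAt E4 (QN x) (QN x) = γ x ∧ ∀ᶠ y in 𝓝 x, chartAt E4 (QN x) (QN y) = γ y := by
  have h1 : QN x ∈ (chartAt E4 (QN x)).source := mem_chart_source E4 (QN x)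
  exact eN_QN _ x hx h1

/-- The derivative of the covering map composed with a map of `ℝ⁴`. -/
lemma hasMFDerivAt_QN_comp (θ : E4 → E4) (x : E4) (hθ : DifferentiableAt ℝ θ x)
    (h0 : θ x ≠ 0) : ∃ γ ∈ Q8, chartAt E4 (QN (θ x)) (QN (θ x)) = γ (θ x) ∧
    HasMFDerivAt 𝓘(ℝ, E4) 𝓘(ℝ, E4) (fun y => QN (θ y)) x
      ((γ.toContinuousLinearEquiv : E4 →L[ℝ] E4).comp (fderiv ℝ θ x)) := by
  obtain ⟨γ, hγ, h1, h2⟩ := exists_chart_QN (θ x) h0
  refine ⟨γ, hγ, h1, ?_, ?_⟩
  · exact ContinuousAt.comp (continuousAt_QN h0) hθ.continuousAt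
  · have h3 : (writtenInExtChartAt 𝓘(ℝ, E4) 𝓘(ℝ, E4) x (fun y => QN (θ y)) : E4 → E4) =ᶠ[𝓝 x]
        fun y => γ (θ y) := by
      filter_upwards [hθ.continuousAt.eventually h2] with y hy
      exact hy
    have h4 : HasFDerivAt (fun y => γ (θ y))
        ((γ.toContinuousLinearEquiv : E4 →L[ℝ] E4).comp (fderiv ℝ θ x)) x :=
      (γ.toContinuousLinearEquiv : E4 →L[ℝ] E4).hasFDerivAt.comp x hθ.hasFDerivAt
    have h5 := h4.congr_of_eventuallyEq h3
    exact h5.hasFDerivWithinAt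

lemma innerN_pullback (θ : E4 → E4) (x : E4) (hθ : DifferentiableAt ℝ θ x) (h0 : θ x ≠ 0)
    (u v : E4) : innerN (QN (θ x)) (mfderiv 𝓘(ℝ, E4) 𝓘(ℝ, E4) (fun y => QN (θ y)) x u)
      (mfderiv 𝓘(ℝ, E4) 𝓘(ℝ, E4) (fun y => QN (θ y)) x v) =
      g0 (θ x) (fderiv ℝ θ x u) (fderiv ℝ θ x v) := by
  obtain ⟨γ, hγ, h1, h2⟩ := hasMFDerivAt_QN_comp θ x hθ h0
  rw [h2.mfderiv]
  unfold innerN
  rw [h1]
  exact g0_isometry γ (θ x) _ _

lemma innerN_QN (x : E4) (h0 : x ≠ 0) (u v : E4) :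
    innerN (QN x) (mfderiv 𝓘(ℝ, E4) 𝓘(ℝ, E4) QN x u) (mfderiv 𝓘(ℝ, E4) 𝓘(ℝ, E4) QN x v) = g0 x u v := by
  have := innerN_pullback id x differentiableAt_id h0 u v
  simpa using this

lemma components_innerN (a y : E4) (hy : y ∈ (eN a).target) :
    components innerN (eN a) y = G0 y := by
  ext i j
  unfold components
  rw [Matrix.of_apply, eN_symm_coe, innerN_QN y (ne_zero_of_mem_ball hy), g0_bv]

lemma contDiff_sfun : ContDiff ℝ ∞ sfun := by
  have : sfun = fun x => 1 + ‖x‖ ^ 2 := by funext x; exact sfun_eq x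
  rw [this]
  exact contDiff_const.add (contDiff_norm_sq ℝ)

lemma contDiff_G0 (i j : Fin 4) : ContDiff ℝ ∞ (fun x => G0 x i j) := by
  have h : (fun x => G0 x i j) = fun x => if i = j then 4 / sfun x ^ 2 else 0 := by
    funext x; exact G0_apply x i j
  rw [h]
  by_cases hij : i = j
  · simp only [hij, if_true]
    exact contDiff_const.div (contDiff_sfun.pow 2) fun x => by
      have := sfun_pos x
      positivity
  · simp only [hij, if_false]
    exact contDiff_const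

lemma posDef_G0 (x : E4) : (G0 x).PosDef := by
  unfold G0
  have := sfun_pos x
  exact Matrix.PosDef.one.smul (by positivity)

lemma g0_symm (x u v : E4) : g0 x u v = g0 x v u := by
  rw [g0_apply, g0_apply, real_inner_comm]

lemma g0_pos (x u : E4) (hu : u ≠ 0) : 0 < g0 x u u := by
  rw [g0_apply]
  have := sfun_pos x
  have h2 : 0 < inner ℝ u u := real_inner_self_pos.2 hu
  exact mul_pos (by positivity) h2

/-- The round metric on the regular part. -/
def metricN : RiemMetric N4 where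
  inner := innerN
  symm n u v := g0_symm _ u v
  pos n u hu := g0_pos _ u hu
  smooth := by
    rintro e ⟨a, ha, rfl⟩ i j
    refine (contDiff_G0 i j).contDiffOn.congr fun y hy => ?_
    rw [components_innerN a y hy]

lemma pd_congr {f g : E4 → ℝ} {x : E4} (h : f =ᶠ[𝓝 x] g) (m : Fin 4) : pd m f x = pd m g x := by
  unfold pd
  rw [h.fderiv_eq]

lemma christoffel_congr {G G' : E4 → Matrix (Fin 4) (Fin 4) ℝ} {x : E4} (h : G =ᶠ[𝓝 x] G')
    (k i j : Fin 4) : christoffel G k i j x = christoffel G' k i j x := by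
  have h1 : ∀ i j, (fun y => G y i j) =ᶠ[𝓝 x] fun y => G' y i j := fun i j => by
    filter_upwards [h] with y hy
    rw [hy]
  unfold christoffel
  rw [h.eq_of_nhds]
  congr 1
  refine Finset.sum_congr rfl fun l _ => ?_
  rw [pd_congr (h1 j l), pd_congr (h1 i l), pd_congr (h1 i j)]

lemma ricci_congr {G G' : E4 → Matrix (Fin 4) (Fin 4) ℝ} {x : E4} (h : G =ᶠ[𝓝 x] G')
    (i j : Fin 4) : ricci G i j x = ricci G' i j x := by
  have h1 : ∀ k i j, christoffel G k i j =ᶠ[𝓝 x] christoffel G' k i j := fun k i j => by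
    filter_upwards [h.eventuallyEq_nhds] with y hy
    exact christoffel_congr hy k i j
  unfold ricci
  congr 1
  · congr 1
    · refine Finset.sum_congr rfl fun k _ => pd_congr (h1 k i j) k
    · refine Finset.sum_congr rfl fun k _ => pd_congr (h1 k i k) j
  · refine Finset.sum_congr rfl fun k _ => Finset.sum_congr rfl fun l _ => ?_
    rw [christoffel_congr h, christoffel_congr h, christoffel_congr h, christoffel_congr h]

theorem isEinstein_metricN : metricN.IsEinstein 3 := by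
  rintro e ⟨a, ha, rfl⟩ y hy i j
  have h : components innerN (eN a) =ᶠ[𝓝 y] G0 := by
    filter_upwards [(eN a).open_target.mem_nhds hy] with y' hy'
    exact components_innerN a y' hy'
  change ricci (components innerN (eN a)) i j y = 3 * components innerN (eN a) y i j
  rw [ricci_congr h, ricci_G0, components_innerN a y hy]

/-! ### The inversion -/

/-- The inversion in the unit sphere. -/
def Jv (x : E4) : E4 := (‖x‖ ^ 2)⁻¹ • x

lemma Jv_ne_zero {x : E4} (hx : x ≠ 0) : Jv x ≠ 0 := by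
  unfold Jv
  have := norm_pos_iff.2 hx
  exact smul_ne_zero (by positivity) hx

lemma norm_Jv {x : E4} (hx : x ≠ 0) : ‖Jv x‖ = ‖x‖⁻¹ := by
  unfold Jv
  have := norm_pos_iff.2 hx
  rw [norm_smul, Real.norm_eq_abs, abs_of_pos (by positivity)]
  field_simp

lemma Jv_Jv {x : E4} (hx : x ≠ 0) : Jv (Jv x) = x := by
  have h := norm_pos_iff.2 hx
  unfold Jv at *
  have h2 : ‖(‖x‖ ^ 2)⁻¹ • x‖ = ‖x‖⁻¹ := norm_Jv hx
  rw [h2, smul_smul]
  have : (‖x‖⁻¹ ^ 2)⁻¹ * (‖x‖ ^ 2)⁻¹ = 1 := by field_simp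
  rw [this, one_smul]

lemma Jv_map (γ : E4 ≃ₗᵢ[ℝ] E4) (x : E4) : Jv (γ x) = γ (Jv x) := by
  unfold Jv
  rw [γ.norm_map, map_smul]

lemma contDiffAt_Jv {x : E4} (hx : x ≠ 0) : ContDiffAt ℝ ∞ Jv x := by
  unfold Jv
  refine ContDiffAt.smul (ContDiffAt.inv (contDiff_norm_sq ℝ).contDiffAt ?_) contDiffAt_id
  have := norm_pos_iff.2 hx
  positivity

lemma hasFDerivAt_Jv {x : E4} (hx : x ≠ 0) : HasFDerivAt Jv
    (((‖x‖ ^ 2)⁻¹) • (ContinuousLinearMap.id ℝ E4) -
      ((2 * (‖x‖ ^ 2)⁻¹ ^ 2) • (innerSL ℝ x : E4 →L[ℝ] ℝ)).smulRight x) x := by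
  have h := norm_pos_iff.2 hx
  have h1 : HasFDerivAt (fun y : E4 => ‖y‖ ^ 2) (2 • (innerSL ℝ x : E4 →L[ℝ] ℝ)) x :=
    (hasStrictFDerivAt_norm_sq x).hasFDerivAt
  have h2 := (hasDerivAt_inv (show ‖x‖ ^ 2 ≠ 0 by positivity)).comp_hasFDerivAt x h1
  have h3 := h2.smul (hasFDerivAt_id x)
  refine (h3.congr_of_eventuallyEq (f₁ := Jv) ?_).congr_fderiv ?_
  · exact Filter.Eventually.of_forall fun y => rfl
  · refine ContinuousLinearMap.ext fun v => ?_
    simp only [add_apply, sub_apply, smul_apply, ContinuousLinearMap.id_apply,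
      ContinuousLinearMap.smulRight_apply, innerSL_apply_apply, id_eq, Function.comp_apply,
      smul_eq_mul, nsmul_eq_mul, Nat.cast_ofNat]
    rw [sub_eq_add_neg, ← neg_smul]
    congr 2
    ring

lemma g0_Jv {x : E4} (hx : x ≠ 0) (u v : E4) :
    g0 (Jv x) (fderiv ℝ Jv x u) (fderiv ℝ Jv x v) = g0 x u v := by
  have h := norm_pos_iff.2 hx
  rw [(hasFDerivAt_Jv hx).fderiv, g0_apply, g0_apply, sfun_eq, sfun_eq, norm_Jv hx]
  simp only [sub_apply, smul_apply, ContinuousLinearMap.id_apply,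
    ContinuousLinearMap.smulRight_apply, innerSL_apply_apply, inner_sub_left, inner_sub_right,
    real_inner_smul_left, real_inner_smul_right, smul_eq_mul, real_inner_self_eq_norm_sq]
  rw [real_inner_comm x u]
  field_simp
  ring

end Pool.Agent.H78.Orb
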