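import Mathlib
import Pool.Agent.H78.Orb.Defs
import Pool.Agent.H78.Orb.Ricci
import Pool.Agent.H78.Orb.Group
import Pool.Agent.H78.Orb.Space
import Pool.Agent.H78.Orb.Metric

/-!
The spherical orbifold `S⁴ / Q8` is an Einstein orbifold with two singular points.
-/

open Set Metric Topology Filter
open scoped Manifold ContDiff Quaternion

noncomputable section

namespace Pool.Agent.H78.Orb

/-- The orbifold chart around the first singular point. -/
def psi1 (x : E4) : V4 := mkV x

/-- The inversion as a map to the one-point compactification. -/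
def Jhat (x : E4) : OnePoint E4 :=
  open Classical in if x = 0 then OnePoint.infty else (Jv x : E4)

/-- The orbifold chart around the second singular point. -/
def psi2 (x : E4) : V4 := mkV (Jhat x)

lemma Jhat_zero : Jhat 0 = OnePoint.infty := by simp [Jhat]

lemma Jhat_of_ne {x : E4} (hx : x ≠ 0) : Jhat x = (Jv x : E4) := by simp [Jhat, hx]

lemma Jv_continuousAt {x : E4} (hx : x ≠ 0) : ContinuousAt Jv x := (contDiffAt_Jv hx).continuousAt

lemma continuous_Jhat : Continuous Jhat := by
  rw [continuous_iff_continuousAt]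
  intro x
  by_cases hx : x = 0
  · subst hx
    rw [ContinuousAt, Jhat_zero]
    intro s hs
    obtain ⟨t, hts, ht, hmem⟩ := mem_nhds_iff.1 hs
    have hc := ((OnePoint.isOpen_iff_of_mem hmem).1 ht).2
    obtain ⟨R, hR⟩ := hc.isBounded.subset_closedBall (0 : E4)
    rw [mem_map]
    have hpos : 0 < (|R| + 1)⁻¹ := by positivity
    filter_upwards [ball_mem_nhds (0 : E4) hpos] with y hy
    apply hts
    by_cases hy0 : y = 0
    · rw [hy0, Jhat_zero]; exact hmem
    · rw [Jhat_of_ne hy0]
      by_contra hcon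
      have h1 : Jv y ∈ ((↑) ⁻¹' t : Set E4)ᶜ := hcon
      have h2 := hR h1
      rw [mem_closedBall_zero_iff, norm_Jv hy0] at h2
      rw [mem_ball_zero_iff] at hy
      have h3 := norm_pos_iff.2 hy0
      have h4 : |R| + 1 < ‖y‖⁻¹ := by
        rw [lt_inv_comm₀ (by positivity) h3]; exact hy
      have := le_abs_self R
      linarith
  · have h : Jhat =ᶠ[𝓝 x] fun y => (Jv y : E4) := by
      filter_upwards [isOpen_ne.mem_nhds hx] with y hy
      exact Jhat_of_ne hy
    exact (OnePoint.continuous_coe.continuousAt.comp (Jv_continuousAt hx)).congr h.symm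

lemma isOpen_image_Jv {U : Set E4} (hU : IsOpen U) (h0 : ∀ x ∈ U, x ≠ 0) : IsOpen (Jv '' U) := by
  have h : Jv '' U = {0}ᶜ ∩ Jv ⁻¹' U := by
    ext y
    constructor
    · rintro ⟨x, hx, rfl⟩
      exact ⟨Jv_ne_zero (h0 x hx), by rw [mem_preimage, Jv_Jv (h0 x hx)]; exact hx⟩
    · rintro ⟨h1, h2⟩
      exact ⟨Jv y, h2, Jv_Jv h1⟩
  rw [h]
  have hc : ContinuousOn Jv ({0}ᶜ : Set E4) := fun x hx => (Jv_continuousAt hx).continuousWithinAt
  exact hc.isOpen_inter_preimage isOpen_compl_singleton hU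

lemma isOpenMap_Jhat : IsOpenMap Jhat := by
  intro U hU
  have hpre : ((↑) ⁻¹' (Jhat '' U) : Set E4) = Jv '' (U \ {0}) := by
    ext y
    constructor
    · rintro ⟨x, hx, h⟩
      by_cases hx0 : x = 0
      · rw [hx0, Jhat_zero] at h
        exact absurd h (OnePoint.infty_ne_coe y)
      · rw [Jhat_of_ne hx0, OnePoint.coe_eq_coe] at h
        exact ⟨x, ⟨hx, hx0⟩, h⟩
    · rintro ⟨x, ⟨hx, hx0⟩, rfl⟩
      exact ⟨x, hx, Jhat_of_ne hx0⟩
  have hopen : IsOpen (Jv '' (U \ {0})) :=
    isOpen_image_Jv (hU.sdiff isClosed_singleton) (fun x hx => hx.2)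
  rw [OnePoint.isOpen_def, hpre]
  refine ⟨fun hinf => ?_, hopen⟩
  -- `0 ∈ U`
  obtain ⟨x, hx, hxi⟩ := hinf
  have hx0 : x = 0 := by
    by_contra h
    rw [Jhat_of_ne h] at hxi
    exact OnePoint.coe_ne_infty _ hxi
  subst hx0
  obtain ⟨ε, hε, hball⟩ := Metric.isOpen_iff.1 hU 0 hx
  apply Metric.isCompact_of_isClosed_isBounded hopen.isClosed_compl
  refine (Metric.isBounded_closedBall (x := (0 : E4)) (r := ε⁻¹)).subset ?_
  intro y hy
  rw [mem_closedBall_zero_iff]
  by_contra hcon
  push Not at hcon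
  have hy0 : y ≠ 0 := by
    rintro rfl
    rw [norm_zero] at hcon
    have : 0 < ε⁻¹ := by positivity
    linarith
  apply hy
  refine ⟨Jv y, ⟨hball ?_, Jv_ne_zero hy0⟩, Jv_Jv hy0⟩
  rw [mem_ball_zero_iff, norm_Jv hy0]
  exact (inv_lt_comm₀ hε (norm_pos_iff.2 hy0)).1 hcon

lemma psi2_eq_iff (x y : E4) : psi2 x = psi2 y ↔ ∃ γ ∈ Q8, γ x = y := by
  unfold psi2
  by_cases hx : x = 0 <;> by_cases hy : y = 0
  · subst hx; subst hy
    simp only [true_iff]
    exact ⟨1, Q8.one_mem, rfl⟩
  · subst hx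
    rw [Jhat_zero, Jhat_of_ne hy]
    constructor
    · intro h
      exact absurd h.symm (mkV_coe_ne_infty _)
    · rintro ⟨γ, -, h⟩
      exact absurd (by rw [← h, map_zero]) hy
  · subst hy
    rw [Jhat_zero, Jhat_of_ne hx]
    constructor
    · intro h
      exact absurd h (mkV_coe_ne_infty _)
    · rintro ⟨γ, -, h⟩
      exact absurd ((LinearIsometryEquiv.map_eq_zero_iff γ).1 h) hx
  · rw [Jhat_of_ne hx, Jhat_of_ne hy, mkV_coe_eq_iff]
    constructor
    · rintro ⟨γ, hγ, h⟩
      refine ⟨γ, hγ, ?_⟩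
      rw [← Jv_map] at h
      have hγx : γ x ≠ 0 := fun h' => hx ((LinearIsometryEquiv.map_eq_zero_iff γ).1 h')
      rw [← Jv_Jv hγx, h, Jv_Jv hy]
    · rintro ⟨γ, hγ, h⟩
      exact ⟨γ, hγ, by rw [← Jv_map, h]⟩

/-! ### Local diffeomorphisms -/

/-- The inversion as a diffeomorphism of the punctured space. -/
lemma isLocalDiffeomorphAt_Jv {x : E4} (hx : x ≠ 0) :
    IsLocalDiffeomorphAt 𝓘(ℝ, E4) 𝓘(ℝ, E4) ∞ Jv x := by
  have hsm : ContMDiffOn 𝓘(ℝ, E4) 𝓘(ℝ, E4) ∞ Jv ({0}ᶜ : Set E4) := by
    rw [contMDiffOn_iff_contDiffOn]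
    exact fun y hy => (contDiffAt_Jv hy).contDiffWithinAt
  refine ⟨{ toFun := Jv, invFun := Jv, source := {0}ᶜ, target := {0}ᶜ
            map_source' := fun y hy => Jv_ne_zero hy
            map_target' := fun y hy => Jv_ne_zero hy
            left_inv' := fun y hy => Jv_Jv hy
            right_inv' := fun y hy => Jv_Jv hy
            open_source := isOpen_compl_singleton
            open_target := isOpen_compl_singleton
            contMDiffOn_toFun := hsm
            contMDiffOn_invFun := hsm }, hx, fun y _ => rfl⟩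

lemma eN_mem_maximalAtlas {a : E4} (ha : a ≠ 0) :
    eN a ∈ IsManifold.maximalAtlas 𝓘(ℝ, E4) ∞ N4 :=
  IsManifold.subset_maximalAtlas ⟨a, ha, rfl⟩

lemma isLocalDiffeomorphAt_QN {x : E4} (hx : x ≠ 0) :
    IsLocalDiffeomorphAt 𝓘(ℝ, E4) 𝓘(ℝ, E4) ∞ QN x := by
  have hm := eN_mem_maximalAtlas hx
  refine ⟨{ toPartialEquiv := (eN x).symm.toPartialEquiv
            open_source := (eN x).open_target
            open_target := (eN x).open_source
            contMDiffOn_toFun := contMDiffOn_symm_of_mem_maximalAtlas hm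
            contMDiffOn_invFun := contMDiffOn_of_mem_maximalAtlas hm }, ?_, fun y _ => rfl⟩
  change x ∈ ball x (‖x‖ / 4)
  have := norm_pos_iff.2 hx
  exact mem_ball_self (by positivity)

/-- The inclusion of the regular part. -/
lemma range_val : range (Subtype.val : N4 → V4) = ({q1, q2} : Set V4)ᶜ := by
  rw [Subtype.range_coe_subtype]; rfl

lemma q1_ne_q2 : q1 ≠ q2 := mkV_coe_ne_infty 0

lemma isSphericalGroup_Q8 : IsSphericalGroup Q8 := ⟨finite_Q8, Q8_ne_bot, Q8_free⟩

/-- The spherical Einstein orbifold `S⁴ / Q8`. -/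
def orb : EinsteinOrbifold V4 N4 where
  sing := {q1, q2}
  sing_finite := Set.toFinite _
  incl := Subtype.val
  incl_openEmbedding := Nset.2.isOpenEmbedding_subtypeVal
  range_incl := range_val
  metric := metricN
  einstein := ⟨3, isEinstein_metricN⟩
  local_model := by
    intro q hq
    rcases hq with rfl | hq
    · refine ⟨Q8, 1, psi1, QN, isSphericalGroup_Q8, ⟨one_pos, rfl, ?_, ?_, ?_⟩, ?_, ?_,
        G0, ?_, ?_, ?_⟩
      · exact (continuous_mkV.comp OnePoint.continuous_coe).continuousOn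
      · intro U _ hU
        have : psi1 '' U = mkV '' ((↑) '' U) := by rw [image_image]; rfl
        rw [this]
        exact isOpenMap_mkV _ (OnePoint.isOpenMap_coe _ hU)
      · intro x _ y _
        exact mkV_coe_eq_iff x y
      · intro x _ hx
        exact QN_val hx
      · rw [isLocalDiffeomorphOn_iff]
        rintro ⟨x, hx⟩
        exact isLocalDiffeomorphAt_QN hx.2
      · intro i j
        exact (contDiff_G0 i j).contDiffOn
      · intro x _
        exact posDef_G0 x
      · intro x _ hx i j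
        have := innerN_QN x hx (bv i) (bv j)
        rw [g0_bv] at this
        exact this.symm
    · have hq' : q = q2 := hq
      subst hq'
      refine ⟨Q8, 1, psi2, fun x => QN (Jv x), isSphericalGroup_Q8, ⟨one_pos, ?_, ?_, ?_, ?_⟩,
        ?_, ?_, G0, ?_, ?_, ?_⟩
      · change mkV (Jhat 0) = q2
        rw [Jhat_zero]; rfl
      · exact (continuous_mkV.comp continuous_Jhat).continuousOn
      · intro U _ hU
        have : psi2 '' U = mkV '' (Jhat '' U) := by rw [image_image]; rfl
        rw [this]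
        exact isOpenMap_mkV _ (isOpenMap_Jhat _ hU)
      · intro x _ y _
        exact psi2_eq_iff x y
      · intro x _ hx
        change ((QN (Jv x) : N4) : V4) = mkV (Jhat x)
        rw [QN_val (Jv_ne_zero hx), Jhat_of_ne hx]
      · rw [isLocalDiffeomorphOn_iff]
        rintro ⟨x, hx⟩
        exact IsLocalDiffeomorphAt.comp (hf := isLocalDiffeomorphAt_Jv hx.2)
          (hg := isLocalDiffeomorphAt_QN (Jv_ne_zero hx.2))
      · intro i j
        exact (contDiff_G0 i j).contDiffOn
      · intro x _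
        exact posDef_G0 x
      · intro x _ hx i j
        have := innerN_pullback Jv x ((contDiffAt_Jv hx).differentiableAt (by simp))
          (Jv_ne_zero hx) (bv i) (bv j)
        rw [g0_Jv hx, g0_bv] at this
        exact this.symm

end Pool.Agent.H78.Orb
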