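import Mathlib
import Pool.Agent.H78.Orb.Defs
import Pool.Agent.H78.Orb.Group
import Pool.Agent.H78.Orb.Space
import Pool.Agent.H78.Orb.Metric
import Pool.Agent.H78.Orb.Orbifold
import Pool.Agent.H78.Orb.Sym
import Pool.Agent.H78.Orb.Rot
import Pool.Agent.H78.Orb.Fmap
import Pool.Agent.H78.Orb.Exist
import Pool.Agent.H78.Orb.Deriv

/-!
The map from `ℝ⁴` to the orbifold.
-/

open Set Metric Topology Matrix Filter
open scoped Manifold ContDiff Quaternion

noncomputable section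

namespace Pool.Agent.H78.Orb

/-- The point `z` of `ℝ⁴` has parameters `q`, `t`. -/
def Rel (z : F4) (q : ℍ[ℝ]) (t : ℝ) : Prop :=
  (12 : ℝ) • tl (Bm q (1 - t) t) = dn (Bm q (1 - t) t) • Ah z

/-- The parameter space. -/
abbrev PP : Type := sphere (0 : ℍ[ℝ]) 1 × Icc (0 : ℝ) 1

lemma continuous_entry (i j : Fin 3) : Continuous (fun B : M3 => B i j) :=
  continuous_id.matrix_elem i j

lemma continuous_wv : Continuous wv := by
  have := continuous_entry
  unfold wv
  fun_prop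

lemma continuous_Pn : Continuous Pn := by
  have h00 := continuous_entry 0 0
  have h11 := continuous_entry 1 1
  have h01 := continuous_entry 0 1
  have h02 := continuous_entry 0 2
  have h12 := continuous_entry 1 2
  unfold Pn
  fun_prop

lemma continuous_dn : Continuous dn := by
  have h1 := continuous_wv
  have h2 := continuous_Pn
  unfold dn
  fun_prop

lemma continuous_tl : Continuous tl := by
  have h00 := continuous_entry 0 0
  have h11 := continuous_entry 1 1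
  have h22 := continuous_entry 2 2
  unfold tl
  exact continuous_id.sub ((((h00.add h11).add h22).div_const 3).smul continuous_const)

lemma continuous_Pv : Continuous Pv := by
  have h00 := continuous_entry 0 0
  have h11 := continuous_entry 1 1
  have h01 := continuous_entry 0 1
  have h02 := continuous_entry 0 2
  have h12 := continuous_entry 1 2
  refine (PiLp.continuous_toLp 2 (fun _ : Fin 4 => ℝ)).comp (continuous_pi fun i => ?_)
  fin_cases i
  · exact h00.sub h11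
  · exact continuous_const.mul h01
  · exact continuous_const.mul h02
  · exact continuous_const.mul h12

lemma continuous_Ah : Continuous Ah := by
  apply continuous_matrix
  intro i j
  exact (contDiff_Ah i j).continuous

lemma continuous_Bm : Continuous (fun p : ℍ[ℝ] × ℝ => Bm p.1 (1 - p.2) p.2) := by
  apply continuous_matrix
  intro i j
  simp only [Bm_apply]
  have h1 := (continuous_Rm i 0).comp (continuous_fst (X := ℍ[ℝ]) (Y := ℝ))
  have h2 := (continuous_Rm j 0).comp (continuous_fst (X := ℍ[ℝ]) (Y := ℝ))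
  have h3 := (continuous_Rm i 2).comp (continuous_fst (X := ℍ[ℝ]) (Y := ℝ))
  have h4 := (continuous_Rm j 2).comp (continuous_fst (X := ℍ[ℝ]) (Y := ℝ))
  have h5 : Continuous (fun p : ℍ[ℝ] × ℝ => p.2) := continuous_snd
  exact ((continuous_const.sub h5).mul (h1.mul h2)).sub (h5.mul (h3.mul h4))

lemma isClosed_Rel : IsClosed {p : F4 × (ℍ[ℝ] × ℝ) | Rel p.1 p.2.1 p.2.2} := by
  unfold Rel
  have h1 : Continuous (fun p : F4 × (ℍ[ℝ] × ℝ) => Bm p.2.1 (1 - p.2.2) p.2.2) :=
    continuous_Bm.comp continuous_snd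
  have c1 : Continuous (fun p : F4 × (ℍ[ℝ] × ℝ) =>
      (12 : ℝ) • tl (Bm p.2.1 (1 - p.2.2) p.2.2)) := (continuous_tl.comp h1).fun_const_smul 12
  have c2 : Continuous (fun p : F4 × (ℍ[ℝ] × ℝ) =>
      dn (Bm p.2.1 (1 - p.2.2) p.2.2) • Ah p.1) :=
    (continuous_dn.comp h1).fun_smul (continuous_Ah.comp continuous_fst)
  exact isClosed_eq c1 c2

lemma q_ne_zero {q : ℍ[ℝ]} (hq : ‖q‖ = 1) : q ≠ 0 := by
  rintro rfl
  rw [norm_zero] at hq
  exact zero_ne_one hq

lemma tl_ne {q : ℍ[ℝ]} (hq : ‖q‖ = 1) {t : ℝ} (ht : t ∈ Icc (0 : ℝ) 1) :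
    tl (Bm q (1 - t) t) ≠ 0 :=
  tl_Bm_ne_zero (q_ne_zero hq) (by linarith [ht.2]) ht.1 (by linarith)

lemma Rel_iff {q : ℍ[ℝ]} (hq : ‖q‖ = 1) {t : ℝ} (ht : t ∈ Icc (0 : ℝ) 1) (z : F4) :
    Rel z q t ↔ 0 < dn (Bm q (1 - t) t) ∧ sig (Bm q (1 - t) t) = z := by
  constructor
  · intro h
    obtain ⟨h1, h2⟩ := sig_eq_of_rel (tl_ne hq ht) h
    exact ⟨h2, h1⟩
  · rintro ⟨h1, rfl⟩
    exact tl_eq _ (Bm_symm _ _ _) h1.ne'

lemma Rel_iff_of_lt {q : ℍ[ℝ]} (hq : ‖q‖ = 1) {t : ℝ} (ht : t ∈ Icc (0 : ℝ) 1) (ht1 : t < 1)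
    (z : F4) : Rel z q t ↔ sig (Bm q (1 - t) t) = z := by
  rw [Rel_iff hq ht]
  have := dn_Bm_pos (q_ne_zero hq) (show 0 < 1 - t by linarith) ht.1
  tauto

/-- Every point has parameters. -/
lemma exists_Rel (z : F4) : ∃ q : ℍ[ℝ], ‖q‖ = 1 ∧ ∃ t ∈ Icc (0 : ℝ) 1, Rel z q t := by
  obtain ⟨q, hq, α, β, μ, hα, hβ, h⟩ := exists_diag (Ah z) (Ah_symm z)
  have hqn : ‖q‖ = 1 := by
    rw [normSq_eq_norm_sq] at hq
    have := norm_nonneg q
    nlinarith
  have hpos : 0 < α + β := by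
    by_contra hcon
    have h1 : α = 0 := by linarith
    have h2 : β = 0 := by linarith
    subst h1
    subst h2
    have h3 : Bm q 0 0 = 0 := by
      ext i j
      rw [Bm_apply]; simp
    rw [h3, zero_add] at h
    have h4 := dn_Ah z
    have h5 := dn_smul_add (le_refl (0 : ℝ)) μ (0 : M3)
    rw [zero_smul, zero_add, zero_mul] at h5
    rw [h, h5] at h4
    norm_num at h4
  refine ⟨q, hqn, β / (α + β), ⟨by positivity, ?_⟩, ?_⟩
  · rw [div_le_one hpos]; linarith
  · have h1 : Bm q α β = (α + β) • Bm q (1 - β / (α + β)) (β / (α + β)) := by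
      rw [← Bm_scale]
      congr 1
      · field_simp; ring
      · field_simp
    set B := Bm q (1 - β / (α + β)) (β / (α + β)) with hB
    rw [h1] at h
    have h2 : 12 = (α + β) * dn B := by
      rw [← dn_Ah z, h, dn_smul_add hpos.le]
    have h3 : Ah z = (α + β) • tl B := by
      have h4 := tl_Ah z
      rw [← h4, h]
      unfold tl
      ext i j
      simp [Matrix.sub_apply, Matrix.add_apply, Matrix.smul_apply, Matrix.one_apply]
      split_ifs <;> ring
    change (12 : ℝ) • tl B = dn B • Ah z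
    rw [h3, smul_smul, h2]
    congr 1
    ring

/-- Uniqueness of the parameters. -/
lemma Rel_unique {z : F4} {q q' : ℍ[ℝ]} {t t' : ℝ} (hq : ‖q‖ = 1) (hq' : ‖q'‖ = 1)
    (ht : t ∈ Icc (0 : ℝ) 1) (ht' : t' ∈ Icc (0 : ℝ) 1) (h : Rel z q t) (h' : Rel z q' t') :
    t = t' ∧ (0 < t → t < 1 → IsQ (q⁻¹ * q')) := by
  have hd := ((Rel_iff hq ht z).1 h).1
  have hd' := ((Rel_iff hq' ht' z).1 h').1
  unfold Rel at h h'
  set B := Bm q (1 - t) t with hB
  set B' := Bm q' (1 - t') t' with hB'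
  have h3 : tl B = (dn B / dn B') • tl B' := by
    have h4 : tl B = (dn B / 12) • Ah z := by
      rw [div_eq_inv_mul, mul_smul, ← h, smul_smul]; norm_num
    have h5 : tl B' = (dn B' / 12) • Ah z := by
      rw [div_eq_inv_mul, mul_smul, ← h', smul_smul]; norm_num
    rw [h4, h5, smul_smul]
    congr 1
    field_simp
  have h4 := eq_of_tl h3
  obtain ⟨-, k1, k2, k3⟩ := Bm_eq_imp (q_ne_zero hq) (q_ne_zero hq')
    (show 0 ≤ 1 - t by linarith [ht.2]) ht.1 (show 0 ≤ 1 - t' by linarith [ht'.2]) ht'.1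
    (div_pos hd hd') h4
  rw [normSq_eq_norm_sq, normSq_eq_norm_sq, hq, hq'] at k1 k2
  have hc : dn B / dn B' = 1 := by linear_combination -k1 - k2
  rw [hc] at k2
  have htt : t = t' := by linarith
  refine ⟨htt, fun h0 h1 => isQ_of_diagonal ?_ (k3 (by linarith) h0)⟩
  rw [map_mul, map_inv₀, normSq_eq_norm_sq, normSq_eq_norm_sq, hq, hq']
  norm_num

/-! ### The parametrisation of the orbifold -/

/-- The point of the compactified `ℝ⁴` with parameters `q`, `t`. -/
def Phi0 (q : ℍ[ℝ]) (t : ℝ) : OnePoint E4 :=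
  open Classical in
  if t = 1 then OnePoint.infty else ((√(t / (1 - t)) • Th q : E4) : OnePoint E4)

lemma Phi0_one (q : ℍ[ℝ]) : Phi0 q 1 = OnePoint.infty := by simp [Phi0]

lemma Phi0_of_ne (q : ℍ[ℝ]) {t : ℝ} (ht : t ≠ 1) :
    Phi0 q t = ((√(t / (1 - t)) • Th q : E4) : OnePoint E4) := by simp [Phi0, ht]

lemma Phi0_zero (q : ℍ[ℝ]) : Phi0 q 0 = ((0 : E4) : OnePoint E4) := by
  rw [Phi0_of_ne q zero_ne_one]
  simp

lemma Phi0_eq_Jhat {q : ℍ[ℝ]} (hq : ‖q‖ = 1) {t : ℝ} (ht : t ∈ Icc (0 : ℝ) 1) (h0 : 0 < t) :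
    Phi0 q t = Jhat (√((1 - t) / t) • Th q) := by
  by_cases h1 : t = 1
  · subst h1
    rw [Phi0_one]
    have : √((1 - (1 : ℝ)) / 1) • Th q = 0 := by simp
    rw [this, Jhat_zero]
  · have ht1 : t < 1 := lt_of_le_of_ne ht.2 h1
    rw [Phi0_of_ne q h1]
    have hs : 0 < (1 - t) / t := div_pos (by linarith) h0
    have hs' : 0 < √((1 - t) / t) := Real.sqrt_pos.2 hs
    have hnorm : ‖Th q‖ = 1 := by rw [LinearIsometryEquiv.norm_map, hq]
    have hne : √((1 - t) / t) • Th q ≠ 0 := by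
      apply smul_ne_zero hs'.ne'
      intro h
      rw [h, norm_zero] at hnorm
      exact zero_ne_one hnorm
    rw [Jhat_of_ne hne]
    congr 1
    unfold Jv
    rw [norm_smul, hnorm, mul_one, Real.norm_eq_abs, sq_abs, Real.sq_sqrt hs.le, smul_smul]
    congr 1
    have e1 : t / (1 - t) = ((1 - t) / t)⁻¹ := by rw [inv_div]
    rw [e1, Real.sqrt_inv]
    field_simp
    rw [Real.sq_sqrt hs.le]
    field_simp

lemma continuous_Phi0 : Continuous (fun p : PP => Phi0 p.1 p.2) := by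
  rw [continuous_iff_continuousAt]
  rintro ⟨⟨q, hq⟩, ⟨t, ht⟩⟩
  have hc1 : Continuous (fun p : PP => (p.1 : ℍ[ℝ])) := continuous_subtype_val.comp continuous_fst
  have hc2 : Continuous (fun p : PP => (p.2 : ℝ)) := continuous_subtype_val.comp continuous_snd
  have hcT : Continuous (fun p : PP => Th (p.1 : ℍ[ℝ])) := Th.continuous.comp hc1
  by_cases h1 : t = 1
  · have h2 : (fun p : PP => Phi0 p.1 p.2) =ᶠ[𝓝 (⟨⟨q, hq⟩, ⟨t, ht⟩⟩ : PP)]
        fun p : PP => Jhat (√((1 - (p.2 : ℝ)) / p.2) • Th (p.1 : ℍ[ℝ])) := by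
      have h3 : ∀ᶠ p : PP in 𝓝 (⟨⟨q, hq⟩, ⟨t, ht⟩⟩ : PP), (0 : ℝ) < p.2 := by
        apply hc2.continuousAt.eventually (lt_mem_nhds _)
        change 0 < t
        rw [h1]; exact one_pos
      filter_upwards [h3] with p hp
      exact Phi0_eq_Jhat (mem_sphere_zero_iff_norm.1 p.1.2) p.2.2 hp
    refine ContinuousAt.congr ?_ h2.symm
    apply continuous_Jhat.continuousAt.comp
    refine ContinuousAt.fun_smul ?_ hcT.continuousAt
    apply Real.continuous_sqrt.continuousAt.comp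
    apply ContinuousAt.div
    · exact (continuous_const.sub hc2).continuousAt
    · exact hc2.continuousAt
    · change t ≠ 0
      rw [h1]; exact one_ne_zero
  · have h2 : (fun p : PP => Phi0 p.1 p.2) =ᶠ[𝓝 (⟨⟨q, hq⟩, ⟨t, ht⟩⟩ : PP)]
        fun p : PP => ((√((p.2 : ℝ) / (1 - p.2)) • Th (p.1 : ℍ[ℝ]) : E4) : OnePoint E4) := by
      have h3 : ∀ᶠ p : PP in 𝓝 (⟨⟨q, hq⟩, ⟨t, ht⟩⟩ : PP), (p.2 : ℝ) ≠ 1 :=
        hc2.continuousAt.eventually_ne h1
      filter_upwards [h3] with p hp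
      exact Phi0_of_ne _ hp
    refine ContinuousAt.congr ?_ h2.symm
    apply OnePoint.continuous_coe.continuousAt.comp
    refine ContinuousAt.fun_smul ?_ hcT.continuousAt
    apply Real.continuous_sqrt.continuousAt.comp
    apply ContinuousAt.div
    · exact hc2.continuousAt
    · exact (continuous_const.sub hc2).continuousAt
    · change 1 - t ≠ 0
      intro h
      apply h1
      linarith

/-- The point of the orbifold with parameters `q`, `t`. -/
def Phi (q : ℍ[ℝ]) (t : ℝ) : V4 := mkV (Phi0 q t)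

lemma continuous_Phi : Continuous (fun p : PP => Phi p.1 p.2) :=
  continuous_mkV.comp continuous_Phi0

lemma Phi_unique {z : F4} {q q' : ℍ[ℝ]} {t t' : ℝ} (hq : ‖q‖ = 1) (hq' : ‖q'‖ = 1)
    (ht : t ∈ Icc (0 : ℝ) 1) (ht' : t' ∈ Icc (0 : ℝ) 1) (h : Rel z q t) (h' : Rel z q' t') :
    Phi q t = Phi q' t' := by
  obtain ⟨h1, h2⟩ := Rel_unique hq hq' ht ht' h h'
  subst h1
  unfold Phi
  by_cases h0 : t = 0
  · rw [h0, Phi0_zero, Phi0_zero]
  by_cases h1 : t = 1
  · rw [h1, Phi0_one, Phi0_one]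
  have h0' : 0 < t := lt_of_le_of_ne ht.1 (Ne.symm h0)
  have h1' : t < 1 := lt_of_le_of_ne ht.2 h1
  rw [Phi0_of_ne q h1, Phi0_of_ne q' h1, mkV_coe_eq_iff, exists_mem_Q8_iff]
  refine ⟨q⁻¹ * q', h2 h0' h1', ?_⟩
  rw [map_smul, map_smul, LinearIsometryEquiv.symm_apply_apply,
    LinearIsometryEquiv.symm_apply_apply, smul_mul_assoc, ← mul_assoc,
    mul_inv_cancel₀ (q_ne_zero hq), one_mul]

/-- The map from `ℝ⁴` to the orbifold. -/
def pz (z : F4) : V4 :=
  Phi (Classical.choose (exists_Rel z))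
    (Classical.choose (Classical.choose_spec (exists_Rel z)).2)

lemma pz_eq {z : F4} {q : ℍ[ℝ]} {t : ℝ} (hq : ‖q‖ = 1) (ht : t ∈ Icc (0 : ℝ) 1)
    (h : Rel z q t) : pz z = Phi q t := by
  have h1 := Classical.choose_spec (exists_Rel z)
  have h2 := Classical.choose_spec h1.2
  exact Phi_unique h1.1 hq h2.1 ht h2.2 h

/-- A general continuity criterion. -/
lemma preimage_pz (K : Set V4) : pz ⁻¹' K =
    Prod.fst '' {p : F4 × PP | Rel p.1 p.2.1 p.2.2 ∧ Phi p.2.1 p.2.2 ∈ K} := by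
  ext z
  constructor
  · intro hz
    obtain ⟨q, hq, t, ht, h⟩ := exists_Rel z
    refine ⟨⟨z, ⟨⟨q, mem_sphere_zero_iff_norm.2 hq⟩, ⟨t, ht⟩⟩⟩, ⟨h, ?_⟩, rfl⟩
    change Phi q t ∈ K
    rw [← pz_eq hq ht h]
    exact hz
  · rintro ⟨⟨z', ⟨⟨q, hq⟩, ⟨t, ht⟩⟩⟩, ⟨h1, h2⟩, rfl⟩
    change pz z' ∈ K
    rw [pz_eq (mem_sphere_zero_iff_norm.1 hq) ht h1]
    exact h2

instance : CompactSpace PP := by
  have : ProperSpace ℍ[ℝ] := FiniteDimensional.proper ℝ _
  infer_instance

theorem continuous_pz : Continuous pz := by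
  rw [continuous_iff_isClosed]
  intro K hK
  rw [preimage_pz]
  apply isClosedMap_fst_of_compactSpace
  have h1 : Continuous (fun p : F4 × PP => (p.1, ((p.2.1 : ℍ[ℝ]), (p.2.2 : ℝ)))) := by
    fun_prop
  exact (isClosed_Rel.preimage h1).inter (hK.preimage (continuous_Phi.comp continuous_snd))

/-- The matrix with given parameters. -/
def BP (p : PP) : M3 := Bm p.1 (1 - (p.2 : ℝ)) p.2

lemma continuous_BP : Continuous BP := by
  apply continuous_matrix
  intro i j
  unfold BP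
  simp only [Bm_apply]
  have h0 : Continuous (fun p : PP => (p.1 : ℍ[ℝ])) := continuous_subtype_val.comp continuous_fst
  have h5 : Continuous (fun p : PP => (p.2 : ℝ)) := continuous_subtype_val.comp continuous_snd
  have h1 := (continuous_Rm i 0).comp h0
  have h2 := (continuous_Rm j 0).comp h0
  have h3 := (continuous_Rm i 2).comp h0
  have h4 := (continuous_Rm j 2).comp h0
  exact ((continuous_const.sub h5).mul (h1.mul h2)).sub (h5.mul (h3.mul h4))

/-- Preimages of closed sets away from the second singular point are compact. -/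
theorem isCompact_preimage_pz {K : Set V4} (hK : IsClosed K) (h2 : q2 ∉ K) :
    IsCompact (pz ⁻¹' K) := by
  have hcl : IsClosed {p : PP | Phi p.1 p.2 ∈ K} := hK.preimage continuous_Phi
  have hlt : ∀ p ∈ {p : PP | Phi p.1 p.2 ∈ K}, (p.2 : ℝ) < 1 := by
    intro p hp
    apply lt_of_le_of_ne p.2.2.2
    intro h
    apply h2
    have : Phi p.1 p.2 ∈ K := hp
    unfold Phi at this
    rw [h, Phi0_one] at this
    exact this
  have hcont : ContinuousOn (fun p : PP => sig (BP p)) {p : PP | Phi p.1 p.2 ∈ K} := by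
    intro p hp
    apply ContinuousAt.continuousWithinAt
    have hd : 0 < dn (BP p) :=
      dn_Bm_pos (q_ne_zero (mem_sphere_zero_iff_norm.1 p.1.2)) (by linarith [hlt p hp]) p.2.2.1
    have c1 : ContinuousAt (fun p : PP => (dn (BP p))⁻¹) p :=
      (continuous_dn.comp continuous_BP).continuousAt.inv₀ hd.ne'
    have c2 : ContinuousAt (fun p : PP => Pv (BP p)) p :=
      (continuous_Pv.comp continuous_BP).continuousAt
    exact c1.fun_smul c2
  have heq : pz ⁻¹' K = (fun p : PP => sig (BP p)) '' {p : PP | Phi p.1 p.2 ∈ K} := by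
    rw [preimage_pz]
    ext z
    constructor
    · rintro ⟨⟨z', p⟩, ⟨h1, h3⟩, rfl⟩
      refine ⟨p, h3, ?_⟩
      exact (Rel_iff_of_lt (mem_sphere_zero_iff_norm.1 p.1.2) p.2.2 (hlt p h3) z').1 h1
    · rintro ⟨p, h3, rfl⟩
      refine ⟨⟨_, p⟩, ⟨?_, h3⟩, rfl⟩
      exact (Rel_iff_of_lt (mem_sphere_zero_iff_norm.1 p.1.2) p.2.2 (hlt p h3) _).2 rfl
  rw [heq]
  exact hcl.isCompact.image_of_continuousOn hcont

end Pool.Agent.H78.Orb
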