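import Mathlib
import Pool.Agent.H78.Orb.Defs
import Pool.Agent.H78.Orb.Group
import Pool.Agent.H78.Orb.Space
import Pool.Agent.H78.Orb.Orbifold
import Pool.Agent.H78.Orb.Sym
import Pool.Agent.H78.Orb.Rot
import Pool.Agent.H78.Orb.Fmap
import Pool.Agent.H78.Orb.Exist
import Pool.Agent.H78.Orb.Rel

/-!
The fibres of the map from `ℝ⁴` to the orbifold.
-/

open Set Metric Topology Matrix Filter
open scoped Manifold ContDiff Quaternion

noncomputable section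

namespace Pool.Agent.H78.Orb

lemma Phi_eq_q1_iff {q : ℍ[ℝ]} (hq : ‖q‖ = 1) {t : ℝ} (ht : t ∈ Icc (0 : ℝ) 1) :
    Phi q t = q1 ↔ t = 0 := by
  constructor
  · intro h
    by_cases h1 : t = 1
    · exfalso
      unfold Phi at h
      rw [h1, Phi0_one] at h
      exact q1_ne_q2 h.symm
    · unfold Phi q1 at h
      rw [Phi0_of_ne q h1, mkV_coe_eq_zero_iff, smul_eq_zero] at h
      have ht1 : t < 1 := lt_of_le_of_ne ht.2 h1
      rcases h with h | h
      · rw [Real.sqrt_eq_zero (div_nonneg ht.1 (by linarith)), div_eq_zero_iff] at h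
        rcases h with h | h
        · exact h
        · linarith
      · exfalso
        have : ‖Th q‖ = 1 := by rw [LinearIsometryEquiv.norm_map, hq]
        rw [h, norm_zero] at this
        exact zero_ne_one this
  · rintro rfl
    unfold Phi q1
    rw [Phi0_zero]

lemma Phi_eq_q2_iff {q : ℍ[ℝ]} {t : ℝ} : Phi q t = q2 ↔ t = 1 := by
  constructor
  · intro h
    by_contra h1
    unfold Phi at h
    rw [Phi0_of_ne q h1] at h
    exact mkV_coe_ne_infty _ h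
  · rintro rfl
    unfold Phi q2
    rw [Phi0_one]

lemma pz_eq_q1_iff (z : F4) : pz z = q1 ↔ ∃ q : ℍ[ℝ], ‖q‖ = 1 ∧ Rel z q 0 := by
  constructor
  · intro h
    obtain ⟨q, hq, t, ht, hr⟩ := exists_Rel z
    rw [pz_eq hq ht hr, Phi_eq_q1_iff hq ht] at h
    subst h
    exact ⟨q, hq, hr⟩
  · rintro ⟨q, hq, hr⟩
    have h0 : (0 : ℝ) ∈ Icc (0 : ℝ) 1 := by simp
    rw [pz_eq hq h0 hr, Phi_eq_q1_iff hq h0]

lemma pz_eq_q2_iff (z : F4) : pz z = q2 ↔ ∃ q : ℍ[ℝ], ‖q‖ = 1 ∧ Rel z q 1 := by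
  constructor
  · intro h
    obtain ⟨q, hq, t, ht, hr⟩ := exists_Rel z
    rw [pz_eq hq ht hr, Phi_eq_q2_iff] at h
    subst h
    exact ⟨q, hq, hr⟩
  · rintro ⟨q, hq, hr⟩
    have h0 : (1 : ℝ) ∈ Icc (0 : ℝ) 1 := by simp
    rw [pz_eq hq h0 hr, Phi_eq_q2_iff]

/-! ### The regular part -/

lemma Bx_eq {x : E4} (hx : x ≠ 0) : ∃ q : ℍ[ℝ], ‖q‖ = 1 ∧ ‖x‖ • Th q = x ∧
    ∃ c : ℝ, 0 < c ∧
      Bx x = c • Bm q (1 - ‖x‖ ^ 2 / (1 + ‖x‖ ^ 2)) (‖x‖ ^ 2 / (1 + ‖x‖ ^ 2)) := by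
  have hx' : 0 < ‖x‖ := norm_pos_iff.2 hx
  have hX : ‖Th.symm x‖ = ‖x‖ := LinearIsometryEquiv.norm_map _ _
  refine ⟨‖x‖⁻¹ • Th.symm x, ?_, ?_, ‖x‖ ^ 4 * (1 + ‖x‖ ^ 2), by positivity, ?_⟩
  · rw [norm_smul, norm_inv, norm_norm, hX, inv_mul_cancel₀ hx'.ne']
  · rw [map_smul, smul_smul, mul_inv_cancel₀ hx'.ne', one_smul,
      LinearIsometryEquiv.apply_symm_apply]
  · unfold Bx nq
    rw [normSq_eq_norm_sq, hX, mul_smul, ← Bm_scale, ← Bm_smul, smul_smul,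
      mul_inv_cancel₀ hx'.ne', one_smul]
    congr 1
    · field_simp; ring
    · field_simp

lemma sig_smul {c : ℝ} (hc : 0 < c) (B : M3) : sig (c • B) = sig B := by
  have := sig_smul_add hc 0 B
  rwa [zero_smul, add_zero] at this

lemma dn_smul {c : ℝ} (hc : 0 < c) (B : M3) : dn (c • B) = c * dn B := by
  have := dn_smul_add hc.le 0 B
  rwa [zero_smul, add_zero] at this

/-- The composition with the parametrisation is the quotient map. -/
theorem pz_Fm {x : E4} (hx : x ≠ 0) : pz (Fm x) = mkV x := by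
  obtain ⟨q, hq, hqx, c, hc, h⟩ := Bx_eq hx
  have hx' : 0 < ‖x‖ := norm_pos_iff.2 hx
  set t := ‖x‖ ^ 2 / (1 + ‖x‖ ^ 2) with ht
  have ht0 : 0 ≤ t := by positivity
  have ht1 : t < 1 := by
    rw [ht, div_lt_one (by positivity)]; linarith
  have htI : t ∈ Icc (0 : ℝ) 1 := ⟨ht0, ht1.le⟩
  have hrel : Rel (Fm x) q t := by
    rw [Rel_iff_of_lt hq htI ht1]
    unfold Fm
    rw [h, sig_smul hc]
  rw [pz_eq hq htI hrel]
  unfold Phi
  rw [Phi0_of_ne q ht1.ne]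
  congr 2
  have e : t / (1 - t) = ‖x‖ ^ 2 := by
    rw [ht]; field_simp; ring
  rw [e, Real.sqrt_sq hx'.le, hqx]

/-- Points over the regular part are in the image of the parametrisation. -/
theorem exists_Fm_of_ne {z : F4} (h1 : pz z ≠ q1) (h2 : pz z ≠ q2) :
    ∃ x : E4, x ≠ 0 ∧ Fm x = z := by
  obtain ⟨q, hq, t, ht, hr⟩ := exists_Rel z
  rw [pz_eq hq ht hr] at h1 h2
  have h0 : t ≠ 0 := fun h => h1 ((Phi_eq_q1_iff hq ht).2 h)
  have h1' : t ≠ 1 := fun h => h2 (Phi_eq_q2_iff.2 h)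
  have ht0 : 0 < t := lt_of_le_of_ne ht.1 (Ne.symm h0)
  have ht1 : t < 1 := lt_of_le_of_ne ht.2 h1'
  have hs : 0 < t / (1 - t) := div_pos ht0 (by linarith)
  have hs' : 0 < √(t / (1 - t)) := Real.sqrt_pos.2 hs
  have hsq := Real.sq_sqrt hs.le
  set r := √(t / (1 - t)) with hr'
  have hx0 : r • Th q ≠ 0 := by
    apply smul_ne_zero hs'.ne'
    intro h
    have : ‖Th q‖ = 1 := by rw [LinearIsometryEquiv.norm_map, hq]
    rw [h, norm_zero] at this
    exact zero_ne_one this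
  refine ⟨r • Th q, hx0, ?_⟩
  have hT : Th.symm (r • Th q) = r • q := by
    rw [map_smul, LinearIsometryEquiv.symm_apply_apply]
  have hn : nq (r • Th q) = t / (1 - t) := by
    unfold nq
    rw [hT, normSq_eq_norm_sq, norm_smul, hq, mul_one, Real.norm_eq_abs, sq_abs, hsq]
  have h1t : 0 < 1 - t := by linarith
  have hB : Bx (r • Th q) = (r ^ 4 * (1 / (1 - t))) • Bm q (1 - t) t := by
    unfold Bx
    rw [hT, hn, Bm_smul, mul_smul]
    congr 1
    rw [← Bm_scale]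
    congr 1
    · field_simp
    · field_simp
  unfold Fm
  rw [hB, sig_smul (by positivity)]
  exact (Rel_iff_of_lt hq ht ht1 z).1 hr

/-! ### The first fibre -/

lemma rank_quat : 1 < Module.rank ℝ ℍ[ℝ] := by
  rw [Quaternion.rank_eq_four]
  norm_num

lemma isConnected_sphere_quat : IsConnected (sphere (0 : ℍ[ℝ]) 1) :=
  isConnected_sphere rank_quat 0 zero_le_one

lemma preimage_q1 : pz ⁻¹' {q1} = (fun q : ℍ[ℝ] => sig (Bm q 1 0)) '' sphere (0 : ℍ[ℝ]) 1 := by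
  ext z
  rw [mem_preimage, mem_singleton_iff, pz_eq_q1_iff]
  have h0 : (0 : ℝ) ∈ Icc (0 : ℝ) 1 := by simp
  constructor
  · rintro ⟨q, hq, hr⟩
    refine ⟨q, mem_sphere_zero_iff_norm.2 hq, ?_⟩
    have := (Rel_iff_of_lt hq h0 one_pos z).1 hr
    rwa [sub_zero] at this
  · rintro ⟨q, hq, rfl⟩
    rw [mem_sphere_zero_iff_norm] at hq
    refine ⟨q, hq, ?_⟩
    rw [Rel_iff_of_lt hq h0 one_pos, sub_zero]

lemma continuousOn_sig_Bm (α β : ℝ) {S : Set ℍ[ℝ]} (h : ∀ q ∈ S, dn (Bm q α β) ≠ 0) :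
    ContinuousOn (fun q : ℍ[ℝ] => sig (Bm q α β)) S := by
  intro q hq
  apply ContinuousAt.continuousWithinAt
  have hB : Continuous (fun q : ℍ[ℝ] => Bm q α β) := by
    apply continuous_matrix
    intro i j
    simp only [Bm_apply]
    have h1 := continuous_Rm i 0
    have h2 := continuous_Rm j 0
    have h3 := continuous_Rm i 2
    have h4 := continuous_Rm j 2
    fun_prop
  have c1 : ContinuousAt (fun q : ℍ[ℝ] => (dn (Bm q α β))⁻¹) q :=
    (continuous_dn.comp hB).continuousAt.inv₀ (h q hq)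
  have c2 : ContinuousAt (fun q : ℍ[ℝ] => Pv (Bm q α β)) q := (continuous_Pv.comp hB).continuousAt
  exact c1.fun_smul c2

theorem isConnected_preimage_q1 : IsConnected (pz ⁻¹' {q1}) := by
  rw [preimage_q1]
  apply isConnected_sphere_quat.image
  apply continuousOn_sig_Bm
  intro q hq
  exact (dn_Bm_pos (q_ne_zero (mem_sphere_zero_iff_norm.1 hq)) one_pos le_rfl).ne'

/-! ### The second fibre -/

/-- The quaternion with given complex coordinates. -/
def qc (w : ℂ × ℂ) : ℍ[ℝ] := ⟨w.1.re, w.2.re, w.2.im, w.1.im⟩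

lemma continuous_qc : Continuous qc := by
  have h : qc = fun w : ℂ × ℂ => Quaternion.linearIsometryEquivTuple.symm
      (WithLp.toLp 2 ![w.1.re, w.2.re, w.2.im, w.1.im]) := by
    funext w
    rw [Quaternion.linearIsometryEquivTuple_symm_apply]
    rfl
  rw [h]
  apply Quaternion.linearIsometryEquivTuple.symm.continuous.comp
  refine (PiLp.continuous_toLp 2 (fun _ : Fin 4 => ℝ)).comp (continuous_pi fun i => ?_)
  fin_cases i
  · exact Complex.continuous_re.comp continuous_fst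
  · exact Complex.continuous_re.comp continuous_snd
  · exact Complex.continuous_im.comp continuous_snd
  · exact Complex.continuous_im.comp continuous_fst

lemma dn_Bm_zero_one (q : ℍ[ℝ]) :
    dn (Bm q 0 1) = 6 * ((q.re ^ 2 + q.imK ^ 2) * (q.imI ^ 2 + q.imJ ^ 2)) := by
  unfold dn
  rw [norm_Bm]
  have hw : wv (Bm q 0 1) = -(Quaternion.normSq q ^ 2) / 3 + (Rm q 2 2) ^ 2 := by
    unfold wv
    simp only [Bm_apply]
    have h3 := Rm_col q 2 2
    rw [if_pos rfl] at h3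
    linear_combination - (1 / 3) * h3
  have h1 : Quaternion.normSq q ^ 4 * (0 ^ 2 + 0 * 1 + 1 ^ 2) = (Quaternion.normSq q ^ 2) ^ 2 := by
    ring
  rw [h1, Real.sqrt_sq (by positivity), hw, Quaternion.normSq_def']
  simp [Rm]
  ring

lemma preimage_q2 : pz ⁻¹' {q2} =
    (fun w : ℂ × ℂ => sig (Bm (qc w) 0 1)) '' (({0}ᶜ : Set ℂ) ×ˢ ({0}ᶜ : Set ℂ)) := by
  ext z
  rw [mem_preimage, mem_singleton_iff, pz_eq_q2_iff]
  have h0 : (1 : ℝ) ∈ Icc (0 : ℝ) 1 := by simp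
  constructor
  · rintro ⟨q, hq, hr⟩
    rw [Rel_iff hq h0, sub_self] at hr
    obtain ⟨hd, hs⟩ := hr
    rw [dn_Bm_zero_one] at hd
    have hqc : qc (⟨q.re, q.imK⟩, ⟨q.imI, q.imJ⟩) = q := rfl
    refine ⟨(⟨q.re, q.imK⟩, ⟨q.imI, q.imJ⟩), ⟨?_, ?_⟩, ?_⟩
    · intro h
      have h1 := congrArg Complex.re h
      have h2 := congrArg Complex.im h
      simp only [Complex.zero_re, Complex.zero_im] at h1 h2
      rw [h1, h2] at hd
      norm_num at hd
    · intro h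
      have h1 := congrArg Complex.re h
      have h2 := congrArg Complex.im h
      simp only [Complex.zero_re, Complex.zero_im] at h1 h2
      rw [h1, h2] at hd
      norm_num at hd
    · change sig (Bm (qc (⟨q.re, q.imK⟩, ⟨q.imI, q.imJ⟩)) 0 1) = z
      rw [hqc, hs]
  · rintro ⟨w, ⟨hw1, hw2⟩, rfl⟩
    have hd : 0 < dn (Bm (qc w) 0 1) := by
      rw [dn_Bm_zero_one]
      have e1 : 0 < w.1.re ^ 2 + w.1.im ^ 2 := by
        have := Complex.normSq_pos.2 hw1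
        rw [Complex.normSq_apply] at this
        nlinarith
      have e2 : 0 < w.2.re ^ 2 + w.2.im ^ 2 := by
        have := Complex.normSq_pos.2 hw2
        rw [Complex.normSq_apply] at this
        nlinarith
      change 0 < 6 * ((w.1.re ^ 2 + w.1.im ^ 2) * (w.2.re ^ 2 + w.2.im ^ 2))
      positivity
    have hq0 : qc w ≠ 0 := by
      intro h
      rw [dn_Bm_zero_one, h] at hd
      norm_num at hd
    have hn : 0 < ‖qc w‖ := norm_pos_iff.2 hq0
    have hB : Bm (qc w) 0 1 = ‖qc w‖ ^ 4 • Bm (‖qc w‖⁻¹ • qc w) 0 1 := by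
      rw [← Bm_smul, smul_smul, mul_inv_cancel₀ hn.ne', one_smul]
    have hq1 : ‖‖qc w‖⁻¹ • qc w‖ = 1 := by
      rw [norm_smul, norm_inv, norm_norm, inv_mul_cancel₀ hn.ne']
    refine ⟨‖qc w‖⁻¹ • qc w, hq1, ?_⟩
    rw [Rel_iff hq1 h0, sub_self]
    constructor
    · rw [hB, dn_smul (by positivity)] at hd
      exact (pos_iff_pos_of_mul_pos hd).1 (by positivity)
    · change _ = sig (Bm (qc w) 0 1)
      rw [hB, sig_smul (by positivity)]

theorem isConnected_preimage_q2 : IsConnected (pz ⁻¹' {q2}) := by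
  rw [preimage_q2]
  have hC : IsConnected ({0}ᶜ : Set ℂ) := by
    apply isConnected_compl_singleton_of_one_lt_rank
    rw [Complex.rank_real_complex]
    norm_num
  apply (hC.prod hC).image
  have h1 : ContinuousOn (fun q : ℍ[ℝ] => sig (Bm q 0 1)) {q | dn (Bm q 0 1) ≠ 0} :=
    continuousOn_sig_Bm 0 1 fun q hq => hq
  refine h1.comp continuous_qc.continuousOn ?_
  rintro w ⟨hw1, hw2⟩
  change dn (Bm (qc w) 0 1) ≠ 0
  rw [dn_Bm_zero_one]
  have e1 : 0 < w.1.re ^ 2 + w.1.im ^ 2 := by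
    have := Complex.normSq_pos.2 hw1
    rw [Complex.normSq_apply] at this
    nlinarith
  have e2 : 0 < w.2.re ^ 2 + w.2.im ^ 2 := by
    have := Complex.normSq_pos.2 hw2
    rw [Complex.normSq_apply] at this
    nlinarith
  change 6 * ((w.1.re ^ 2 + w.1.im ^ 2) * (w.2.re ^ 2 + w.2.im ^ 2)) ≠ 0
  positivity

/-- The second fibre is unbounded. -/
theorem unbounded_preimage_q2 (R : ℝ) : ∃ z ∈ pz ⁻¹' {q2}, R < ‖z‖ := by
  rw [preimage_q2]
  set ε : ℝ := 1 / (2 * (|R| + 1)) with hε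
  have hR : 0 ≤ |R| := abs_nonneg R
  have hε0 : 0 < ε := by positivity
  have hε1 : ε ≤ 1 / 2 := by
    rw [hε, div_le_div_iff₀ (by positivity) (by norm_num)]
    linarith
  refine ⟨sig (Bm (qc (1, ⟨0, ε⟩)) 0 1), ⟨(1, ⟨0, ε⟩), ⟨one_ne_zero, ?_⟩, rfl⟩, ?_⟩
  · intro h
    have := congrArg Complex.im h
    simp only [Complex.zero_im] at this
    exact hε0.ne' this
  · have h1 : |sig (Bm (qc (1, ⟨0, ε⟩)) 0 1) 2| ≤ ‖sig (Bm (qc (1, ⟨0, ε⟩)) 0 1)‖ := by
      have := PiLp.norm_apply_le (sig (Bm (qc (1, ⟨0, ε⟩)) 0 1)) 2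
      rwa [Real.norm_eq_abs] at this
    refine lt_of_lt_of_le ?_ h1
    rw [sig_apply, Pv_apply2, dn_Bm_zero_one, Bm_apply]
    have e1 : Rm (qc (1, ⟨0, ε⟩)) 0 2 = 2 * ε := by simp [Rm, qc]
    have e2 : Rm (qc (1, ⟨0, ε⟩)) 2 2 = 1 - ε ^ 2 := by simp [Rm, qc]
    have e3 : ((qc (1, ⟨0, ε⟩)).re ^ 2 + (qc (1, ⟨0, ε⟩)).imK ^ 2) *
        ((qc (1, ⟨0, ε⟩)).imI ^ 2 + (qc (1, ⟨0, ε⟩)).imJ ^ 2) = ε ^ 2 := by simp [qc]
    rw [e1, e2, e3]
    have e4 : (6 * ε ^ 2)⁻¹ * (2 * (0 * (Rm (qc (1, ⟨0, ε⟩)) 0 0 * Rm (qc (1, ⟨0, ε⟩)) 2 0)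
        - 1 * (2 * ε * (1 - ε ^ 2)))) = -((2 / 3) * (1 - ε ^ 2) / ε) := by
      field_simp
      ring
    rw [e4, abs_neg, abs_of_nonneg (by
      apply div_nonneg _ hε0.le
      nlinarith)]
    have e5 : 1 / (2 * ε) ≤ (2 / 3) * (1 - ε ^ 2) / ε := by
      rw [div_le_div_iff₀ (by positivity) hε0]
      nlinarith
    refine lt_of_lt_of_le ?_ e5
    have e6 : 1 / (2 * ε) = |R| + 1 := by
      rw [hε]; field_simp
    rw [e6]
    have := le_abs_self R
    linarith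

end Pool.Agent.H78.Orb
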