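import Mathlib
import Pool.Agent.H78.Orb.Defs
import Pool.Agent.H78.Orb.Fmap
import Pool.Agent.H78.Orb.Deriv

/-!
Local diffeomorphisms from the inverse function theorem.
-/

open Set Metric Topology Filter
open scoped Manifold ContDiff Quaternion

noncomputable section

namespace Pool.Agent.H78.Orb

/-- A smooth map with injective derivatives is a local diffeomorphism. -/
lemma isLocalDiffeomorphAt_of_inj {f : E4 → F4} {U : Set E4} (hU : IsOpen U)
    (hf : ∀ y ∈ U, ContDiffAt ℝ ∞ f y)
    (hinj : ∀ y ∈ U, ∀ v, fderiv ℝ f y v = 0 → v = 0) {x : E4} (hx : x ∈ U) :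
    IsLocalDiffeomorphAt 𝓘(ℝ, E4) 𝓘(ℝ, F4) ∞ f x := by
  have hdim : Module.finrank ℝ E4 = Module.finrank ℝ F4 := by
    rw [Quaternion.finrank_eq_four, finrank_euclideanSpace_fin]
  have hL : ∀ y ∈ U, ∃ L : E4 ≃L[ℝ] F4, HasFDerivAt f (L : E4 →L[ℝ] F4) y := by
    intro y hy
    have hi : Function.Injective (fderiv ℝ f y : E4 →ₗ[ℝ] F4) := by
      rw [injective_iff_map_eq_zero]
      exact hinj y hy
    refine ⟨(LinearMap.linearEquivOfInjective _ hi hdim).toContinuousLinearEquiv, ?_⟩
    have h1 : (((LinearMap.linearEquivOfInjective _ hi hdim).toContinuousLinearEquiv :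
        E4 ≃L[ℝ] F4) : E4 →L[ℝ] F4) = fderiv ℝ f y := by
      refine ContinuousLinearMap.ext fun v => ?_
      rfl
    rw [h1]
    exact ((hf y hy).differentiableAt (by simp)).hasFDerivAt
  obtain ⟨L, hLx⟩ := hL x hx
  set e := (hf x hx).toOpenPartialHomeomorph f hLx (by simp) with he
  have hcoe : ∀ y, e y = f y := fun y => rfl
  have hxe : x ∈ e.source := (hf x hx).mem_toOpenPartialHomeomorph_source hLx (by simp)
  set e' := e.restrOpen U hU with he'
  have hcoe' : ∀ y, e' y = f y := fun y => rfl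
  have hs' : e'.source = e.source ∩ U := e.restrOpen_source U hU
  have hsub : ∀ y ∈ e'.source, y ∈ U := by
    intro y hy
    rw [hs'] at hy
    exact hy.2
  refine ⟨{ toPartialEquiv := e'.toPartialEquiv
            open_source := e'.open_source
            open_target := e'.open_target
            contMDiffOn_toFun := ?_
            contMDiffOn_invFun := ?_ }, ?_, fun y _ => rfl⟩
  · rw [contMDiffOn_iff_contDiffOn]
    intro y hy
    exact (hf y (hsub y hy)).contDiffWithinAt
  · rw [contMDiffOn_iff_contDiffOn]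
    intro z hz
    have hy : e'.symm z ∈ e'.source := e'.map_target hz
    obtain ⟨L', hL'⟩ := hL _ (hsub _ hy)
    exact (e'.contDiffAt_symm hz hL' (hf _ (hsub _ hy))).contDiffWithinAt
  · change x ∈ e'.source
    rw [hs']
    exact ⟨hxe, hx⟩

lemma isLocalDiffeomorphAt_Fm {x : E4} (hx : x ≠ 0) :
    IsLocalDiffeomorphAt 𝓘(ℝ, E4) 𝓘(ℝ, F4) ∞ Fm x :=
  isLocalDiffeomorphAt_of_inj (U := {0}ᶜ) isOpen_compl_singleton (fun _ hy => contDiffAt_Fm hy)
    (fun _ hy _ hv => fderiv_Fm_inj hy hv) hx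

end Pool.Agent.H78.Orb
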