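import Mathlib
import Pool.Agent.H78.Orb.Defs
import Pool.Agent.H78.Orb.Space
import Pool.Agent.H78.Orb.Orbifold
import Pool.Agent.H78.Orb.LocDiff
import Pool.Agent.H78.Orb.Rel
import Pool.Agent.H78.Orb.Fibres

/-!
The resolution of the spherical orbifold by an arbitrary closed connected 4-manifold.
-/

open Set Metric Topology Filter
open scoped Manifold ContDiff Quaternion

noncomputable section

namespace Pool.Agent.H78.Orb

/-! ### Local diffeomorphisms -/

section locdiff

variable {EA EB EC : Type*} [NormedAddCommGroup EA] [NormedSpace ℝ EA]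
  [NormedAddCommGroup EB] [NormedSpace ℝ EB] [NormedAddCommGroup EC] [NormedSpace ℝ EC]
  {A B C : Type*} [TopologicalSpace A] [ChartedSpace EA A] [TopologicalSpace B]
  [ChartedSpace EB B] [TopologicalSpace C] [ChartedSpace EC C]

lemma localDiffeo_congr {f g : A → B} {x : A}
    (hf : IsLocalDiffeomorphAt 𝓘(ℝ, EA) 𝓘(ℝ, EB) ∞ f x) (h : g =ᶠ[𝓝 x] f) :
    IsLocalDiffeomorphAt 𝓘(ℝ, EA) 𝓘(ℝ, EB) ∞ g x := by
  obtain ⟨Φ, hx, hΦ⟩ := hf
  obtain ⟨U, hU, hUo, hxU⟩ := eventually_nhds_iff.1 h
  set e := Φ.toOpenPartialHomeomorph.restrOpen U hUo with he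
  have hs : e.source = Φ.source ∩ U := Φ.toOpenPartialHomeomorph.restrOpen_source U hUo
  have hsub : e.source ⊆ Φ.source := by rw [hs]; exact inter_subset_left
  have htsub : e.target ⊆ Φ.target := by
    intro y hy
    have h1 : e.symm y ∈ e.source := e.map_target hy
    have h2 := Φ.toOpenPartialHomeomorph.map_source (hsub h1)
    have h3 : e (e.symm y) = y := e.right_inv hy
    have h4 : Φ.toOpenPartialHomeomorph (e.symm y) = e (e.symm y) := rfl
    rw [h4, h3] at h2
    exact h2
  refine ⟨{ toPartialEquiv := e.toPartialEquiv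
            open_source := e.open_source
            open_target := e.open_target
            contMDiffOn_toFun := Φ.contMDiffOn_toFun.mono hsub
            contMDiffOn_invFun := Φ.contMDiffOn_invFun.mono htsub }, ?_, ?_⟩
  · change x ∈ e.source
    rw [hs]
    exact ⟨hx, hxU⟩
  · intro y hy
    have hy' : y ∈ e.source := hy
    rw [hs] at hy'
    rw [hU y hy'.2]
    exact hΦ hy'.1

/-- Cancelling a local diffeomorphism on the right. -/
lemma localDiffeo_of_comp {f : A → B} {g : B → C} {k : A → C} {x : A}
    (hf : IsLocalDiffeomorphAt 𝓘(ℝ, EA) 𝓘(ℝ, EB) ∞ f x)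
    (hk : IsLocalDiffeomorphAt 𝓘(ℝ, EA) 𝓘(ℝ, EC) ∞ k x) (h : k =ᶠ[𝓝 x] g ∘ f) :
    IsLocalDiffeomorphAt 𝓘(ℝ, EB) 𝓘(ℝ, EC) ∞ g (f x) := by
  have h1 := hf.localInverse_isLocalDiffeomorphAt
  have h2 : hf.localInverse (f x) = x := hf.localInverse_left_inv hf.localInverse_mem_target
  have h3 : IsLocalDiffeomorphAt 𝓘(ℝ, EA) 𝓘(ℝ, EC) ∞ k (hf.localInverse (f x)) := by
    rw [h2]; exact hk
  have h4 := IsLocalDiffeomorphAt.comp (hf := h1) (hg := h3)
  refine localDiffeo_congr h4 ?_
  have h5 : ∀ᶠ y in 𝓝 (f x), y ∈ hf.localInverse.source :=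
    hf.localInverse_open_source.mem_nhds hf.localInverse_mem_source
  have h6 : ContinuousAt hf.localInverse (f x) := h1.contMDiffAt.continuousAt
  have h7 : ∀ᶠ y in 𝓝 (f x), k (hf.localInverse y) = (g ∘ f) (hf.localInverse y) := by
    have h8 : ∀ᶠ z in 𝓝 (hf.localInverse (f x)), k z = (g ∘ f) z := by
      rw [h2]; exact h
    exact h6.eventually h8
  filter_upwards [h5, h7] with y hy1 hy2
  change g y = k (hf.localInverse y)
  rw [hy2]
  change g y = g (f (hf.localInverse y))
  rw [hf.localInverse_right_inv hy1]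

end locdiff

/-! ### The chart ball -/

section mani

variable {E : Type*} [NormedAddCommGroup E] [NormedSpace ℝ E]
  {M : Type*} [TopologicalSpace M] [ChartedSpace E M] [IsManifold 𝓘(ℝ, E) ∞ M]

lemma isLocalDiffeomorphAt_univBall {c : F4} {r : ℝ} (hr : 0 < r) (x : F4) :
    IsLocalDiffeomorphAt 𝓘(ℝ, F4) 𝓘(ℝ, F4) ∞ (OpenPartialHomeomorph.univBall c r) x := by
  refine ⟨{ toPartialEquiv := (OpenPartialHomeomorph.univBall c r).toPartialEquiv
            open_source := (OpenPartialHomeomorph.univBall c r).open_source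
            open_target := (OpenPartialHomeomorph.univBall c r).open_target
            contMDiffOn_toFun := ?_
            contMDiffOn_invFun := ?_ }, ?_, fun y _ => rfl⟩
  · rw [contMDiffOn_iff_contDiffOn]
    exact OpenPartialHomeomorph.contDiff_univBall.contDiffOn
  · rw [contMDiffOn_iff_contDiffOn]
    change ContDiffOn ℝ ∞ (OpenPartialHomeomorph.univBall c r).symm
      (OpenPartialHomeomorph.univBall c r).target
    rw [OpenPartialHomeomorph.univBall_target c hr]
    exact OpenPartialHomeomorph.contDiffOn_univBall_symm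
  · change x ∈ (OpenPartialHomeomorph.univBall c r).source
    rw [OpenPartialHomeomorph.univBall_source]
    trivial

lemma isLocalDiffeomorphAt_chart_symm (p : M) {y : E} (hy : y ∈ (chartAt E p).target) :
    IsLocalDiffeomorphAt 𝓘(ℝ, E) 𝓘(ℝ, E) ∞ (chartAt E p).symm y := by
  have hm : chartAt E p ∈ IsManifold.maximalAtlas 𝓘(ℝ, E) ∞ M :=
    IsManifold.chart_mem_maximalAtlas p
  exact ⟨{ toPartialEquiv := (chartAt E p).symm.toPartialEquiv
           open_source := (chartAt E p).open_target
           open_target := (chartAt E p).open_source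
           contMDiffOn_toFun := contMDiffOn_symm_of_mem_maximalAtlas hm
           contMDiffOn_invFun := contMDiffOn_of_mem_maximalAtlas hm }, hy, fun y _ => rfl⟩

lemma one_lt_rank_F4 : 1 < Module.rank ℝ F4 := by
  rw [← Module.finrank_eq_rank]
  simp

/-- A chart ball: an open embedding of `ℝ⁴` with connected complement. -/
theorem exists_ball_embedding (hE : Module.finrank ℝ E = 4) [T2Space M] [ConnectedSpace M] :
    ∃ G : F4 → M, IsOpenEmbedding G ∧ IsLocalDiffeomorph 𝓘(ℝ, F4) 𝓘(ℝ, E) ∞ G ∧
      IsConnected (range G)ᶜ := by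
  obtain ⟨p⟩ : Nonempty M := inferInstance
  have hfin : FiniteDimensional ℝ E := Module.finite_of_finrank_pos (by rw [hE]; norm_num)
  have hdim : Module.finrank ℝ F4 = Module.finrank ℝ E := by
    rw [hE, finrank_euclideanSpace_fin]
  set L : F4 ≃L[ℝ] E := ContinuousLinearEquiv.ofFinrankEq hdim with hL
  set e₀ := chartAt E p with he₀
  set e : OpenPartialHomeomorph M F4 :=
    e₀.trans L.symm.toHomeomorph.toOpenPartialHomeomorph with he
  have hesymm : ∀ y, e.symm y = e₀.symm (L y) := fun y => rfl
  have htarget : ∀ y, y ∈ e.target → L y ∈ e₀.target := by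
    intro y hy
    rw [he, OpenPartialHomeomorph.trans_target] at hy
    exact hy.2
  have hsource : p ∈ e.source := by
    rw [he, OpenPartialHomeomorph.trans_source]
    exact ⟨mem_chart_source E p, trivial⟩
  set c := e p with hc
  have hct : c ∈ e.target := e.map_source hsource
  obtain ⟨r, hr, hball⟩ := Metric.nhds_basis_closedBall.mem_iff.1 (e.open_target.mem_nhds hct)
  set U := OpenPartialHomeomorph.univBall c r with hU
  have hUs : U.source = univ := OpenPartialHomeomorph.univBall_source c r
  have hUt : U.target = ball c r := OpenPartialHomeomorph.univBall_target c hr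
  have hbt : ball c r ⊆ e.target := ball_subset_closedBall.trans hball
  have hUmem : ∀ x, U x ∈ ball c r := by
    intro x
    rw [← hUt]
    exact U.map_source (by rw [hUs]; trivial)
  set G : F4 → M := fun x => e.symm (U x) with hG
  have hinj : InjOn e.symm e.target := e.symm.injOn
  have hld : IsLocalDiffeomorph 𝓘(ℝ, F4) 𝓘(ℝ, E) ∞ G := by
    intro x
    have h1 : IsLocalDiffeomorphAt 𝓘(ℝ, F4) 𝓘(ℝ, E) ∞ (fun y => L y) (U x) :=
      L.toDiffeomorph.isLocalDiffeomorph (U x)
    have h2 := IsLocalDiffeomorphAt.comp (hf := isLocalDiffeomorphAt_univBall hr x) (hg := h1)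
    exact IsLocalDiffeomorphAt.comp (hf := h2)
      (hg := isLocalDiffeomorphAt_chart_symm p (htarget _ (hbt (hUmem x))))
  have hGinj : Function.Injective G := by
    intro x y hxy
    have h1 := hinj (hbt (hUmem x)) (hbt (hUmem y)) hxy
    exact U.injOn (by rw [hUs]; trivial) (by rw [hUs]; trivial) h1
  have hemb : IsOpenEmbedding G :=
    IsOpenEmbedding.of_continuous_injective_isOpenMap hld.contMDiff.continuous hGinj hld.isOpenMap
  have hrange : range G = e.symm '' ball c r := by
    ext m
    constructor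
    · rintro ⟨x, rfl⟩
      exact ⟨U x, hUmem x, rfl⟩
    · rintro ⟨y, hy, rfl⟩
      refine ⟨U.symm y, ?_⟩
      change e.symm (U (U.symm y)) = e.symm y
      rw [U.right_inv (by rw [hUt]; exact hy)]
  refine ⟨G, hemb, hld, ?_⟩
  set Kc := e.symm '' closedBall c r with hKc
  set S := e.symm '' sphere c r with hS
  have hcont : ContinuousOn e.symm (closedBall c r) := e.continuousOn_symm.mono hball
  have hKcl : IsClosed Kc := ((isCompact_closedBall c r).image_of_continuousOn hcont).isClosed
  have hSconn : IsConnected S :=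
    (isConnected_sphere one_lt_rank_F4 c hr.le).image _ (hcont.mono sphere_subset_closedBall)
  have hSK : S ⊆ (range G)ᶜ := by
    rintro _ ⟨y, hy, rfl⟩ hmem
    rw [hrange] at hmem
    obtain ⟨y', hy', h⟩ := hmem
    have h1 := hinj (hbt hy') (hball (sphere_subset_closedBall hy)) h
    rw [h1, mem_ball] at hy'
    rw [mem_sphere] at hy
    linarith
  have hKcU : Kc = range G ∪ S := by
    rw [hKc, hrange, hS, ← image_union, ball_union_sphere]
  have key : ∀ u v : Set M, IsClosed u → IsClosed v → (range G)ᶜ ⊆ u ∪ v →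
      (range G)ᶜ ∩ (u ∩ v) = ∅ → S ⊆ u → (range G)ᶜ ⊆ u := by
    intro u v hu hv huv hd hSu
    have hB : (range G)ᶜ ∩ v = Kcᶜ ∩ uᶜ := by
      ext x
      constructor
      · rintro ⟨h1, h2⟩
        have h3 : x ∉ u := by
          intro h3
          have : x ∈ (range G)ᶜ ∩ (u ∩ v) := ⟨h1, h3, h2⟩
          rw [hd] at this
          exact this
        refine ⟨?_, h3⟩
        intro h4
        rw [hKcU] at h4
        rcases h4 with h4 | h4
        · exact h1 h4
        · exact h3 (hSu h4)
      · rintro ⟨h1, h2⟩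
        have h3 : x ∈ (range G)ᶜ := by
          intro h3
          apply h1
          rw [hKcU]
          exact Or.inl h3
        refine ⟨h3, ?_⟩
        rcases huv h3 with h4 | h4
        · exact absurd h4 h2
        · exact h4
    have hclopen : IsClopen ((range G)ᶜ ∩ v) := by
      refine ⟨(hemb.isOpen_range.isClosed_compl).inter hv, ?_⟩
      rw [hB]
      exact hKcl.isOpen_compl.inter hu.isOpen_compl
    rcases isClopen_iff.1 hclopen with h | h
    · intro x hx
      rcases huv hx with h1 | h1
      · exact h1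
      · exfalso
        have : x ∈ (range G)ᶜ ∩ v := ⟨hx, h1⟩
        rw [h] at this
        exact this
    · exfalso
      obtain ⟨s, hs⟩ := hSconn.nonempty
      have h1 : s ∈ (range G)ᶜ ∩ v := by rw [h]; trivial
      have h2 : s ∈ (range G)ᶜ ∩ (u ∩ v) := ⟨h1.1, hSu hs, h1.2⟩
      rw [hd] at h2
      exact h2
  refine ⟨hSconn.nonempty.mono hSK, ?_⟩
  rw [isPreconnected_iff_subset_of_disjoint_closed]
  intro u v hu hv huv hd
  have hS' := isPreconnected_iff_subset_of_disjoint_closed.1 hSconn.isPreconnected u v hu hv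
    (hSK.trans huv) (by
      rw [← subset_empty_iff, ← hd]
      exact inter_subset_inter_left _ hSK)
  rcases hS' with h | h
  · left
    exact key u v hu hv huv hd h
  · right
    rw [union_comm] at huv
    rw [inter_comm u v] at hd
    exact key v u hv hu huv hd h

/-- Every closed connected 4-manifold resolves the spherical orbifold. -/
theorem exists_resolution (hE : Module.finrank ℝ E = 4) [T2Space M] [CompactSpace M]
    [ConnectedSpace M] : ∃ π : M → V4, IsResolution (E := E) orb π := by
  obtain ⟨G, hG, hGld, hK⟩ := exists_ball_embedding (M := M) hE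
  classical
  set π : M → V4 := fun m => if h : m ∈ range G then pz (Classical.choose h) else q2 with hπ
  have hπG : ∀ z, π (G z) = pz z := by
    intro z
    have h : G z ∈ range G := ⟨z, rfl⟩
    have h1 : π (G z) = pz (Classical.choose h) := by
      simp only [hπ]
      rw [dif_pos h]
    rw [h1, hG.injective (Classical.choose_spec h)]
  have hπn : ∀ m, m ∉ range G → π m = q2 := by
    intro m hm
    simp only [hπ]
    rw [dif_neg hm]
  have hpre1 : ∀ K : Set V4, q2 ∉ K → π ⁻¹' K = G '' (pz ⁻¹' K) := by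
    intro K hK2
    ext m
    constructor
    · intro hm
      by_cases h : m ∈ range G
      · obtain ⟨z, rfl⟩ := h
        refine ⟨z, ?_, rfl⟩
        rw [mem_preimage, ← hπG]
        exact hm
      · rw [mem_preimage, hπn m h] at hm
        exact absurd hm hK2
    · rintro ⟨z, hz, rfl⟩
      rw [mem_preimage, hπG]
      exact hz
  have hpre2 : ∀ K : Set V4, q2 ∈ K → π ⁻¹' K = G '' (pz ⁻¹' K) ∪ (range G)ᶜ := by
    intro K hK2
    ext m
    constructor
    · intro hm
      by_cases h : m ∈ range G
      · obtain ⟨z, rfl⟩ := h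
        left
        refine ⟨z, ?_, rfl⟩
        rw [mem_preimage, ← hπG]
        exact hm
      · exact Or.inr h
    · rintro (⟨z, hz, rfl⟩ | h)
      · rw [mem_preimage, hπG]
        exact hz
      · rw [mem_preimage, hπn m h]
        exact hK2
  have hπc : Continuous π := by
    rw [continuous_iff_isClosed]
    intro K hKc
    by_cases h2 : q2 ∈ K
    · rw [← isOpen_compl_iff, ← preimage_compl, hpre1 Kᶜ (fun h => h h2)]
      exact hG.isOpenMap _ (hKc.isOpen_compl.preimage continuous_pz)
    · rw [hpre1 K h2]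
      exact ((isCompact_preimage_pz hKc h2).image hG.continuous).isClosed
  -- the map from the regular part
  set j : N4 → M := fun n => G (Fm (Classical.choose (exists_QN n))) with hj
  have hjQ : ∀ x : E4, x ≠ 0 → j (QN x) = G (Fm x) := by
    intro x hx
    obtain ⟨h1, h2⟩ := Classical.choose_spec (exists_QN (QN x))
    have h3 : Fm (Classical.choose (exists_QN (QN x))) = Fm x :=
      (Fm_eq_iff h1 hx).2 ((QN_eq_iff h1 hx).1 h2)
    simp only [hj]
    rw [h3]
  have hπj : ∀ n : N4, π (j n) = n.val := by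
    intro n
    obtain ⟨x, hx, rfl⟩ := exists_QN n
    rw [hjQ x hx, hπG, pz_Fm hx, QN_val hx]
  -- the fibres
  have hconn1 : IsConnected (π ⁻¹' {q1}) := by
    rw [hpre1 {q1} (fun h => q1_ne_q2 (mem_singleton_iff.1 h).symm)]
    exact isConnected_preimage_q1.image _ hG.continuous.continuousOn
  have hconn2 : IsConnected (π ⁻¹' {q2}) := by
    rw [hpre2 {q2} rfl]
    have hex : ∃ y ∈ closure (G '' (pz ⁻¹' {q2})), y ∈ (range G)ᶜ := by
      by_contra hcon
      push Not at hcon
      have hsub : closure (G '' (pz ⁻¹' {q2})) ⊆ range G := by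
        intro y hy
        by_contra h
        exact hcon y hy h
      have hcomp : IsCompact (G ⁻¹' closure (G '' (pz ⁻¹' {q2}))) :=
        (hG.isInducing.isCompact_preimage_iff hsub).2 isClosed_closure.isCompact
      obtain ⟨R, hR⟩ := hcomp.isBounded.subset_closedBall (0 : F4)
      obtain ⟨z, hz, hzR⟩ := unbounded_preimage_q2 R
      have h1 : z ∈ G ⁻¹' closure (G '' (pz ⁻¹' {q2})) := subset_closure ⟨z, hz, rfl⟩
      have h2 := hR h1
      rw [mem_closedBall_zero_iff] at h2
      linarith
    obtain ⟨y, hy, hyK⟩ := hex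
    have hc1 : IsConnected (G '' (pz ⁻¹' {q2})) :=
      isConnected_preimage_q2.image _ hG.continuous.continuousOn
    have hc2 : IsPreconnected (insert y (G '' (pz ⁻¹' {q2}))) :=
      hc1.isPreconnected.subset_closure (subset_insert _ _)
        (insert_subset hy subset_closure)
    have hc3 := hc2.union y (mem_insert _ _) hyK hK.isPreconnected
    have heq : insert y (G '' (pz ⁻¹' {q2})) ∪ (range G)ᶜ = G '' (pz ⁻¹' {q2}) ∪ (range G)ᶜ := by
      ext m
      simp only [mem_union, mem_insert_iff]
      constructor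
      · rintro ((h | h) | h)
        · right; rw [h]; exact hyK
        · left; exact h
        · right; exact h
      · rintro (h | h)
        · left; right; exact h
        · right; exact h
    rw [heq] at hc3
    exact ⟨⟨y, Or.inr hyK⟩, hc3⟩
  refine ⟨π, hπc, ?_, ?_, j, ?_, ?_, ?_, hπj⟩
  · -- surjectivity
    intro v
    obtain ⟨a, rfl⟩ := surjective_mkV v
    induction a using OnePoint.rec with
    | infty =>
      obtain ⟨m, hm⟩ := hconn2.nonempty
      exact ⟨m, hm⟩
    | coe x =>
      by_cases hx : x = 0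
      · subst hx
        obtain ⟨m, hm⟩ := hconn1.nonempty
        exact ⟨m, hm⟩
      · exact ⟨G (Fm x), by rw [hπG, pz_Fm hx]⟩
  · intro q hq
    have hcl : IsCompact (π ⁻¹' {q}) := (isClosed_singleton.preimage hπc).isCompact
    refine ⟨hcl, ?_⟩
    rcases hq with rfl | hq
    · exact hconn1
    · have hq' : q = q2 := hq
      subst hq'
      exact hconn2
  · -- local diffeomorphism
    intro n
    obtain ⟨x, hx, rfl⟩ := exists_QN n
    have hk : IsLocalDiffeomorphAt 𝓘(ℝ, E4) 𝓘(ℝ, E) ∞ (fun y => G (Fm y)) x :=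
      IsLocalDiffeomorphAt.comp (hf := isLocalDiffeomorphAt_Fm hx) (hg := hGld (Fm x))
    refine localDiffeo_of_comp (isLocalDiffeomorphAt_QN hx) hk ?_
    filter_upwards [isOpen_ne.mem_nhds hx] with y hy
    exact (hjQ y hy).symm
  · -- injectivity
    intro n n' h
    obtain ⟨x, hx, rfl⟩ := exists_QN n
    obtain ⟨x', hx', rfl⟩ := exists_QN n'
    rw [hjQ x hx, hjQ x' hx'] at h
    exact (QN_eq_iff hx hx').2 ((Fm_eq_iff hx hx').1 (hG.injective h))
  · -- range
    ext m
    constructor
    · rintro ⟨n, rfl⟩ hmem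
      have h1 : π (j n) ∈ ({q1, q2} : Set V4) := hmem
      rw [hπj n] at h1
      exact n.2 h1
    · intro hm
      have hm' : π m ∉ ({q1, q2} : Set V4) := hm
      rw [mem_insert_iff, mem_singleton_iff, not_or] at hm'
      by_cases h : m ∈ range G
      · obtain ⟨z, rfl⟩ := h
        rw [hπG] at hm'
        obtain ⟨x, hx, rfl⟩ := exists_Fm_of_ne hm'.1 hm'.2
        exact ⟨QN x, hjQ x hx⟩
      · exact absurd (hπn m h) hm'.2

end mani

end Pool.Agent.H78.Orb
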